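import Mathlib.Analysis.InnerProductSpace.Laplacian
import Mathlib.Analysis.InnerProductSpace.PiL2
import Mathlib.Analysis.InnerProductSpace.Calculus
import Mathlib.Analysis.Calculus.FDeriv.Symmetric
import Mathlib.Analysis.Calculus.LineDeriv.Basic
import Mathlib.Analysis.Calculus.MeanValue
import Mathlib.Analysis.Calculus.Deriv.MeanValue
import Mathlib.Analysis.Calculus.LocalExtr.Basic
import Mathlib.Analysis.SpecialFunctions.Sqrt

/-! Partial derivatives on Euclidean space: definitions and calculus rules. -/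

open scoped Laplacian ContDiff Topology
open Set Filter

noncomputable section

namespace Pool.Agent.Work.MP_a60953_an.Pos

/-- Euclidean space of dimension `m + 2`. -/
abbrev E (m : ℕ) := EuclideanSpace ℝ (Fin (m + 2))

variable {m : ℕ}

/-- The basis vectors. -/
def e (i : Fin (m + 2)) : E m := EuclideanSpace.single i 1

/-- The partial derivative. -/
def D (i : Fin (m + 2)) (f : E m → ℝ) : E m → ℝ := fun x => fderiv ℝ f x (e i)

/-- The Laplacian as a sum of second partial derivatives. -/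
def Lap (f : E m → ℝ) : E m → ℝ := fun x => ∑ i, D i (D i f) x

/-- `f` has partial derivative `d` in direction `i` at `x`. -/
def P (i : Fin (m + 2)) (f : E m → ℝ) (x : E m) (d : ℝ) : Prop :=
  HasDerivAt (fun τ : ℝ => f (x + τ • e i)) d 0

lemma e_apply (i j : Fin (m + 2)) : (e i : E m) j = if j = i then 1 else 0 := by
  simp [e]

@[simp] lemma e_self (i : Fin (m + 2)) : (e i : E m) i = 1 := by simp [e]

lemma e_ne {i j : Fin (m + 2)} (h : j ≠ i) : (e i : E m) j = 0 := by simp [e_apply, h]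

@[simp] lemma norm_e (i : Fin (m + 2)) : ‖(e i : E m)‖ = 1 := by simp [e]

lemma norm_sq_eq (x : E m) : ‖x‖ ^ 2 = ∑ i, x i ^ 2 := by
  rw [EuclideanSpace.norm_sq_eq]; simp

lemma abs_coord_le (x : E m) (i : Fin (m + 2)) : |x i| ≤ ‖x‖ := by
  simpa using PiLp.norm_apply_le x i

lemma sum_coord (x : E m) : ∑ i, x i • e i = x := by
  ext j
  simp [e, Pi.single_apply]

lemma clm_sum (L : E m →L[ℝ] ℝ) (x : E m) : L x = ∑ i, x i * L (e i) := by
  conv_lhs => rw [← sum_coord x]
  simp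

lemma contDiff_coord {n : WithTop ℕ∞} (i : Fin (m + 2)) : ContDiff ℝ n (fun x : E m => x i) :=
  (EuclideanSpace.proj i : E m →L[ℝ] ℝ).contDiff

lemma contDiff_D {f : E m → ℝ} (hf : ContDiff ℝ ∞ f) (i : Fin (m + 2)) :
    ContDiff ℝ ∞ (D i f) :=
  (hf.fderiv_right (m := ∞) le_rfl).clm_apply contDiff_const

lemma contDiff_Lap {f : E m → ℝ} (hf : ContDiff ℝ ∞ f) : ContDiff ℝ ∞ (Lap f) :=
  ContDiff.sum fun i _ => contDiff_D (contDiff_D hf i) i

lemma nat_le_infty (j : ℕ) : (j : WithTop ℕ∞) ≤ ∞ := by exact_mod_cast le_top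

lemma two_le_infty : (2 : WithTop ℕ∞) ≤ ∞ := nat_le_infty 2

lemma one_le_infty : (1 : WithTop ℕ∞) ≤ ∞ := by exact_mod_cast le_top

lemma diff {f : E m → ℝ} (hf : ContDiff ℝ ∞ f) : Differentiable ℝ f :=
  hf.differentiable (by simp)

lemma D_D_eq {f : E m → ℝ} (hf : ContDiff ℝ ∞ f) (i j : Fin (m + 2)) (x : E m) :
    D i (D j f) x = fderiv ℝ (fderiv ℝ f) x (e i) (e j) := by
  have hd : DifferentiableAt ℝ (fderiv ℝ f) x :=
    ((hf.fderiv_right (m := ∞) le_rfl).differentiable (by simp)) x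
  show fderiv ℝ (fun z => fderiv ℝ f z (e j)) x (e i) = _
  rw [fderiv_clm_apply hd (differentiableAt_const _)]
  simp

lemma symm2 {f : E m → ℝ} (hf : ContDiff ℝ ∞ f) (x v w : E m) :
    fderiv ℝ (fderiv ℝ f) x v w = fderiv ℝ (fderiv ℝ f) x w v :=
  (hf.contDiffAt.isSymmSndFDerivAt (by simpa using two_le_infty)).eq v w

lemma D_comm {f : E m → ℝ} (hf : ContDiff ℝ ∞ f) (i j : Fin (m + 2)) :
    D i (D j f) = D j (D i f) := by
  funext x
  rw [D_D_eq hf, D_D_eq hf, symm2 hf]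

lemma laplacian_eq {f : E m → ℝ} (hf : ContDiff ℝ ∞ f) (x : E m) : Δ f x = Lap f x := by
  rw [InnerProductSpace.laplacian_eq_iteratedFDeriv_orthonormalBasis _
    (EuclideanSpace.basisFun (Fin (m + 2)) ℝ)]
  simp only [iteratedFDeriv_two_apply, Matrix.cons_val_zero, Matrix.cons_val_one,
    EuclideanSpace.basisFun_apply, Lap, D_D_eq hf, e]

lemma hasDerivAt_line {f : E m → ℝ} {x v : E m} {τ : ℝ} (hf : DifferentiableAt ℝ f (x + τ • v)) :
    HasDerivAt (fun σ : ℝ => f (x + σ • v)) (fderiv ℝ f (x + τ • v) v) τ := by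
  have h : HasDerivAt (fun σ : ℝ => x + σ • v) v τ := by
    simpa using ((hasDerivAt_id τ).smul_const v).const_add x
  exact hf.hasFDerivAt.comp_hasDerivAt τ h

lemma hasDerivAt_D {f : E m → ℝ} (hf : ContDiff ℝ ∞ f) (x : E m) (i : Fin (m + 2)) (τ : ℝ) :
    HasDerivAt (fun σ : ℝ => f (x + σ • e i)) (D i f (x + τ • e i)) τ :=
  hasDerivAt_line (diff hf _)

lemma P_of_diff {f : E m → ℝ} {x : E m} (hf : DifferentiableAt ℝ f x) (i : Fin (m + 2)) :
    P i f x (D i f x) := by
  have := hasDerivAt_line (x := x) (v := e i) (τ := 0) (f := f) (by simpa using hf)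
  simpa [P, D] using this

lemma P_D {f : E m → ℝ} (hf : ContDiff ℝ ∞ f) (i : Fin (m + 2)) (x : E m) : P i f x (D i f x) :=
  P_of_diff (diff hf x) i

section
variable {i : Fin (m + 2)} {f g : E m → ℝ} {x : E m} {a b : ℝ}

lemma P.D_eq (h : P i f x a) (hf : DifferentiableAt ℝ f x) : D i f x = a :=
  (P_of_diff hf i).unique h

lemma P.congr (h : P i f x a) (hab : a = b) : P i f x b := hab ▸ h

lemma P.const (c : ℝ) : P i (fun _ => c) x 0 := hasDerivAt_const _ _

lemma P.coord (j : Fin (m + 2)) : P i (fun z : E m => z j) x ((e i : E m) j) := by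
  have := ((hasDerivAt_id (0 : ℝ)).mul_const ((e i : E m) j)).const_add (x j)
  simpa [P] using this

lemma P.add (hf : P i f x a) (hg : P i g x b) : P i (fun z => f z + g z) x (a + b) :=
  HasDerivAt.fun_add hf hg

lemma P.sub (hf : P i f x a) (hg : P i g x b) : P i (fun z => f z - g z) x (a - b) :=
  HasDerivAt.fun_sub hf hg

lemma P.mul (hf : P i f x a) (hg : P i g x b) :
    P i (fun z => f z * g z) x (a * g x + f x * b) := by
  have := HasDerivAt.fun_mul hf hg
  simpa [P] using this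

lemma P.const_mul (hf : P i f x a) (c : ℝ) : P i (fun z => c * f z) x (c * a) :=
  HasDerivAt.const_mul c hf

lemma P.comp {φ : ℝ → ℝ} {φ' : ℝ} (hφ : HasDerivAt φ φ' (f x)) (hf : P i f x a) :
    P i (fun z => φ (f z)) x (φ' * a) := by
  have h : HasDerivAt φ φ' ((fun τ : ℝ => f (x + τ • e i)) 0) := by simpa using hφ
  exact h.comp 0 hf

lemma P.sum {ι : Type*} {s : Finset ι} {F : ι → E m → ℝ} {d : ι → ℝ}
    (h : ∀ k ∈ s, P i (F k) x (d k)) : P i (fun z => ∑ k ∈ s, F k z) x (∑ k ∈ s, d k) :=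
  HasDerivAt.fun_sum h

lemma P.clm (L : E m →L[ℝ] ℝ) : P i L x (L (e i)) := by
  have := P_of_diff (x := x) L.differentiableAt i
  simpa [D] using this

lemma P.congr_eventually (h : P i f x a) (hfg : g =ᶠ[𝓝 x] f) : P i g x a := by
  have hc : Tendsto (fun τ : ℝ => x + τ • (e i : E m)) (𝓝 0) (𝓝 x) := by
    have : Continuous (fun τ : ℝ => x + τ • (e i : E m)) := by fun_prop
    simpa using this.tendsto 0
  exact HasDerivAt.congr_of_eventuallyEq h (hc.eventually hfg)

lemma P.normSq : P i (fun z : E m => ‖z‖ ^ 2) x (2 * x i) := by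
  have h : P i (fun z : E m => ∑ j, z j * z j) x
      (∑ j, ((e i : E m) j * x j + x j * (e i : E m) j)) :=
    P.sum fun j _ => (P.coord j).mul (P.coord j)
  have e1 : (fun z : E m => ‖z‖ ^ 2) = fun z : E m => ∑ j, z j * z j := by
    funext z; rw [norm_sq_eq]; simp [sq]
  rw [e1]
  refine h.congr ?_
  simp [e_apply, Finset.sum_add_distrib]
  ring

lemma P.norm (hx : x ≠ 0) : P i (fun z : E m => ‖z‖) x (x i / ‖x‖) := by
  have hn : ‖x‖ ≠ 0 := norm_ne_zero_iff.2 hx
  have h := P.comp (f := fun z : E m => ‖z‖ ^ 2) (x := x)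
    (Real.hasDerivAt_sqrt (x := ‖x‖ ^ 2) (pow_ne_zero 2 hn)) (P.normSq (i := i) (x := x))
  simp only [Real.sqrt_sq (norm_nonneg _)] at h
  refine h.congr ?_
  field_simp

end

lemma D_add {f g : E m → ℝ} (hf : ContDiff ℝ ∞ f) (hg : ContDiff ℝ ∞ g) (i : Fin (m + 2)) :
    D i (fun z => f z + g z) = fun z => D i f z + D i g z :=
  funext fun z => ((P_D hf i z).add (P_D hg i z)).D_eq (diff (hf.add hg) z)

lemma D_sub {f g : E m → ℝ} (hf : ContDiff ℝ ∞ f) (hg : ContDiff ℝ ∞ g) (i : Fin (m + 2)) :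
    D i (fun z => f z - g z) = fun z => D i f z - D i g z :=
  funext fun z => ((P_D hf i z).sub (P_D hg i z)).D_eq (diff (hf.sub hg) z)

lemma D_const_mul {f : E m → ℝ} (hf : ContDiff ℝ ∞ f) (c : ℝ) (i : Fin (m + 2)) :
    D i (fun z => c * f z) = fun z => c * D i f z :=
  funext fun z => ((P_D hf i z).const_mul c).D_eq (diff (contDiff_const.mul hf) z)

lemma Lap_sub {f g : E m → ℝ} (hf : ContDiff ℝ ∞ f) (hg : ContDiff ℝ ∞ g) (x : E m) :
    Lap (fun z => f z - g z) x = Lap f x - Lap g x := by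
  simp only [Lap, D_sub hf hg, D_sub (contDiff_D hf _) (contDiff_D hg _), Finset.sum_sub_distrib]

lemma Lap_const_mul {f : E m → ℝ} (hf : ContDiff ℝ ∞ f) (c : ℝ) (x : E m) :
    Lap (fun z => c * f z) x = c * Lap f x := by
  simp only [Lap, D_const_mul hf, D_const_mul (contDiff_D hf _), Finset.mul_sum]

lemma D_Lap {f : E m → ℝ} (hf : ContDiff ℝ ∞ f) (j : Fin (m + 2)) (x : E m) :
    D j (Lap f) x = Lap (D j f) x := by
  have h : P j (Lap f) x (∑ i, D j (D i (D i f)) x) :=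
    P.sum fun i _ => P_D (contDiff_D (contDiff_D hf i) i) j x
  rw [h.D_eq (diff (contDiff_Lap hf) x)]
  refine Finset.sum_congr rfl fun i _ => ?_
  rw [D_comm (contDiff_D hf i) j i, D_comm hf j i]

/-- One-variable second derivative test. -/
lemma second_nonneg_of_isLocalMin {g g1 : ℝ → ℝ} {d t : ℝ}
    (hg : ∀ᶠ τ in 𝓝 t, HasDerivAt g (g1 τ) τ) (h1 : HasDerivAt g1 d t) (hm : IsLocalMin g t) :
    0 ≤ d := by
  by_contra hneg
  have hd : d < 0 := not_le.1 hneg
  have z : g1 t = 0 := hm.hasDerivAt_eq_zero hg.self_of_nhds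
  have hs := (hasDerivAt_iff_tendsto_slope.1 h1).eventually (gt_mem_nhds hd)
  rw [eventually_nhdsWithin_iff] at hs
  obtain ⟨δ, hδ, hall⟩ := Metric.eventually_nhds_iff.1 (hs.and (hg.and hm))
  have near : ∀ τ ∈ Icc t (t + δ / 2), dist τ t < δ := fun τ hτ => by
    rw [Real.dist_eq, abs_lt]; constructor <;> linarith [hτ.1, hτ.2]
  obtain ⟨c, hc, hc'⟩ := exists_hasDerivAt_eq_slope g g1 (show t < t + δ / 2 by linarith)
    (fun τ hτ => (hall (near τ hτ)).2.1.continuousAt.continuousWithinAt)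
    (fun τ hτ => (hall (near τ (Ioo_subset_Icc_self hτ))).2.1)
  have h2 := (hall (near c (Ioo_subset_Icc_self hc))).1 (ne_of_gt hc.1)
  rw [slope_def_field, z, sub_zero] at h2
  have h3 : g1 c < 0 := by
    have := (div_neg_iff.1 h2)
    rcases this with h | h
    · linarith [h.2, hc.1]
    · exact h.1
  have h4 : g t ≤ g (t + δ / 2) := (hall (near _ ⟨by linarith, le_rfl⟩)).2.2
  have h5 : 0 ≤ (g (t + δ / 2) - g t) / (t + δ / 2 - t) :=
    div_nonneg (by linarith) (by linarith)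
  linarith

lemma Lap_nonneg_of_isLocalMin {f : E m → ℝ} (hf : ContDiff ℝ ∞ f) {x : E m}
    (hm : IsLocalMin f x) : 0 ≤ Lap f x := by
  refine Finset.sum_nonneg fun i _ => ?_
  have hc : ContinuousAt (fun τ : ℝ => x + τ • (e i : E m)) 0 := by fun_prop
  refine second_nonneg_of_isLocalMin (t := 0) (g := fun τ => f (x + τ • e i))
    (g1 := fun τ => D i f (x + τ • e i)) (Eventually.of_forall (hasDerivAt_D hf x i))
    (P_D (contDiff_D hf i) i x) ?_
  exact IsLocalMin.comp_continuous (f := f) (g := fun τ : ℝ => x + τ • (e i : E m))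
    (by simpa using hm) hc

end Pool.Agent.Work.MP_a60953_an.Pos
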