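import Pool.Agent.Work.MP_a60953_an.Pos.Energy

/-! The Picone argument: no positive supersolution of `φ₀ ΔW ≤ (κ + δ) W` on a cone is
`O(r^3)` at the vertex. -/

open scoped ContDiff Topology
open Set Filter MeasureTheory

noncomputable section

namespace Pool.Agent.Work.MP_a60953_an.Pos

variable {m : ℕ} {a : E m →L[ℝ] E m →L[ℝ] ℝ}

/-- The compact part of the cone between two spheres. -/
def KK (m : ℕ) (δ ρ R : ℝ) : Set (E m) := {x | ρ ≤ ‖x‖ ∧ ‖x‖ ≤ R ∧ δ * ‖x‖ ≤ x 0}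

lemma isCompact_KK (δ ρ R : ℝ) : IsCompact (KK m δ ρ R) := by
  refine (isCompact_closedBall (0 : E m) R).of_isClosed_subset ?_ fun x hx => by simpa using hx.2.1
  have c0 : Continuous fun x : E m => x 0 := (contDiff_coord (n := 0) 0).continuous
  exact (isClosed_le continuous_const continuous_norm).inter
    ((isClosed_le continuous_norm continuous_const).inter
      (isClosed_le (continuous_const.mul continuous_norm) c0))

lemma isCompact_shell (ρ R : ℝ) : IsCompact {x : E m | ρ ≤ ‖x‖ ∧ ‖x‖ ≤ R} :=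
  (isCompact_closedBall (0 : E m) R).of_isClosed_subset
    ((isClosed_le continuous_const continuous_norm).inter
      (isClosed_le continuous_norm continuous_const)) fun x hx => by simpa using hx.2

lemma chi_bound {ρ R X C : ℝ} {x : E m} (h1 : ρ ≤ ‖x‖) (h2 : ‖x‖ ≤ R) (hC : 0 ≤ C) (hX : X ≤ C)
    (h0 : 2 * ρ < ‖x‖ → ‖x‖ < R / 2 → X ≤ 0) :
    (‖x‖ ^ (m + 2))⁻¹ * X ≤ C * (shell ρ (2 * ρ) x + shell (R / 2) R x) := by
  have hν : 0 ≤ (‖x‖ ^ (m + 2))⁻¹ := by positivity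
  have s1 := mul_nonneg hC (shell_nonneg ρ (2 * ρ) x)
  have s2 := mul_nonneg hC (shell_nonneg (R / 2) R x)
  have s3 := mul_le_mul_of_nonneg_left hX hν
  by_cases c1 : ‖x‖ ≤ 2 * ρ
  · rw [shell_of_mem h1 c1] at *; linarith only [s2, s3]
  by_cases c2 : R / 2 ≤ ‖x‖
  · rw [shell_of_mem c2 h2] at *; linarith only [s1, s3]
  have := mul_le_mul_of_nonneg_left (h0 (not_le.1 c1) (not_le.1 c2)) hν
  linarith only [s1, s2, this]

lemma mu_mul {x : E m} (hx : x ≠ 0) : mu x * ‖x‖ ^ 4 = (‖x‖ ^ (m + 2))⁻¹ := by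
  have hn : ‖x‖ ≠ 0 := norm_ne_zero_iff.2 hx
  unfold mu
  field_simp
  ring

lemma X1 {p q z o L c N : ℝ} (i0 : 0 ≤ p) (i1 : p ≤ 2 * L) (o0 : 0 ≤ q) (o1 : q ≤ L) (z0 : 0 ≤ z)
    (z1 : z ≤ 1) (ho : o ≤ 0) (hoo : -o * q ≤ c) (hN : 0 ≤ N) :
    (p - q) ^ 2 + 6 * z * (p - q) + 2 * N * (o * z * (p - q)) ≤
      4 * (3 * L) ^ 2 + 6 * (3 * L) + 2 * N * c := by
  have a1 : (p - q) ^ 2 ≤ 4 * (3 * L) ^ 2 := by linarith only [i0, i1, o0, o1, sq_nonneg ((3 : ℝ) * L), mul_nonneg_of_nonpos_of_nonpos (Mathlib.Tactic.Linarith.sub_nonpos_of_le i0) (Mathlib.Tactic.Linarith.sub_nonpos_of_le i1), mul_nonneg_of_nonpos_of_nonpos (Mathlib.Tactic.Linarith.sub_nonpos_of_le i0) (Mathlib.Tactic.Linarith.sub_nonpos_of_le o0), mul_nonneg_of_nonpos_of_nonpos (Mathlib.Tactic.Linarith.sub_nonpos_of_le i1) (Mathlib.Tactic.Linarith.sub_nonpos_of_le i1), mul_nonneg_of_nonpos_of_nonpos (Mathlib.Tactic.Linarith.sub_nonpos_of_le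 i1) (Mathlib.Tactic.Linarith.sub_nonpos_of_le o1), mul_nonneg_of_nonpos_of_nonpos (Mathlib.Tactic.Linarith.sub_nonpos_of_le o0) (Mathlib.Tactic.Linarith.sub_nonpos_of_le o1)]
  have a2 : z * (p - q) ≤ 3 * L := by linarith only [i0, i1, z1, o0, z0, mul_nonneg_of_nonpos_of_nonpos (Mathlib.Tactic.Linarith.sub_nonpos_of_le i0) (Mathlib.Tactic.Linarith.sub_nonpos_of_le z1), mul_nonneg_of_nonpos_of_nonpos (Mathlib.Tactic.Linarith.sub_nonpos_of_le o0) (Mathlib.Tactic.Linarith.sub_nonpos_of_le z0)]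
  have a3 : o * z * (p - q) ≤ c := by
    have b1 := mul_nonneg (mul_nonneg (neg_nonneg.2 ho) z0) i0
    have b2 := mul_nonneg (mul_nonneg (neg_nonneg.2 ho) (sub_nonneg.2 z1)) o0
    linarith only [hoo, b1, b2]
  have a4 := mul_le_mul_of_nonneg_left a3 (by positivity : 0 ≤ 2 * N)
  linarith only [a1, a2, a4]

lemma X2 {p q z L : ℝ} (i0 : 0 ≤ p) (o0 : 0 ≤ q) (o1 : q ≤ L) (z0 : 0 ≤ z) (z1 : z ≤ 1) :
    -(6 * z * (p - q)) ≤ 18 * L := by linarith only [o0, o1, i0, z0, z1, mul_nonneg_of_nonpos_of_nonpos (Mathlib.Tactic.Linarith.sub_nonpos_of_le i0) (Mathlib.Tactic.Linarith.sub_nonpos_of_le z0), mul_nonneg_of_nonpos_of_nonpos (Mathlib.Tactic.Linarith.sub_nonpos_of_le o0) (Mathlib.Tactic.Linarith.sub_nonpos_of_le z1)]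

lemma X3 {r ρ z L : ℝ} (h : r ≤ ρ) (h0 : 0 ≤ z) (h1 : ρ * z ≤ L) : r * z ≤ L :=
  (mul_le_mul_of_nonneg_right h h0).trans h1

/-- `μ h² X / r²` against the shells. -/
lemma err_bound {ρ R X C B h : ℝ} {x : E m} (hx : x ≠ 0) (h1 : ρ ≤ ‖x‖) (h2 : ‖x‖ ≤ R)
    (hC : 0 ≤ C) (hX : X ≤ C) (h0 : 2 * ρ < ‖x‖ → ‖x‖ < R / 2 → X ≤ 0)
    (hh : |h| ≤ B * ‖x‖ ^ 3) :
    mu x * (h ^ 2 / ‖x‖ ^ 2 * X) ≤ B ^ 2 * C * (shell ρ (2 * ρ) x + shell (R / 2) R x) := by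
  have hn : 0 < ‖x‖ := norm_pos_iff.2 hx
  have hsq : h ^ 2 ≤ (B * ‖x‖ ^ 3) ^ 2 := sq_le_sq' (abs_le.1 hh).1 (abs_le.1 hh).2
  have h3 : h ^ 2 / ‖x‖ ^ 6 ≤ B ^ 2 := by
    rw [div_le_iff₀ (by positivity)]; linarith only [hsq]
  have h4 : 0 ≤ h ^ 2 / ‖x‖ ^ 6 := by positivity
  have e1 : mu x * (h ^ 2 / ‖x‖ ^ 2 * X) = (‖x‖ ^ (m + 2))⁻¹ * (h ^ 2 / ‖x‖ ^ 6 * X) := by
    rw [← mu_mul hx]; field_simp
  rw [e1]
  refine chi_bound h1 h2 (by positivity) ?_ fun c1 c2 => mul_nonpos_of_nonneg_of_nonpos h4 (h0 c1 c2)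
  linarith only [hX, h4, h3, hC, mul_le_mul_of_nonneg_left hX h4, mul_le_mul_of_nonneg_right h3 hC]

theorem picone (hs : ∀ x y, a x y = a y x) (psd : ∀ x, 0 ≤ a x x) (hc : 0 < a (e 0) (e 0)) :
    ∃ δ : ℝ, 0 < δ ∧ ∀ (W : E m → ℝ) (R : ℝ), ContDiff ℝ ∞ W → 0 < R →
      (∀ x, 0 < x 0 → ‖x‖ ≤ R → 0 < W x ∧ W x ≤ ‖x‖ ^ 3) →
      (∀ x, ‖x‖ ≤ R → δ * ‖x‖ < x 0 → δ * ‖x‖ ^ 2 < phi a x →
        Lap W x * phi a x ≤ (kap a + δ) * W x) → False := by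
  set c := a (e 0) (e 0) with hcdef
  set n : ℝ := (m : ℝ) + 2 with hndef
  have hn0 : 0 < n := by positivity
  obtain ⟨δ, hδ, off, on⟩ := exists_cone psd (η := c ^ 2 / (2 * n ^ 2)) (by positivity)
  set η := c ^ 2 / (2 * n ^ 2) with hη
  refine ⟨δ, hδ, fun W R hW hR hpos hsup => ?_⟩
  obtain ⟨B, hB1, hB⟩ := exists_B a
  obtain ⟨L, hL, hcut⟩ := exists_cutoff
  obtain ⟨cc, hcc, hsh⟩ := integral_shell (m := m)
  have inK : ∀ {ρ : ℝ}, 0 < ρ → ∀ x ∈ KK m δ ρ R, x ≠ 0 ∧ 0 < x 0 := fun {ρ} hρ x hx => by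
    have h1 : 0 < ‖x‖ := hρ.trans_le hx.1
    exact ⟨norm_pos_iff.1 h1, (mul_pos hδ h1).trans_le hx.2.2⟩
  obtain ⟨Co, hCo⟩ := (isCompact_KK (m := m) δ (R / 2) R).exists_bound_of_continuousOn
    (f := om W) (fun x hx => by
      have h1 := inK (half_pos hR) x hx
      exact ((hW.continuous.continuousAt.log (hpos x h1.2 hx.2.1).1.ne').sub
        (continuousAt_const.mul
          (continuous_norm.continuousAt.log (norm_ne_zero_iff.2 h1.1)))).continuousWithinAt)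
  set C1 := 4 * (3 * L) ^ 2 + 6 * (3 * L) + 2 * ((m : ℝ) + 6) * (|Co| * L) with hC1
  have hC10 : 0 ≤ C1 := by positivity
  set C := B ^ 2 * C1 + B ^ 2 * (18 * L) with hC
  have hC0 : 0 ≤ C := by positivity
  set A := 4 * n ^ 2 * C * Real.log 2 / c ^ 2 + 1 with hA
  have hlog : 0 < Real.log 2 := Real.log_pos one_lt_two
  have hA0 : 0 ≤ A := by clear * - A n C c m B C1 L hB1 Co hL hc; positivity
  set ρ := R / (4 * Real.exp A) with hρdef
  have hρ : 0 < ρ := by positivity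
  obtain hρR : 4 * ρ ≤ R := by
    have := Real.one_le_exp hA0
    rw [hρdef, mul_div_assoc', div_le_iff₀ (by positivity)]
    linarith only [hR, this, mul_nonneg_of_nonpos_of_nonpos (le_of_lt (Mathlib.Tactic.Linarith.sub_neg_of_lt hR)) (Mathlib.Tactic.Linarith.sub_nonpos_of_le this)]
  obtain ⟨ζ, ζi, ζo, hζ, hd, h01, hz, hone, hi, hi0, ho, ho0⟩ := hcut ρ R hρ hρR
  have FF0 : ∀ x : E m, ¬(ρ ≤ ‖x‖ ∧ ‖x‖ ≤ R) → FF ζ x = 0 := fun x hx => by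
    have : ζ ‖x‖ = 0 := hz _ (by
      rcases not_and_or.1 hx with h | h
      · exact Or.inl (not_le.1 h).le
      · exact Or.inr (not_le.1 h).le)
    simp [FF, this]
  have Psi0 : ∀ x : E m, x ∉ KK m δ ρ R → Psi a δ ζ x = 0 := fun x hx => by
    by_cases h : ρ ≤ ‖x‖ ∧ ‖x‖ ≤ R
    · have : x 0 - δ * ‖x‖ ≤ 0 := by
        by_contra h'
        exact hx ⟨h.1, h.2, by linarith only [h', not_le.1 h']⟩
      simp [Psi, pp, max_eq_right this]
    · simp [Psi, FF0 x h]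
  have f10 : ∀ i x, x ∉ KK m δ ρ R → f1 a δ ζ W i x = 0 := fun i x hx => by
    simp [f1, Psi0 x hx]
  have f20 : ∀ i x, x ∉ KK m δ ρ R → f2 a δ ζ W i x = 0 := fun i x hx => by
    simp [f2, Psi0 x hx]
  have f30 : ∀ i x, x ∉ {x : E m | ρ ≤ ‖x‖ ∧ ‖x‖ ≤ R} → f3 a ζ i x = 0 := fun i x hx => by
    simp [f3, FF0 x hx]
  have WK : ∀ x ∈ KK m δ ρ R, W x ≠ 0 := fun x hx => (hpos x (inK hρ x hx).2 hx.2.1).1.ne'
  have Ztot : Z (tot a δ ζ W) :=
    (Z.sum fun i _ => Z_D_of_compact (isCompact_KK δ ρ R)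
      (fun x hx => contDiffAt_f1 hζ hW i (inK hρ x hx).1 (WK x hx)) (f10 i) i).add
    ((Z.sum fun i _ => Z_D_of_compact (isCompact_KK δ ρ R)
      (fun x hx => contDiffAt_f2 hζ hW i (inK hρ x hx).1 (WK x hx)) (f20 i) i).const_mul _)
  have Z3 : Z (fun x => ∑ i, D i (f3 a ζ i) x) :=
    Z.sum fun i _ => Z_D_of_compact (isCompact_shell ρ R)
      (fun x hx => contDiffAt_f3 hζ i (norm_pos_iff.1 (hρ.trans_le hx.1))) (f30 i) i
  have tot0 : ∀ x, x ∉ KK m δ ρ R → tot a δ ζ W x = 0 := fun x hx => by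
    simp [tot, D_eq_zero_of_compact (isCompact_KK δ ρ R) (f10 _) _ hx,
      D_eq_zero_of_compact (isCompact_KK δ ρ R) (f20 _) _ hx]
  set χ : E m → ℝ := fun x => shell ρ (2 * ρ) x + shell (R / 2) R x with hχ
  have χ0 : ∀ x, 0 ≤ χ x := fun x => add_nonneg (shell_nonneg _ _ x) (shell_nonneg _ _ x)
  -- bounds on the cutoff derivative
  have zi : ∀ r : ℝ, 0 ≤ r → 0 ≤ r * ζi r ∧ r * ζi r ≤ 2 * L := fun r hr => by
    refine ⟨mul_nonneg hr (hi r).1, ?_⟩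
    by_cases h : 2 * ρ < r
    · rw [hi0 r h]; linarith only [hL]
    · exact X3 (not_lt.1 h) (hi r).1 (by linarith only [hi, (hi r).2])
  have zo : ∀ r : ℝ, 0 ≤ r → r ≤ R → 0 ≤ r * ζo r ∧ r * ζo r ≤ L := fun r hr hrR =>
    ⟨mul_nonneg hr (ho r).1, X3 hrR (ho r).1 (ho r).2⟩
  -- the bound on the upper half space
  obtain totle : ∀ x : E m, 0 ≤ x 0 →
      tot a δ ζ W x ≤ FF ζ x * (K0 a x + η * ‖x‖ ^ 4) + B ^ 2 * C1 * χ x := by
    clear * - m B C1 χ hB1 L Co hL χ0 a δ ζ W η ρ R hρ off hs hζ hW WK tot0 c n hpos inK ζi ζo hd on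
      hsup hδ hB zi zo h01 ho0 hCo hC10 hi0 FF0 C hsh
    intro x ht
    have e0 : 0 ≤ B ^ 2 * C1 * χ x := mul_nonneg (by clear * - B C1 hB1 L m Co hL x χ0; positivity) (χ0 x)
    by_cases hsh : ρ ≤ ‖x‖ ∧ ‖x‖ ≤ R
    swap
    · rw [tot0 x fun h => hsh ⟨h.1, h.2.1⟩, FF0 x hsh]; linarith only [e0]
    have hn : 0 < ‖x‖ := hρ.trans_le hsh.1
    have hx : x ≠ 0 := norm_pos_iff.1 hn
    by_cases hcone : x 0 ≤ δ * ‖x‖ ∨ phi a x ≤ δ * ‖x‖ ^ 2
    · have h1 := mul_nonneg (FF_nonneg ζ x) (off x hx ht hcone)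
      obtain h2 : tot a δ ζ W x = 0 := by
        by_cases hK : x ∈ KK m δ ρ R
        · exact tot_eq_zero hs hζ hW hx (WK x hK) hcone
        · exact tot0 x hK
      linarith only [e0, h1, h2]
    obtain ⟨c1, c2⟩ := not_or.1 hcone
    have c1 := not_le.1 c1
    have c2 := not_le.1 c2
    have hK : x ∈ KK m δ ρ R := ⟨hsh.1, hsh.2, c1.le⟩
    obtain ⟨hW0, hW3⟩ := hpos x (inK hρ x hK).2 hsh.2
    have k1 := tot_le_cone hs hζ hW hx hW0.ne' (hd ‖x‖) c1 c2 rfl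
    have k2 := on x (Lap W x * (W x)⁻¹) _ hx c1 c2 rfl (by
      have := hsup x hsh.2 c1 c2
      rw [mul_right_comm, mul_inv_le_iff₀ hW0]; exact this)
    have k3 := mul_le_mul_of_nonneg_left k2 (FF_nonneg ζ x)
    set h := (x 0 - δ * ‖x‖) * (phi a x - δ * ‖x‖ ^ 2) with hh
    obtain hb : |h| ≤ B * ‖x‖ ^ 3 := by
      have p1 : 0 < δ * ‖x‖ := by positivity
      have p2 : 0 < δ * ‖x‖ ^ 2 := by positivity
      have b1 := (abs_le.1 (hB x).1).2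
      have b2 := (abs_le.1 (abs_coord_le x 0)).2
      rw [abs_of_nonneg (mul_nonneg (by linarith) (by linarith))]
      have : h ≤ ‖x‖ * (B * ‖x‖ ^ 2) :=
        mul_le_mul (by linarith only [p1, b2]) (by linarith only [p2, b1]) (by linarith) hn.le
      linarith only [this]
    obtain hom : om W x ≤ 0 := by
      have := Real.log_le_log hW0 hW3
      rw [Real.log_pow] at this
      unfold om
      push_cast at this
      linarith only [this]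
    obtain ⟨i0, i1⟩ := zi ‖x‖ hn.le
    obtain ⟨o0, o1⟩ := zo ‖x‖ hn.le hsh.2
    obtain ⟨z0, z1⟩ := h01 ‖x‖
    obtain hoo : -(om W x) * (‖x‖ * ζo ‖x‖) ≤ |Co| * L := by
      by_cases h2 : ‖x‖ < R / 2
      · rw [ho0 _ h2]; simp; positivity
      · have := hCo x ⟨not_lt.1 h2, hsh.2, c1.le⟩
        rw [Real.norm_eq_abs] at this
        exact mul_le_mul ((neg_le_abs _).trans (this.trans (le_abs_self _))) o1 o0 (abs_nonneg _)
    have k4 := err_bound (B := B) (h := h) (C := C1) (ρ := ρ) (R := R)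
      (X := (‖x‖ * ζi ‖x‖ - ‖x‖ * ζo ‖x‖) ^ 2 + 6 * ζ ‖x‖ * (‖x‖ * ζi ‖x‖ - ‖x‖ * ζo ‖x‖) +
        2 * ((m : ℝ) + 6) * (om W x * ζ ‖x‖ * (‖x‖ * ζi ‖x‖ - ‖x‖ * ζo ‖x‖)))
      hx hsh.1 hsh.2 hC10 (X1 i0 i1 o0 o1 z0 z1 hom hoo (by positivity))
      (fun h1 h2 => by rw [hi0 _ h1, ho0 _ h2]; simp) hb
    refine k1.trans (le_trans (add_le_add (le_of_eq_of_le ?_ k4) k3) (le_of_eq (add_comm _ _)))
    congr 1
    clear * - ζi m x ζo h ζ W hx; field_simp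
  have totneg : ∀ x : E m, x 0 ≤ 0 → tot a δ ζ W x = 0 := fun x hx =>
    tot0 x fun h => absurd (inK hρ x h).2 (not_lt.2 hx)
  -- first symmetrisation
  set T1 : E m → ℝ := fun x => tot a δ ζ W x + tot a δ ζ W (-x) - ∑ i, D i (f3 a ζ i) x with hT1
  have ZT1 : Z T1 := (Ztot.add (Ztot.comp (LinearIsometryEquiv.neg ℝ))).sub Z3
  obtain T1le : ∀ x, T1 x ≤ -(FF ζ x * (2 * a (e 0) x * h0 a x)) + η * (FF ζ x * ‖x‖ ^ 4) +
      C * χ x := by
    clear * - m a δ ζ W η B C1 χ totneg totle ρ R hχ L hB1 hL χ0 T1 C hρ ζi zi ζo zo h01 hB hi0 ho0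
      hT1 hs hζ hd hC Co c n f30 FF0 hsh
    intro x
    obtain s1 : tot a δ ζ W x + tot a δ ζ W (-x) ≤
        FF ζ x * (K0 a x + η * ‖x‖ ^ 4) + B ^ 2 * C1 * χ x := by
      clear * - m x a δ ζ W η B C1 χ totneg totle ρ R hχ
      rcases le_total 0 (x 0) with h | h
      · rw [totneg (-x) (by simpa using h), add_zero]; exact totle x h
      · have := totle (-x) (by simpa using h)
        rw [K0_neg] at this
        simp only [FF, mu, hχ, shell, norm_neg] at this ⊢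
        rw [totneg x h, zero_add]; exact this
    have e0 : 0 ≤ B ^ 2 * (18 * L) * χ x := mul_nonneg (by positivity) (χ0 x)
    by_cases hsh : ρ ≤ ‖x‖ ∧ ‖x‖ ≤ R
    swap
    · have : ∑ i, D i (f3 a ζ i) x = 0 := Finset.sum_eq_zero fun i _ =>
        D_eq_zero_of_compact (isCompact_shell ρ R) (f30 i) i hsh
      simp only [hT1, this, FF0 x hsh] at s1 ⊢
      rw [hC]; linarith only [e0, s1]
    have hn : 0 < ‖x‖ := hρ.trans_le hsh.1
    have hx : x ≠ 0 := norm_pos_iff.1 hn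
    obtain ⟨i0, i1⟩ := zi ‖x‖ hn.le
    obtain ⟨o0, o1⟩ := zo ‖x‖ hn.le hsh.2
    obtain ⟨z0, z1⟩ := h01 ‖x‖
    obtain hb : |h0 a x| ≤ B * ‖x‖ ^ 3 := by
      rw [h0, abs_mul]
      have := mul_le_mul (abs_coord_le x 0) (hB x).1 (abs_nonneg _) hn.le
      linarith only [this]
    have k4 := err_bound (B := B) (h := h0 a x) (C := 18 * L) (ρ := ρ) (R := R)
      (X := -(6 * ζ ‖x‖ * (‖x‖ * ζi ‖x‖ - ‖x‖ * ζo ‖x‖))) hx hsh.1 hsh.2 (by positivity)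
      (X2 i0 o0 o1 z0 z1) (fun h1 h2 => by rw [hi0 _ h1, ho0 _ h2]; simp) hb
    have k5 : mu x * (h0 a x ^ 2 / ‖x‖ ^ 2 * -(6 * ζ ‖x‖ * (‖x‖ * ζi ‖x‖ - ‖x‖ * ζo ‖x‖))) =
        -(6 * mu x * ζ ‖x‖ * (ζi ‖x‖ - ζo ‖x‖) * h0 a x ^ 2 / ‖x‖) := by clear * - m x a ζ ζi ζo hx; field_simp
    simp only [hT1, div_f3 hs hζ hx (hd ‖x‖)]
    rw [hC]
    linarith only [s1, k4, k5]
  -- second symmetrisation
  have FFJ : ∀ (J : E m ≃ₗᵢ[ℝ] E m) (x : E m), FF ζ (J x) = FF ζ x := fun J x => by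
    simp [FF, mu]
  have χJ : ∀ (J : E m ≃ₗᵢ[ℝ] E m) (x : E m), χ (J x) = χ x := fun J x => by
    simp only [hχ, shell_comp]
  set T2 : E m → ℝ := fun x => T1 x + T1 (refl0 x) with hT2
  have ZT2 : Z T2 := ZT1.add (ZT1.comp refl0)
  obtain T2le : ∀ x, T2 x ≤ -(2 * c ^ 2 * (FF ζ x * x 0 ^ 4)) + 2 * η * (FF ζ x * ‖x‖ ^ 4) +
      2 * C * χ x := by
    intro x
    have h1 := T1le x
    have h2 := T1le (refl0 x)
    rw [FFJ, χJ, LinearIsometryEquiv.norm_map] at h2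
    have h3 := mul_le_mul_of_nonneg_left (E0_refl hs psd x) (FF_nonneg ζ x)
    simp only [hT2]
    linarith only [h1, h2, h3]
  -- third symmetrisation
  have ZT3 : Z (fun x => ∑ i, T2 (swap0 i x)) := Z.sum fun i _ => ZT2.comp (swap0 i)
  obtain T3le : ∀ x, ∑ i, T2 (swap0 i x) ≤
      -(c ^ 2 / n) * shell (2 * ρ) (R / 2) x + 2 * n * C * χ x := by
    clear * - m T2 c ζ η C χ T2le B L Co ρ R a δ W n C1 T1 χJ FFJ hn0 hc A hρ hone hη hndef
    intro x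
    have h1 : ∑ i, T2 (swap0 i x) ≤ ∑ i, (-(2 * c ^ 2 * FF ζ x) * x i ^ 4 +
        (2 * η * (FF ζ x * ‖x‖ ^ 4) + 2 * C * χ x)) := Finset.sum_le_sum fun i _ => by
      have := T2le (swap0 i x)
      rw [FFJ, χJ, LinearIsometryEquiv.norm_map, swap0_apply] at this
      linarith only [this]
    simp only [Finset.sum_add_distrib, ← Finset.mul_sum, Finset.sum_const, Finset.card_univ,
      Fintype.card_fin, nsmul_eq_mul] at h1
    push_cast at h1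
    rw [← hndef] at h1
    obtain h2 : ‖x‖ ^ 4 / n ≤ ∑ i, x i ^ 4 := by
      rw [div_le_iff₀ hn0, mul_comm]; exact norm_four_le x
    have h3 := mul_le_mul_of_nonneg_left h2
      (mul_nonneg (by positivity : 0 ≤ 2 * c ^ 2) (FF_nonneg ζ x))
    obtain h4 : shell (2 * ρ) (R / 2) x ≤ FF ζ x * ‖x‖ ^ 4 := by
      clear * - m ρ R x ζ A hρ hone
      by_cases h : 2 * ρ ≤ ‖x‖ ∧ ‖x‖ ≤ R / 2
      · have hx : x ≠ 0 := norm_pos_iff.1 (by linarith only [hρ, h, h.1])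
        rw [shell_of_mem h.1 h.2, FF, hone _ h.1 h.2, one_pow, one_mul, mu_mul hx]
      · rw [shell, indicator_of_notMem (show ‖x‖ ∉ Icc (2 * ρ) (R / 2) from h)]
        exact mul_nonneg (FF_nonneg ζ x) (by positivity)
    have h5 := mul_le_mul_of_nonneg_left h4 (by positivity : 0 ≤ c ^ 2 / n)
    obtain h6 : n * (2 * η * (FF ζ x * ‖x‖ ^ 4)) = c ^ 2 / n * (FF ζ x * ‖x‖ ^ 4) := by
      rw [hη]; field_simp
    obtain h7 : 2 * c ^ 2 * FF ζ x * (‖x‖ ^ 4 / n) = 2 * (c ^ 2 / n * (FF ζ x * ‖x‖ ^ 4)) := by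
      field_simp
    linarith only [h1, h3, h5, h6, h7]
  have i1 := integrable_shell (m := m) (b := R / 2) (show 0 < 2 * ρ by positivity)
  have i2 := integrable_shell (m := m) (b := 2 * ρ) hρ
  have i3 := integrable_shell (m := m) (b := R) (half_pos hR)
  have fin := integral_mono ZT3.1 ((i1.const_mul (-(c ^ 2 / n))).add
    ((i2.add i3).const_mul (2 * n * C))) T3le
  rw [ZT3.2] at fin
  simp only [Pi.add_apply] at fin
  have i4 : Integrable (fun x : E m => shell ρ (2 * ρ) x + shell (R / 2) R x) := i2.add i3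
  rw [integral_add (i1.const_mul _) (i4.const_mul _), integral_const_mul,
    integral_const_mul, integral_add i2 i3, hsh _ _ (by positivity) (by linarith only [hρR]),
    hsh _ _ hρ (by linarith only [hρ]), hsh _ _ (half_pos hR) (by linarith only [hρ, hρR]),
    show R / 2 / (2 * ρ) = Real.exp A by rw [hρdef]; field_simp; norm_num,
    show 2 * ρ / ρ = 2 by field_simp, show R / (R / 2) = 2 by field_simp, Real.log_exp] at fin
  obtain h8 : -(c ^ 2 / n) * (cc * A) + 2 * n * C * (cc * Real.log 2 + cc * Real.log 2) =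
      -(c ^ 2 / n * cc) := by
    rw [hA]; field_simp; ring
  have h9 : 0 < c ^ 2 / n * cc := by positivity
  linarith only [fin, h8, h9]

end Pool.Agent.Work.MP_a60953_an.Pos
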