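import Pool.Agent.Work.MP_a60953_an.Pos.Lead
import Pool.Agent.Work.MP_a60953_an.Pos.Picone

/-! The differential inequality on the cone when the cubic parts agree. -/

open scoped ContDiff Topology
open Set Filter

noncomputable section

namespace Pool.Agent.Work.MP_a60953_an.Pos

variable {m : ℕ} {f u v : E m → ℝ}

@[simp] lemma pt_pt (x : E m) (s t : ℝ) : pt (pt x s) t = pt x t := by simp [pt]

lemma Jet.quartic (J : Jet f) (h : ∀ x ∈ Om m, 0 ≤ f x) (hk : kap (hess (D 0 f)) = 0) :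
    hess (D 0 f) = 0 ∧ ∃ C : ℝ, 0 ≤ C ∧ ∀ x : E m, 0 ≤ x 0 → ‖x‖ < 1 → f x ≤ C * ‖x‖ ^ 4 := by
  have hz := eq_zero_of_kap J.symm (fun y hy s hs => J.cub_nonneg h hy hs) hk
  obtain ⟨C, C0, hC⟩ := J.cubic
  refine ⟨hz, C, C0, fun x h0 h1 => ?_⟩
  have := (abs_le.1 (hC (pt x 0) (x 0) (by simp) h0 (by simpa using h1))).2
  simpa [hz, cub] using this

theorem Hyp.cone_false (H : Hyp u v) (h2 : D 0 (D 0 u) 0 = 0)
    (hc : 0 < hess (D 0 u) (e 0) (e 0)) (hk : kap (hess (D 0 v)) = kap (hess (D 0 u)))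
    (hpos : ∀ x ∈ Om m, v x < u x) : False := by
  have Ju := H.jet_u h2
  have Jv := H.jet_v h2
  obtain ⟨δ, hδ, pic⟩ := picone Ju.symm (H.psd h2) hc
  obtain ⟨-, C1, c1, hW⟩ := (Ju.sub Jv).quartic (fun x hx => sub_nonneg.2 (H.le x hx))
    (by rw [kap_sub Ju Jv, hk, sub_self])
  obtain ⟨C2, c2, hφ⟩ := taylor2 (contDiff_D H.su 0) H.ut0 Ju.d1
  obtain ⟨C3, c3, hL⟩ := ord_one (f := fun x => D 0 (Lap u) x - kap (hess (D 0 u)))
    ((contDiff_D (contDiff_Lap H.su) 0).sub contDiff_const) (by rw [Ju.kap_eq, sub_self])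
  have hκ := kap_nonneg (H.psd h2)
  set a := hess (D 0 u) with ha
  obtain ⟨B, hB1, hB⟩ := exists_B a
  set c := a (e 0) (e 0) with hcdef
  set ε := δ / (kap a + δ + 1) with hε
  have ε0 : 0 < ε := by positivity
  have εe : ε * (kap a + δ + 1) = δ := by rw [hε]; field_simp
  have ε1 : ε < 1 := by rw [hε, div_lt_one (by positivity)]; linarith
  set θ := ε * δ / (2 * (B + c)) with hθ
  have θ0 : 0 < θ := by positivity
  have θe : (B + c) * θ = ε * δ / 2 := by rw [hθ]; field_simp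
  have ev : ∀ᶠ R : ℝ in 𝓝 0, R < 1 ∧ C1 * R < 1 ∧ C2 * R < ε * δ / 2 ∧ C3 * R < ε ∧
      C1 * R < (1 - ε) * δ * θ := by
    have p1 : 0 < (1 - ε) * δ * θ := by
      have := sub_pos.2 ε1
      positivity
    refine (gt_mem_nhds one_pos).and (Eventually.and ?_ (Eventually.and ?_ (Eventually.and ?_ ?_)))
    · exact ContinuousAt.eventually_lt (by fun_prop) continuousAt_const (by simp)
    · exact ContinuousAt.eventually_lt (by fun_prop) continuousAt_const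
        (by simp only [mul_zero]; positivity)
    · exact ContinuousAt.eventually_lt (by fun_prop) continuousAt_const (by simpa using ε0)
    · exact ContinuousAt.eventually_lt (by fun_prop) continuousAt_const (by simpa using p1)
  obtain ⟨R, ⟨r1, r2, r3, r4, r5⟩, R0⟩ :=
    ((ev.filter_mono (nhdsWithin_le_nhds (s := Ioi 0))).and self_mem_nhdsWithin).exists
  refine pic (fun x => u x - v x) R H.sW R0 (fun x h0 h1 => ⟨?_, ?_⟩) fun x h1 k1 k2 => ?_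
  · exact sub_pos.2 (hpos x (mem_Om_of_norm h0 (by linarith)))
  · refine (hW x h0.le (by linarith)).trans ?_
    have : C1 * ‖x‖ ≤ 1 := (mul_le_mul_of_nonneg_left h1 c1).trans r2.le
    have h3 := mul_le_mul_of_nonneg_right this (by positivity : 0 ≤ ‖x‖ ^ 3)
    calc C1 * ‖x‖ ^ 4 = C1 * ‖x‖ * ‖x‖ ^ 3 := by ring
      _ ≤ 1 * ‖x‖ ^ 3 := h3
      _ = ‖x‖ ^ 3 := one_mul _
  have s0 : 0 < x 0 := (by positivity : 0 ≤ δ * ‖x‖).trans_lt k1
  have sr : x 0 ≤ ‖x‖ := (le_abs_self _).trans (abs_coord_le x 0)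
  have n0 : 0 < ‖x‖ := s0.trans_le sr
  have hO : x ∈ Om m := mem_Om_of_norm s0 (by linarith)
  have p0 : 0 < phi a x := (by positivity : 0 ≤ δ * ‖x‖ ^ 2).trans_lt k2
  obtain ⟨τ, t0, t1, e1, e2⟩ := H.tau hO
  have nξ : ∀ ξ, 0 < ξ → ξ ≤ x 0 → ‖pt x ξ‖ ≤ ‖x‖ := fun ξ h0 h1 =>
    norm_pt_le x (by rw [abs_of_pos h0, abs_of_pos s0]; exact h1)
  have low : ∀ ξ, 0 < ξ → ξ ≤ x 0 → x 0 - θ * ‖x‖ ≤ ξ → (1 - ε) * phi a x ≤ D 0 u (pt x ξ) := by
    intro ξ h0 h3 h4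
    have a1 := (abs_le.1 (hφ (pt x ξ) ((nξ ξ h0 h3).trans (by linarith)))).1
    have a2 := phi_pt Ju.symm (y := pt x 0) (by simp) ξ
    have a3 := phi_pt Ju.symm (y := pt x 0) (by simp) (x 0)
    simp only [pt_pt, pt_self, ← ha, ← hcdef] at a2 a3
    have a4 : a (e 0) (pt x 0) ≤ B * ‖x‖ := (le_abs_self _).trans ((hB _).2.1.trans
      (mul_le_mul_of_nonneg_left (norm_pt_le x (by simp)) (by linarith)))
    have a5 : phi a x - phi a (pt x ξ) = (x 0 - ξ) * (a (e 0) (pt x 0) + (x 0 + ξ) / 2 * c) := by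
      rw [a2, a3]; ring
    have a6 : a (e 0) (pt x 0) + (x 0 + ξ) / 2 * c ≤ (B + c) * ‖x‖ := by
      have := mul_le_mul_of_nonneg_right (show (x 0 + ξ) / 2 ≤ ‖x‖ by linarith) hc.le
      linarith
    have a7 : (x 0 - ξ) * (a (e 0) (pt x 0) + (x 0 + ξ) / 2 * c) ≤ θ * ‖x‖ * ((B + c) * ‖x‖) :=
      (mul_le_mul_of_nonneg_left a6 (by linarith)).trans
        (mul_le_mul_of_nonneg_right (by linarith) (by positivity))
    have a8 : θ * ‖x‖ * ((B + c) * ‖x‖) = ε * δ / 2 * ‖x‖ ^ 2 := by rw [← θe]; ring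
    have a9 : C2 * ‖pt x ξ‖ ^ 3 ≤ ε * δ / 2 * ‖x‖ ^ 2 := by
      have b1 := mul_le_mul_of_nonneg_left (pow_le_pow_left₀ (norm_nonneg _) (nξ ξ h0 h3) 3) c2
      have b2 : C2 * ‖x‖ ≤ ε * δ / 2 := (mul_le_mul_of_nonneg_left h1 c2).trans r3.le
      have b3 := mul_le_mul_of_nonneg_right b2 (sq_nonneg ‖x‖)
      calc C2 * ‖pt x ξ‖ ^ 3 ≤ C2 * ‖x‖ ^ 3 := b1
        _ = C2 * ‖x‖ * ‖x‖ ^ 2 := by ring
        _ ≤ _ := b3
    have a10 := mul_le_mul_of_nonneg_left k2.le ε0.le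
    linarith
  have Wge : ∀ τ', τ ≤ τ' → τ' ≤ x 0 → x 0 - θ * ‖x‖ ≤ τ' →
      (1 - ε) * phi a x * (x 0 - τ') ≤ u x - v x := by
    intro τ' h0 h3 h4
    have a1 := H.mono hO.1 t0.le h0 (by linarith [hO.2.2])
    have a2 := mvt_ge (hasDerivAt_pt H.su x) h3 (μ := (1 - ε) * phi a x)
      fun ξ hξ => low ξ (by linarith [hξ.1]) hξ.2.le (by linarith [hξ.1])
    simp only [pt_self] at a2
    linarith
  have hτ : x 0 - θ * ‖x‖ ≤ τ := by
    by_contra hneg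
    have a1 := Wge (x 0 - θ * ‖x‖) (not_le.1 hneg).le (by linarith [mul_pos θ0 n0]) le_rfl
    have a2 := hW x s0.le (by linarith)
    have a3 : (1 - ε) * (δ * ‖x‖ ^ 2) * (θ * ‖x‖) ≤ (1 - ε) * phi a x * (θ * ‖x‖) :=
      mul_le_mul_of_nonneg_right (mul_le_mul_of_nonneg_left k2.le (by linarith)) (by positivity)
    have a4 : C1 * ‖x‖ < (1 - ε) * δ * θ := (mul_le_mul_of_nonneg_left h1 c1).trans_lt r5
    have a5 := mul_lt_mul_of_pos_right a4 (pow_pos n0 3)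
    have a6 : C1 * ‖x‖ * ‖x‖ ^ 3 = C1 * ‖x‖ ^ 4 := by ring
    have a7 : (1 - ε) * δ * θ * ‖x‖ ^ 3 = (1 - ε) * (δ * ‖x‖ ^ 2) * (θ * ‖x‖) := by ring
    simp only [sub_sub_cancel] at a1
    linarith
  have b1 := Wge τ le_rfl t1 hτ
  have b2 := mvt_le (hasDerivAt_pt (contDiff_Lap H.su) x) t1 (μ := kap a + ε) fun ξ hξ => by
    have d1 := nξ ξ (t0.trans hξ.1) hξ.2.le
    have d2 := (abs_le.1 (hL (pt x ξ) (by linarith))).2
    have d3 : C3 * ‖pt x ξ‖ ≤ C3 * R := mul_le_mul_of_nonneg_left (d1.trans h1) c3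
    simp only [pow_one] at d2
    linarith
  simp only [pt_self] at b2
  rw [Lap_sub H.su H.sv]
  have b3 : Lap u x - Lap v x ≤ (kap a + ε) * (x 0 - τ) := by linarith
  have b4 := mul_le_mul_of_nonneg_right b3 p0.le
  have b5 := mul_le_mul_of_nonneg_left b1 (by positivity : 0 ≤ kap a + δ)
  have b6 : (kap a + δ) * ((1 - ε) * phi a x * (x 0 - τ)) = (kap a + ε) * (x 0 - τ) * phi a x := by
    have : (kap a + δ) * (1 - ε) = kap a + ε := by linarith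
    rw [← this]; ring
  linarith

end Pool.Agent.Work.MP_a60953_an.Pos
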