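import Pool.Agent.Work.MP_a60953_an.Pos.Fields
import Mathlib.Algebra.Order.Chebyshev

/-! Pointwise bounds for the energy densities. -/

open scoped ContDiff Topology
open Set Filter MeasureTheory

noncomputable section

namespace Pool.Agent.Work.MP_a60953_an.Pos

variable {m : ℕ} {a : E m →L[ℝ] E m →L[ℝ] ℝ}

lemma exists_B (a : E m →L[ℝ] E m →L[ℝ] ℝ) : ∃ B : ℝ, 1 ≤ B ∧ ∀ x : E m,
    |phi a x| ≤ B * ‖x‖ ^ 2 ∧ |a (e 0) x| ≤ B * ‖x‖ ∧ |∑ i, a (e i) x ^ 2| ≤ B * ‖x‖ ^ 2 := by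
  have ha := norm_nonneg a
  refine ⟨1 + ‖a‖ + (m + 2 : ℕ) * ‖a‖ ^ 2, by linarith [(by positivity :
    (0 : ℝ) ≤ (m + 2 : ℕ) * ‖a‖ ^ 2)], fun x => ?_⟩
  have h1 : ∀ y z : E m, |a y z| ≤ ‖a‖ * ‖y‖ * ‖z‖ := fun y z => a.le_opNorm₂ y z
  have hx := norm_nonneg x
  have hn : (0 : ℝ) ≤ (m + 2 : ℕ) * ‖a‖ ^ 2 := by positivity
  refine ⟨?_, ?_, ?_⟩
  · have := h1 x x
    rw [phi, abs_div, abs_two]
    nlinarith [abs_nonneg (a x x), mul_nonneg hn (sq_nonneg ‖x‖), sq_nonneg ‖x‖]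
  · have := h1 (e 0) x
    rw [norm_e, mul_one] at this
    nlinarith [mul_nonneg hn hx]
  · rw [abs_of_nonneg (Finset.sum_nonneg fun i _ => sq_nonneg _)]
    have : ∑ i, a (e i) x ^ 2 ≤ ∑ _i : Fin (m + 2), (‖a‖ * ‖x‖) ^ 2 :=
      Finset.sum_le_sum fun i _ => by
        have := h1 (e i) x
        rw [norm_e, mul_one] at this
        exact sq_le_sq' (abs_le.1 this).1 (abs_le.1 this).2
    simp only [Finset.sum_const, Finset.card_univ, Fintype.card_fin, nsmul_eq_mul] at this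
    nlinarith [sq_nonneg ‖x‖, mul_nonneg ha (sq_nonneg ‖x‖)]

lemma sum_grad_sq (δ : ℝ) {x : E m} (hx : x ≠ 0) (p q : ℝ) :
    ∑ i, (((e i : E m) 0 - δ * (x i / ‖x‖)) * p + q * (a (e i) x - δ * (2 * x i))) ^ 2 =
      p ^ 2 * (1 - 2 * δ * (x 0 / ‖x‖) + δ ^ 2) +
        2 * q * p * (a (e 0) x - 2 * δ * x 0 - 2 * δ * (phi a x / ‖x‖) + 2 * δ ^ 2 * ‖x‖) +
        q ^ 2 * (∑ i, a (e i) x ^ 2 - 8 * δ * phi a x + 4 * δ ^ 2 * ‖x‖ ^ 2) := by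
  have hn : ‖x‖ ≠ 0 := norm_ne_zero_iff.2 hx
  have hphi : a x x = 2 * phi a x := by unfold phi; ring
  rw [sum_sq_comb]
  have s1 : ∑ i, ((e i : E m) 0 - δ * (x i / ‖x‖)) ^ 2 = 1 - 2 * δ * (x 0 / ‖x‖) + δ ^ 2 := by
    have : ∀ i, ((e i : E m) 0 - δ * (x i / ‖x‖)) ^ 2 =
        (e i : E m) 0 * ((e i : E m) 0 - 2 * δ * (x i / ‖x‖)) + (δ / ‖x‖) ^ 2 * x i ^ 2 :=
      fun i => by ring
    simp only [this, Finset.sum_add_distrib, sum_e0, ← Finset.mul_sum, ← norm_sq_eq, e_self]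
    field_simp
  have s2 : ∑ i, ((e i : E m) 0 - δ * (x i / ‖x‖)) * (a (e i) x - δ * (2 * x i)) =
      a (e 0) x - 2 * δ * x 0 - 2 * δ * (phi a x / ‖x‖) + 2 * δ ^ 2 * ‖x‖ := by
    have : ∀ i, ((e i : E m) 0 - δ * (x i / ‖x‖)) * (a (e i) x - δ * (2 * x i)) =
        (e i : E m) 0 * (a (e i) x - δ * (2 * x i)) - δ / ‖x‖ * (x i * a (e i) x) +
          2 * δ ^ 2 / ‖x‖ * x i ^ 2 := fun i => by ring
    simp only [this, Finset.sum_add_distrib, Finset.sum_sub_distrib, sum_e0, ← Finset.mul_sum,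
      ← norm_sq_eq, sum_x_a, hphi]
    field_simp
  have s3 : ∑ i, (a (e i) x - δ * (2 * x i)) ^ 2 =
      ∑ i, a (e i) x ^ 2 - 8 * δ * phi a x + 4 * δ ^ 2 * ‖x‖ ^ 2 := by
    have : ∀ i, (a (e i) x - δ * (2 * x i)) ^ 2 =
        a (e i) x ^ 2 - 4 * δ * (x i * a (e i) x) + 4 * δ ^ 2 * x i ^ 2 := fun i => by ring
    simp only [this, Finset.sum_add_distrib, Finset.sum_sub_distrib, ← Finset.mul_sum,
      ← norm_sq_eq, sum_x_a, hphi]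
    ring
  rw [s1, s2, s3]

lemma K0_eq {x : E m} (hx : x ≠ 0) : K0 a x = ‖x‖ ^ 4 * kd (kap a) ((m : ℝ) + 6) 0 (x 0 / ‖x‖)
    (phi a x / ‖x‖ ^ 2) (a (e 0) x / ‖x‖) ((∑ i, a (e i) x ^ 2) / ‖x‖ ^ 2) := by
  have hn : ‖x‖ ≠ 0 := norm_ne_zero_iff.2 hx
  have h := sum_grad_sq (a := a) 0 hx (phi a x) (x 0)
  simp only [zero_mul, sub_zero] at h
  unfold K0 kd h0 h0d
  rw [h]
  field_simp
  ring

lemma kap_nonneg (psd : ∀ x, 0 ≤ a x x) : 0 ≤ kap a := Finset.sum_nonneg fun _ _ => psd _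

lemma phi_nonneg (psd : ∀ x, 0 ≤ a x x) (x : E m) : 0 ≤ phi a x := by
  have := psd x; unfold phi; linarith

lemma exists_cone (psd : ∀ x, 0 ≤ a x x) {η : ℝ} (hη : 0 < η) : ∃ δ : ℝ, 0 < δ ∧
    (∀ x : E m, x ≠ 0 → 0 ≤ x 0 → (x 0 ≤ δ * ‖x‖ ∨ phi a x ≤ δ * ‖x‖ ^ 2) →
      0 ≤ K0 a x + η * ‖x‖ ^ 4) ∧
    ∀ (x : E m) (V h : ℝ), x ≠ 0 → δ * ‖x‖ < x 0 → δ * ‖x‖ ^ 2 < phi a x →
      h = (x 0 - δ * ‖x‖) * (phi a x - δ * ‖x‖ ^ 2) → V * phi a x ≤ kap a + δ →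
      ∑ i, (((e i : E m) 0 - δ * (x i / ‖x‖)) * (phi a x - δ * ‖x‖ ^ 2) +
          (x 0 - δ * ‖x‖) * (a (e i) x - δ * (2 * x i))) ^ 2 +
        h ^ 2 * V - 3 * ((m : ℝ) + 6) * h ^ 2 / ‖x‖ ^ 2 ≤ K0 a x + η * ‖x‖ ^ 4 := by
  obtain ⟨B, hB1, hB⟩ := exists_B a
  obtain ⟨δ, hδ, d1, d2, d3⟩ := exists_delta B (kap a) ((m : ℝ) + 6) hη
  have hκ := kap_nonneg psd
  refine ⟨δ, hδ, fun x hx ht h => ?_, fun x V h hx c1 c2 hh hV => ?_⟩
  · have hn : 0 < ‖x‖ := norm_pos_iff.2 hx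
    have hp := phi_nonneg psd x
    have b1 := (abs_le.1 (hB x).1).2
    have b2 := (abs_le.1 (abs_coord_le x 0)).2
    have s0 : 0 ≤ ∑ i, h0d a i x ^ 2 := Finset.sum_nonneg fun i _ => sq_nonneg _
    have s1 : 0 ≤ kap a * x 0 ^ 2 * phi a x := by positivity
    have s2 : 3 * ((m : ℝ) + 6) * h0 a x ^ 2 / ‖x‖ ^ 2 ≤ η * ‖x‖ ^ 4 := by
      rw [div_le_iff₀ (by positivity)]
      have hN : (0 : ℝ) ≤ 3 * ((m : ℝ) + 6) := by positivity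
      have h00 : 0 ≤ h0 a x := mul_nonneg ht hp
      rcases h with h | h
      · have : h0 a x ≤ δ * ‖x‖ * (B * ‖x‖ ^ 2) := mul_le_mul h b1 hp (by positivity)
        have h2 := mul_le_mul_of_nonneg_left (pow_le_pow_left₀ h00 this 2) hN
        have h3 := mul_le_mul_of_nonneg_right d1 (by positivity : 0 ≤ ‖x‖ ^ 6)
        nlinarith
      · have : h0 a x ≤ ‖x‖ * (δ * ‖x‖ ^ 2) := mul_le_mul b2 h hp hn.le
        have h2 := mul_le_mul_of_nonneg_left (pow_le_pow_left₀ h00 this 2) hN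
        have h3 := mul_le_mul_of_nonneg_right d2 (by positivity : 0 ≤ ‖x‖ ^ 6)
        nlinarith
    unfold K0
    linarith
  · have hn : 0 < ‖x‖ := norm_pos_iff.2 hx
    have p1 : 0 < δ * ‖x‖ := by positivity
    have p2 : 0 < δ * ‖x‖ ^ 2 := by positivity
    have hp : 0 < phi a x := by linarith
    have h1 : 0 ≤ h := by rw [hh]; exact mul_nonneg (by linarith) (by linarith)
    have h2 : h ≤ x 0 * phi a x := by
      rw [hh]; exact mul_le_mul (by linarith) (by linarith) (by linarith) (by linarith)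
    have h3 : h ^ 2 * V ≤ (kap a + δ) * x 0 ^ 2 * phi a x := by
      have a1 : V ≤ (kap a + δ) / phi a x := by rwa [le_div_iff₀ hp]
      have a2 : h ^ 2 * V ≤ h ^ 2 * ((kap a + δ) / phi a x) :=
        mul_le_mul_of_nonneg_left a1 (sq_nonneg h)
      have a3 : h ^ 2 * ((kap a + δ) / phi a x) ≤ (x 0 * phi a x) ^ 2 * ((kap a + δ) / phi a x) :=
        mul_le_mul_of_nonneg_right (pow_le_pow_left₀ h1 h2 2) (by positivity)
      have a4 : (x 0 * phi a x) ^ 2 * ((kap a + δ) / phi a x) =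
          (kap a + δ) * x 0 ^ 2 * phi a x := by field_simp
      linarith
    have key := d3 (x 0 / ‖x‖) (phi a x / ‖x‖ ^ 2) (a (e 0) x / ‖x‖)
      ((∑ i, a (e i) x ^ 2) / ‖x‖ ^ 2)
      (by rw [abs_div, abs_of_pos hn, div_le_iff₀ hn]; nlinarith [abs_coord_le x 0])
      (by rw [abs_div, abs_of_pos (pow_pos hn 2), div_le_iff₀ (pow_pos hn 2)]; exact (hB x).1)
      (by rw [abs_div, abs_of_pos hn, div_le_iff₀ hn]; exact (hB x).2.1)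
      (by rw [abs_div, abs_of_pos (pow_pos hn 2), div_le_iff₀ (pow_pos hn 2)]; exact (hB x).2.2)
    have key2 := mul_le_mul_of_nonneg_left key (by positivity : 0 ≤ ‖x‖ ^ 4)
    rw [mul_add, ← K0_eq hx] at key2
    have e1 : ‖x‖ ^ 4 * kd (kap a) ((m : ℝ) + 6) δ (x 0 / ‖x‖) (phi a x / ‖x‖ ^ 2)
        (a (e 0) x / ‖x‖) ((∑ i, a (e i) x ^ 2) / ‖x‖ ^ 2) =
        ∑ i, (((e i : E m) 0 - δ * (x i / ‖x‖)) * (phi a x - δ * ‖x‖ ^ 2) +
          (x 0 - δ * ‖x‖) * (a (e i) x - δ * (2 * x i))) ^ 2 +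
        (kap a + δ) * x 0 ^ 2 * phi a x - 3 * ((m : ℝ) + 6) * h ^ 2 / ‖x‖ ^ 2 := by
      rw [sum_grad_sq δ hx, hh]
      unfold kd
      field_simp
    linarith

lemma K0_neg (x : E m) : K0 a (-x) = K0 a x := by
  have h1 : phi a (-x) = phi a x := by simp [phi]
  have h2 : ∀ i, h0d a i (-x) = h0d a i x := fun i => by simp [h0d, h1]
  simp [K0, h0, h1, h2]

lemma E0_refl (hs : ∀ x y, a x y = a y x) (psd : ∀ x, 0 ≤ a x x) (x : E m) :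
    2 * a (e 0) (e 0) ^ 2 * x 0 ^ 4 ≤
      2 * a (e 0) x * h0 a x + 2 * a (e 0) (refl0 x) * h0 a (refl0 x) := by
  have q := psd (x - x 0 • e 0)
  have hc := psd (e 0)
  simp only [map_sub, map_smul, sub_apply, smul_apply, smul_eq_mul, hs x (e 0)] at q
  have r0 : refl0 x 0 = x 0 := by rw [refl0_apply]; simp; ring
  have r1 : a (e 0) (refl0 x) = 2 * x 0 * a (e 0) (e 0) - a (e 0) x := by
    rw [refl0_apply]; simp
  have r2 : a (refl0 x) (refl0 x) =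
      4 * x 0 ^ 2 * a (e 0) (e 0) - 4 * x 0 * a (e 0) x + a x x := by
    rw [refl0_apply]
    simp only [map_sub, map_smul, sub_apply, smul_apply, smul_eq_mul, hs x (e 0)]
    ring
  unfold h0 phi
  rw [r0, r1, r2]
  nlinarith [mul_nonneg (mul_nonneg hc (sq_nonneg (x 0))) q,
    sq_nonneg (x 0 * (a (e 0) x - x 0 * a (e 0) (e 0)))]

lemma norm_four_le (x : E m) : ‖x‖ ^ 4 ≤ ((m : ℝ) + 2) * ∑ i, x i ^ 4 := by
  have h := sq_sum_le_card_mul_sum_sq (s := Finset.univ) (f := fun i => x i ^ 2)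
  simp only [Finset.card_univ, Fintype.card_fin, ← pow_mul] at h
  rw [← norm_sq_eq, ← pow_mul] at h
  exact_mod_cast h

end Pool.Agent.Work.MP_a60953_an.Pos
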