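import Mathlib.Analysis.SpecialFunctions.Pow.Real
import Mathlib.Topology.Compactness.Compact
import Mathlib.Topology.Order.Compact

/-! Real-number inequalities for the Picone argument. -/

open scoped Topology
open Set Filter

namespace Pool.Agent.Work.MP_a60953_an.Pos

/-- The perturbed energy density, normalised. -/
def kd (κ N δ T F Γ G : ℝ) : ℝ :=
  (F - δ) ^ 2 * (1 - 2 * δ * T + δ ^ 2) +
    2 * (T - δ) * (F - δ) * (Γ - 2 * δ * T - 2 * δ * F + 2 * δ ^ 2) +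
    (T - δ) ^ 2 * (G - 8 * δ * F + 4 * δ ^ 2) + (κ + δ) * T ^ 2 * F -
    3 * N * ((T - δ) * (F - δ)) ^ 2

lemma exists_delta (B κ N : ℝ) {η : ℝ} (hη : 0 < η) :
    ∃ δ : ℝ, 0 < δ ∧ 3 * N * B ^ 2 * δ ^ 2 ≤ η ∧ 3 * N * δ ^ 2 ≤ η ∧
      ∀ T F Γ G : ℝ, |T| ≤ B → |F| ≤ B → |Γ| ≤ B → |G| ≤ B →
        kd κ N δ T F Γ G ≤ kd κ N 0 T F Γ G + η := by
  have hK : IsCompact (Icc (-B) B ×ˢ Icc (-B) B ×ˢ Icc (-B) B ×ˢ Icc (-B) B) :=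
    isCompact_Icc.prod (isCompact_Icc.prod (isCompact_Icc.prod isCompact_Icc))
  have h1 := hK.eventually_forall_of_forall_eventually (x₀ := (0 : ℝ))
    (P := fun δ z => kd κ N δ z.1 z.2.1 z.2.2.1 z.2.2.2 < kd κ N 0 z.1 z.2.1 z.2.2.1 z.2.2.2 + η)
    (fun z _ => ContinuousAt.eventually_lt (x₀ := ((0 : ℝ), z))
      (f := fun w : ℝ × ℝ × ℝ × ℝ × ℝ => kd κ N w.1 w.2.1 w.2.2.1 w.2.2.2.1 w.2.2.2.2)
      (g := fun w : ℝ × ℝ × ℝ × ℝ × ℝ => kd κ N 0 w.2.1 w.2.2.1 w.2.2.2.1 w.2.2.2.2 + η)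
      (by unfold kd; fun_prop) (by unfold kd; fun_prop) (by simpa using hη))
  have h2 : ∀ᶠ δ : ℝ in 𝓝 0, 3 * N * B ^ 2 * δ ^ 2 < η :=
    ContinuousAt.eventually_lt (by fun_prop) continuousAt_const (by simpa using hη)
  have h3 : ∀ᶠ δ : ℝ in 𝓝 0, 3 * N * δ ^ 2 < η :=
    ContinuousAt.eventually_lt (by fun_prop) continuousAt_const (by simpa using hη)
  obtain ⟨δ, ⟨a1, a2, a3⟩, hδ⟩ := (((h1.and (h2.and h3)).filter_mono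
    (nhdsWithin_le_nhds (s := Ioi 0))).and self_mem_nhdsWithin).exists
  exact ⟨δ, hδ, a2.le, a3.le, fun T F Γ G hT hF hΓ hG =>
    (a1 (T, F, Γ, G) ⟨abs_le.1 hT, abs_le.1 hF, abs_le.1 hΓ, abs_le.1 hG⟩).le⟩

lemma sum_five {ι : Type*} [Fintype ι] (x y w : ι → ℝ) (c1 c2 c3 c4 c5 : ℝ) :
    ∑ i, (c1 * x i ^ 2 + c2 * (x i * y i) + c3 * y i ^ 2 + c4 * w i + c5) =
      c1 * ∑ i, x i ^ 2 + c2 * ∑ i, x i * y i + c3 * ∑ i, y i ^ 2 + c4 * ∑ i, w i +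
        Fintype.card ι * c5 := by
  simp only [Finset.sum_add_distrib, Finset.mul_sum, Finset.sum_const, Finset.card_univ,
    nsmul_eq_mul]

/-- The pointwise Picone inequality. -/
lemma tot_le {ι : Type*} [Fintype ι] (x q y w : ι → ℝ) {r μ ζ ζ' h o N : ℝ} (hr : 0 < r)
    (hμ : 0 ≤ μ) (hN : N = Fintype.card ι + 4) (hx : ∑ i, x i ^ 2 = r ^ 2)
    (hy : ∑ i, x i * y i = 3 * h) :
    ∑ i, ((((-N * (ζ ^ 2 * μ) / r + 2 * μ * ζ * ζ') * (x i / r)) * h ^ 2 +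
        ζ ^ 2 * μ * (2 * h * y i)) * q i + ζ ^ 2 * μ * h ^ 2 * (w i - q i ^ 2)) +
      N * ∑ i, ((((-N * (ζ ^ 2 * μ) / r + 2 * μ * ζ * ζ') * (x i / r)) * h ^ 2 +
        ζ ^ 2 * μ * (2 * h * y i)) * (x i * o / r ^ 2) + ζ ^ 2 * μ * h ^ 2 *
          (o / r ^ 2 + x i * (q i - 3 * x i / r ^ 2) / r ^ 2 - 2 * x i ^ 2 * o / r ^ 4)) ≤
      μ * (ζ' ^ 2 * h ^ 2 + 6 * ζ * ζ' * h ^ 2 / r + 2 * N * o * h ^ 2 * ζ * ζ' / r) +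
        ζ ^ 2 * μ * (∑ i, y i ^ 2 + h ^ 2 * ∑ i, w i - 3 * N * h ^ 2 / r ^ 2) := by
  rw [Finset.mul_sum Finset.univ _ N, ← Finset.sum_add_distrib]
  have hr' := hr.ne'
  refine (Finset.sum_le_sum (g := fun i =>
    (μ * ζ' ^ 2 * h ^ 2 / r ^ 2 + N * ((-N * (ζ ^ 2 * μ) / r + 2 * μ * ζ * ζ') * h ^ 2 * o / r ^ 3 -
      ζ ^ 2 * μ * h ^ 2 * (3 + 2 * o) / r ^ 4)) * x i ^ 2 +
    (2 * μ * ζ * ζ' * h / r + N * (ζ ^ 2 * μ * 2 * h * o / r ^ 2)) * (x i * y i) +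
    μ * ζ ^ 2 * y i ^ 2 + ζ ^ 2 * μ * h ^ 2 * w i + N * (ζ ^ 2 * μ * h ^ 2 * o / r ^ 2))
    fun i _ => ?_).trans (le_of_eq ?_)
  · have hsq := mul_nonneg hμ (sq_nonneg (ζ * h * q i - (ζ' * x i * h / r + ζ * y i)))
    refine le_of_sub_nonneg (le_of_le_of_eq hsq ?_)
    field_simp
    ring
  · rw [sum_five, hx, hy]
    have : (Fintype.card ι : ℝ) = N - 4 := by linarith
    rw [this]
    field_simp
    ring

lemma sum_sq_comb {ι : Type*} [Fintype ι] (α β : ι → ℝ) (p q : ℝ) :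
    ∑ i, (α i * p + q * β i) ^ 2 =
      p ^ 2 * ∑ i, α i ^ 2 + 2 * q * p * ∑ i, α i * β i + q ^ 2 * ∑ i, β i ^ 2 := by
  simp only [Finset.mul_sum, ← Finset.sum_add_distrib]
  exact Finset.sum_congr rfl fun i _ => by ring

end Pool.Agent.Work.MP_a60953_an.Pos
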