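import Pool.Agent.Work.MP_a60953_an.Pos.Integ
import Pool.Agent.Work.MP_a60953_an.Pos.PicAlg

/-! The three vector fields of the Picone argument and their divergences. -/

open scoped ContDiff Topology
open Set Filter MeasureTheory

noncomputable section

namespace Pool.Agent.Work.MP_a60953_an.Pos

variable {m : ℕ} (a : E m →L[ℝ] E m →L[ℝ] ℝ)

/-- The quadratic form. -/
def phi (x : E m) : ℝ := a x x / 2

/-- Its Laplacian. -/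
def kap : ℝ := ∑ i, a (e i) (e i)

/-- The cubic `t φ₀`. -/
def h0 (x : E m) : ℝ := x 0 * phi a x

/-- Its partial derivatives. -/
def h0d (i : Fin (m + 2)) (x : E m) : ℝ := (e i : E m) 0 * phi a x + x 0 * a (e i) x

/-- The unperturbed energy density. -/
def K0 (x : E m) : ℝ :=
  ∑ i, h0d a i x ^ 2 + kap a * x 0 ^ 2 * phi a x - 3 * ((m : ℝ) + 6) * h0 a x ^ 2 / ‖x‖ ^ 2

/-- The weight `|x|^(-(n+4))`. -/
def mu (x : E m) : ℝ := (‖x‖ ^ (m + 6))⁻¹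

/-- The weight with cutoff. -/
def FF (ζ : ℝ → ℝ) (x : E m) : ℝ := ζ ‖x‖ ^ 2 * mu x

/-- The test function. -/
def Psi (δ : ℝ) (ζ : ℝ → ℝ) (x : E m) : ℝ :=
  FF ζ x * (pp (x 0 - δ * ‖x‖) * pp (phi a x - δ * ‖x‖ ^ 2))

/-- `log (W / r^3)`. -/
def om (W : E m → ℝ) (x : E m) : ℝ := Real.log (W x) - 3 * Real.log ‖x‖

/-- First field. -/
def f1 (δ : ℝ) (ζ : ℝ → ℝ) (W : E m → ℝ) (i : Fin (m + 2)) (x : E m) : ℝ :=
  Psi a δ ζ x * (D i W x * (W x)⁻¹)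

/-- Second field. -/
def f2 (δ : ℝ) (ζ : ℝ → ℝ) (W : E m → ℝ) (i : Fin (m + 2)) (x : E m) : ℝ :=
  Psi a δ ζ x * (x i * om W x * (‖x‖ ^ 2)⁻¹)

/-- Third field. -/
def f3 (ζ : ℝ → ℝ) (i : Fin (m + 2)) (x : E m) : ℝ := FF ζ x * (h0 a x * h0d a i x)

/-- The divergence of the first two fields. -/
def tot (δ : ℝ) (ζ : ℝ → ℝ) (W : E m → ℝ) (x : E m) : ℝ :=
  ∑ i, D i (f1 a δ ζ W i) x + ((m : ℝ) + 6) * ∑ i, D i (f2 a δ ζ W i) x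

lemma mu_nonneg (x : E m) : 0 ≤ mu x := by unfold mu; positivity

lemma FF_nonneg (ζ : ℝ → ℝ) (x : E m) : 0 ≤ FF ζ x := mul_nonneg (sq_nonneg _) (mu_nonneg x)

lemma contDiff_phi {n : WithTop ℕ∞} : ContDiff ℝ n (phi a) :=
  (a.contDiff.clm_apply contDiff_id).div_const 2

lemma sum_x_a (x z : E m) : ∑ i, x i * a (e i) z = a x z := by
  simpa using (clm_sum (a.flip z) x).symm

variable {a}

lemma P_phi (hs : ∀ x y, a x y = a y x) (i : Fin (m + 2)) (x : E m) :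
    P i (phi a) x (a (e i) x) := by
  have e1 : (fun τ : ℝ => phi a (x + τ • e i)) =
      fun τ => a x x / 2 + τ * a (e i) x + τ ^ 2 * (a (e i) (e i) / 2) := by
    funext τ
    simp only [phi, map_add, map_smul, add_apply,
      smul_apply, smul_eq_mul, hs x (e i)]
    ring
  unfold P
  rw [e1]
  have := (((hasDerivAt_id (0 : ℝ)).mul_const (a (e i) x)).const_add (a x x / 2)).fun_add
    ((hasDerivAt_pow 2 (0 : ℝ)).mul_const (a (e i) (e i) / 2))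
  simpa using this

lemma P_h0 (hs : ∀ x y, a x y = a y x) (i : Fin (m + 2)) (x : E m) :
    P i (h0 a) x (h0d a i x) := (P.coord 0).mul (P_phi hs i x)

lemma P_h0d (hs : ∀ x y, a x y = a y x) (i : Fin (m + 2)) (x : E m) :
    P i (h0d a i) x (2 * ((e i : E m) 0 * a (e i) x) + x 0 * a (e i) (e i)) :=
  (((P_phi hs i x).const_mul ((e i : E m) 0)).add
    ((P.coord 0).mul (P.clm (a (e i))))).congr (by ring)

lemma sum_e0 (c : Fin (m + 2) → ℝ) : ∑ i, (e i : E m) 0 * c i = c 0 := by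
  simp [e_apply]

lemma sum_x_h0d (x : E m) : ∑ i, x i * h0d a i x = 3 * h0 a x := by
  have : ∀ i, x i * h0d a i x = (e i : E m) 0 * (x i * phi a x) + x 0 * (x i * a (e i) x) :=
    fun i => by unfold h0d; ring
  simp only [this, Finset.sum_add_distrib, sum_e0, ← Finset.mul_sum, sum_x_a]
  unfold h0 phi
  ring

lemma contDiffAt_FF {ζ : ℝ → ℝ} (hζ : ContDiff ℝ ∞ ζ) {x : E m} (hx : x ≠ 0) :
    ContDiffAt ℝ 1 (FF (m := m) ζ) x := by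
  have hn : ContDiffAt ℝ 1 (fun z : E m => ‖z‖) x := contDiffAt_norm ℝ hx
  exact (((hζ.of_le one_le_infty).contDiffAt.comp x hn).pow 2).mul
    ((hn.pow _).inv (pow_ne_zero _ (norm_ne_zero_iff.2 hx)))

lemma P_FF {ζ : ℝ → ℝ} {ζ' : ℝ} {x : E m} (hx : x ≠ 0) (hζ : HasDerivAt ζ ζ' ‖x‖)
    (i : Fin (m + 2)) :
    P i (FF ζ) x ((-((m : ℝ) + 6) * (ζ ‖x‖ ^ 2 * mu x) / ‖x‖ + 2 * mu x * ζ ‖x‖ * ζ') *
      (x i / ‖x‖)) := by
  have hn : ‖x‖ ≠ 0 := norm_ne_zero_iff.2 hx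
  have h1 := (hζ.fun_pow 2).fun_mul ((hasDerivAt_pow (m + 6) ‖x‖).fun_inv (pow_ne_zero _ hn))
  refine (P.comp (f := fun z : E m => ‖z‖) (φ := fun r => ζ r ^ 2 * (r ^ (m + 6))⁻¹) h1
    (P.norm hx)).congr ?_
  congr 1
  unfold mu
  rw [show m + 6 - 1 = m + 5 from rfl]
  push_cast
  field_simp
  ring

lemma contDiffAt_f3 {ζ : ℝ → ℝ} (hζ : ContDiff ℝ ∞ ζ) (i : Fin (m + 2)) {x : E m} (hx : x ≠ 0) :
    ContDiffAt ℝ 1 (f3 a ζ i) x :=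
  (contDiffAt_FF hζ hx).mul (((contDiff_coord 0).mul (contDiff_phi a)).mul
    ((contDiff_const.mul (contDiff_phi a)).add
      ((contDiff_coord 0).mul (a (e i)).contDiff))).contDiffAt

lemma div_f3 (hs : ∀ x y, a x y = a y x) {ζ : ℝ → ℝ} (hζ : ContDiff ℝ ∞ ζ) {ζ' : ℝ} {x : E m}
    (hx : x ≠ 0) (hd : HasDerivAt ζ ζ' ‖x‖) :
    ∑ i, D i (f3 a ζ i) x = FF ζ x * K0 a x + FF ζ x * (2 * a (e 0) x * h0 a x) +
      6 * mu x * ζ ‖x‖ * ζ' * h0 a x ^ 2 / ‖x‖ := by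
  have hn : ‖x‖ ≠ 0 := norm_ne_zero_iff.2 hx
  have h : ∀ i, D i (f3 a ζ i) x =
      ((-((m : ℝ) + 6) * (ζ ‖x‖ ^ 2 * mu x) / ‖x‖ + 2 * mu x * ζ ‖x‖ * ζ') / ‖x‖ * h0 a x) *
        (x i * h0d a i x) + FF ζ x * h0d a i x ^ 2 +
        (FF ζ x * h0 a x * 2) * ((e i : E m) 0 * a (e i) x) +
        (FF ζ x * h0 a x * x 0) * a (e i) (e i) := fun i => by
    refine P.D_eq ?_ ((contDiffAt_f3 hζ i hx).differentiableAt one_ne_zero)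
    exact ((P_FF hx hd i).mul ((P_h0 hs i x).mul (P_h0d hs i x))).congr (by ring)
  simp only [h, Finset.sum_add_distrib, ← Finset.mul_sum, sum_x_h0d, sum_e0]
  unfold K0 kap FF
  simp only [h0]
  field_simp
  ring

lemma contDiffAt_Psi {δ : ℝ} {ζ : ℝ → ℝ} (hζ : ContDiff ℝ ∞ ζ) {x : E m} (hx : x ≠ 0) :
    ContDiffAt ℝ 1 (Psi a δ ζ) x := by
  have hn : ContDiffAt ℝ 1 (fun z : E m => ‖z‖) x := contDiffAt_norm ℝ hx
  exact (contDiffAt_FF hζ hx).mul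
    ((contDiff_pp.contDiffAt.comp x ((contDiff_coord 0).contDiffAt.sub
      (contDiffAt_const.mul hn))).mul
    (contDiff_pp.contDiffAt.comp x ((contDiff_phi a).contDiffAt.sub
      (contDiffAt_const.mul (hn.pow 2)))))

lemma contDiffAt_f1 {δ : ℝ} {ζ : ℝ → ℝ} (hζ : ContDiff ℝ ∞ ζ) {W : E m → ℝ}
    (hW : ContDiff ℝ ∞ W) (i : Fin (m + 2)) {x : E m} (hx : x ≠ 0) (hWx : W x ≠ 0) :
    ContDiffAt ℝ 1 (f1 a δ ζ W i) x :=
  (contDiffAt_Psi hζ hx).mul (((contDiff_D hW i).of_le one_le_infty).contDiffAt.mul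
    ((hW.of_le one_le_infty).contDiffAt.inv hWx))

lemma contDiffAt_f2 {δ : ℝ} {ζ : ℝ → ℝ} (hζ : ContDiff ℝ ∞ ζ) {W : E m → ℝ}
    (hW : ContDiff ℝ ∞ W) (i : Fin (m + 2)) {x : E m} (hx : x ≠ 0) (hWx : W x ≠ 0) :
    ContDiffAt ℝ 1 (f2 a δ ζ W i) x := by
  have hn : ContDiffAt ℝ 1 (fun z : E m => ‖z‖) x := contDiffAt_norm ℝ hx
  have hn0 : ‖x‖ ≠ 0 := norm_ne_zero_iff.2 hx
  exact (contDiffAt_Psi hζ hx).mul (((contDiff_coord i).contDiffAt.mul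
    (((hW.of_le one_le_infty).contDiffAt.log hWx).sub
      (contDiffAt_const.mul (hn.log hn0)))).mul ((hn.pow 2).inv (pow_ne_zero 2 hn0)))

lemma P_q {W : E m → ℝ} (hW : ContDiff ℝ ∞ W) (i : Fin (m + 2)) {x : E m} (hWx : W x ≠ 0) :
    P i (fun z => D i W z * (W z)⁻¹) x
      (D i (D i W) x * (W x)⁻¹ - (D i W x * (W x)⁻¹) ^ 2) := by
  refine ((P_D (contDiff_D hW i) i x).mul
    (P.comp (φ := fun y => y⁻¹) (hasDerivAt_inv hWx) (P_D hW i x))).congr ?_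
  field_simp
  ring

lemma P_w2 {W : E m → ℝ} (hW : ContDiff ℝ ∞ W) (i : Fin (m + 2)) {x : E m} (hx : x ≠ 0)
    (hWx : W x ≠ 0) :
    P i (fun z => z i * om W z * (‖z‖ ^ 2)⁻¹) x
      (om W x / ‖x‖ ^ 2 + x i * (D i W x * (W x)⁻¹ - 3 * x i / ‖x‖ ^ 2) / ‖x‖ ^ 2 -
        2 * x i ^ 2 * om W x / ‖x‖ ^ 4) := by
  have hn : ‖x‖ ≠ 0 := norm_ne_zero_iff.2 hx
  have h1 : P i (om W) x ((W x)⁻¹ * D i W x - 3 * (‖x‖⁻¹ * (x i / ‖x‖))) :=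
    (P.comp (Real.hasDerivAt_log hWx) (P_D hW i x)).sub
      ((P.comp (f := fun z : E m => ‖z‖) (Real.hasDerivAt_log hn) (P.norm hx)).const_mul 3)
  refine (((P.coord i).mul h1).mul (P.comp (f := fun z : E m => ‖z‖ ^ 2) (φ := fun y => y⁻¹)
    (hasDerivAt_inv (pow_ne_zero 2 hn)) P.normSq)).congr ?_
  rw [e_self]
  field_simp
  ring

lemma P_Psi (hs : ∀ x y, a x y = a y x) {δ : ℝ} {ζ : ℝ → ℝ} {ζ' : ℝ} {x : E m} (hx : x ≠ 0)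
    (hd : HasDerivAt ζ ζ' ‖x‖) (i : Fin (m + 2)) :
    P i (Psi a δ ζ) x
      ((-((m : ℝ) + 6) * (ζ ‖x‖ ^ 2 * mu x) / ‖x‖ + 2 * mu x * ζ ‖x‖ * ζ') * (x i / ‖x‖) *
        (max (x 0 - δ * ‖x‖) 0 * max (phi a x - δ * ‖x‖ ^ 2) 0) ^ 2 +
      ζ ‖x‖ ^ 2 * mu x * (2 * (max (x 0 - δ * ‖x‖) 0 * max (phi a x - δ * ‖x‖ ^ 2) 0) *
        (((e i : E m) 0 - δ * (x i / ‖x‖)) * max (phi a x - δ * ‖x‖ ^ 2) 0 +
          max (x 0 - δ * ‖x‖) 0 * (a (e i) x - δ * (2 * x i))))) := by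
  have h1 := P.comp (f := fun z : E m => z 0 - δ * ‖z‖) (x := x) (hasDerivAt_pp _)
    ((P.coord (i := i) 0).sub ((P.norm hx).const_mul δ))
  have h2 := P.comp (f := fun z : E m => phi a z - δ * ‖z‖ ^ 2) (x := x) (hasDerivAt_pp _)
    ((P_phi hs i x).sub (P.normSq.const_mul δ))
  refine ((P_FF hx hd i).mul (h1.mul h2)).congr ?_
  simp only [pp, FF]
  ring

lemma Psi_eq (δ : ℝ) (ζ : ℝ → ℝ) (x : E m) : Psi a δ ζ x =
    ζ ‖x‖ ^ 2 * mu x * (max (x 0 - δ * ‖x‖) 0 * max (phi a x - δ * ‖x‖ ^ 2) 0) ^ 2 := by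
  simp only [Psi, pp, FF]
  ring

lemma tot_eq_zero (hs : ∀ x y, a x y = a y x) {δ : ℝ} {ζ : ℝ → ℝ} (hζ : ContDiff ℝ ∞ ζ)
    {W : E m → ℝ} (hW : ContDiff ℝ ∞ W) {x : E m} (hx : x ≠ 0) (hWx : W x ≠ 0)
    (h : x 0 ≤ δ * ‖x‖ ∨ phi a x ≤ δ * ‖x‖ ^ 2) : tot a δ ζ W x = 0 := by
  have hd := (hζ.differentiable (by simp) ‖x‖).hasDerivAt
  have hz : max (x 0 - δ * ‖x‖) 0 * max (phi a x - δ * ‖x‖ ^ 2) 0 = 0 := by
    rcases h with h | h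
    · rw [max_eq_right (sub_nonpos.2 h), zero_mul]
    · rw [max_eq_right (sub_nonpos.2 h), mul_zero]
  have h1 : ∀ i, D i (f1 a δ ζ W i) x = 0 := fun i => by
    refine P.D_eq ?_ ((contDiffAt_f1 hζ hW i hx hWx).differentiableAt one_ne_zero)
    exact ((P_Psi hs hx hd i).mul (P_q hW i hWx)).congr (by rw [Psi_eq, hz]; ring)
  have h2 : ∀ i, D i (f2 a δ ζ W i) x = 0 := fun i => by
    refine P.D_eq ?_ ((contDiffAt_f2 hζ hW i hx hWx).differentiableAt one_ne_zero)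
    exact ((P_Psi hs hx hd i).mul (P_w2 hW i hx hWx)).congr (by rw [Psi_eq, hz]; ring)
  simp [tot, h1, h2]

lemma tot_le_cone (hs : ∀ x y, a x y = a y x) {δ : ℝ} {ζ : ℝ → ℝ} (hζ : ContDiff ℝ ∞ ζ) {ζ' : ℝ}
    {W : E m → ℝ} (hW : ContDiff ℝ ∞ W) {x : E m} (hx : x ≠ 0) (hWx : W x ≠ 0)
    (hd : HasDerivAt ζ ζ' ‖x‖) (c1 : δ * ‖x‖ < x 0) (c2 : δ * ‖x‖ ^ 2 < phi a x) {h : ℝ}
    (hh : h = (x 0 - δ * ‖x‖) * (phi a x - δ * ‖x‖ ^ 2)) :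
    tot a δ ζ W x ≤ mu x * (ζ' ^ 2 * h ^ 2 + 6 * ζ ‖x‖ * ζ' * h ^ 2 / ‖x‖ +
        2 * ((m : ℝ) + 6) * om W x * h ^ 2 * ζ ‖x‖ * ζ' / ‖x‖) +
      FF ζ x * (∑ i, (((e i : E m) 0 - δ * (x i / ‖x‖)) * (phi a x - δ * ‖x‖ ^ 2) +
          (x 0 - δ * ‖x‖) * (a (e i) x - δ * (2 * x i))) ^ 2 +
        h ^ 2 * (Lap W x * (W x)⁻¹) - 3 * ((m : ℝ) + 6) * h ^ 2 / ‖x‖ ^ 2) := by
  have hn : 0 < ‖x‖ := norm_pos_iff.2 hx
  have m1 := max_eq_left (sub_pos.2 c1).le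
  have m2 := max_eq_left (sub_pos.2 c2).le
  have key := tot_le (fun i => x i) (fun i => D i W x * (W x)⁻¹)
    (fun i => ((e i : E m) 0 - δ * (x i / ‖x‖)) * (phi a x - δ * ‖x‖ ^ 2) +
      (x 0 - δ * ‖x‖) * (a (e i) x - δ * (2 * x i)))
    (fun i => D i (D i W) x * (W x)⁻¹) (r := ‖x‖) (μ := mu x) (ζ := ζ ‖x‖) (ζ' := ζ') (h := h)
    (o := om W x) (N := (m : ℝ) + 6) hn (mu_nonneg x) (by simp; ring) (norm_sq_eq x).symm ?_
  · refine le_of_eq_of_le ?_ (key.trans (le_of_eq ?_))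
    · unfold tot
      congr 1
      · refine Finset.sum_congr rfl fun i _ => ?_
        refine P.D_eq ?_ ((contDiffAt_f1 hζ hW i hx hWx).differentiableAt one_ne_zero)
        exact ((P_Psi hs hx hd i).mul (P_q hW i hWx)).congr (by rw [Psi_eq, m1, m2, ← hh])
      · congr 1
        refine Finset.sum_congr rfl fun i _ => ?_
        refine P.D_eq ?_ ((contDiffAt_f2 hζ hW i hx hWx).differentiableAt one_ne_zero)
        exact ((P_Psi hs hx hd i).mul (P_w2 hW i hx hWx)).congr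
          (by rw [Psi_eq, m1, m2, ← hh]; ring)
    · rw [← Finset.sum_mul]
      rfl
  · have : ∀ i, x i * (((e i : E m) 0 - δ * (x i / ‖x‖)) * (phi a x - δ * ‖x‖ ^ 2) +
        (x 0 - δ * ‖x‖) * (a (e i) x - δ * (2 * x i))) =
        (phi a x - δ * ‖x‖ ^ 2) * ((e i : E m) 0 * x i) + (x 0 - δ * ‖x‖) * (x i * a (e i) x) -
          (δ / ‖x‖ * (phi a x - δ * ‖x‖ ^ 2) + 2 * δ * (x 0 - δ * ‖x‖)) * x i ^ 2 :=
      fun i => by ring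
    simp only [this, Finset.sum_add_distrib, Finset.sum_sub_distrib, ← Finset.mul_sum, sum_e0,
      sum_x_a, ← norm_sq_eq]
    rw [hh, show a x x = 2 * phi a x by unfold phi; ring]
    field_simp
    ring

end Pool.Agent.Work.MP_a60953_an.Pos
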