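import Pool.Agent.Work.MP_a60953_an.Pos.Basic
import Mathlib.Analysis.SpecialFunctions.ExpDeriv
import Mathlib.Analysis.Convex.PathConnected

/-! The hypotheses, the level map, barriers and the strong maximum principle. -/

open scoped ContDiff Topology
open Set Filter

noncomputable section

namespace Pool.Agent.Work.MP_a60953_an.Pos

variable {m : ℕ}

/-- `|y|^2`. -/
def rho (x : E m) : ℝ := ∑ j : Fin (m + 1), x j.succ ^ 2

/-- The cylinder. -/
def Om (m : ℕ) : Set (E m) := {x | rho x < 1 ∧ 0 < x 0 ∧ x 0 < 1}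

/-- The point with the same `y` and height `τ`. -/
def pt (x : E m) (τ : ℝ) : E m := (x - x 0 • e 0) + τ • e 0

@[simp] lemma pt_zero (x : E m) (τ : ℝ) : pt x τ 0 = τ := by simp [pt]

@[simp] lemma pt_succ (x : E m) (τ : ℝ) (j : Fin (m + 1)) : pt x τ j.succ = x j.succ := by
  simp [pt, e_ne (Fin.succ_ne_zero j)]

@[simp] lemma pt_self (x : E m) : pt x (x 0) = x := by simp [pt]

@[simp] lemma rho_pt (x : E m) (τ : ℝ) : rho (pt x τ) = rho x := by simp [rho]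

lemma rho_nonneg (x : E m) : 0 ≤ rho x := Finset.sum_nonneg fun _ _ => sq_nonneg _

lemma norm_sq_split (x : E m) : ‖x‖ ^ 2 = x 0 ^ 2 + rho x := by
  rw [norm_sq_eq, Fin.sum_univ_succ, rho]

lemma norm_pt_le (x : E m) {τ : ℝ} (h : |τ| ≤ |x 0|) : ‖pt x τ‖ ≤ ‖x‖ := by
  refine abs_le_of_sq_le_sq' ?_ (norm_nonneg x) |>.2
  rw [norm_sq_split, norm_sq_split, pt_zero, rho_pt]
  linarith [sq_le_sq.2 h]

lemma continuous_rho : Continuous (rho (m := m)) :=
  continuous_finsetSum _ fun j _ => ((contDiff_coord (n := 0) j.succ).continuous).pow 2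

lemma continuous_coord (i : Fin (m + 2)) : Continuous fun x : E m => x i :=
  (contDiff_coord (n := 0) i).continuous

lemma pt_mem {x : E m} (hx : rho x < 1) {τ : ℝ} (h0 : 0 < τ) (h1 : τ < 1) : pt x τ ∈ Om m :=
  ⟨by simpa using hx, by simpa using h0, by simpa using h1⟩

lemma mem_Om_of_norm {x : E m} (h0 : 0 < x 0) (h1 : ‖x‖ < 1) : x ∈ Om m := by
  have := norm_sq_split x
  have h2 : ‖x‖ ^ 2 < 1 := by nlinarith [norm_nonneg x]
  exact ⟨by nlinarith [sq_nonneg (x 0)], h0, ((le_abs_self _).trans (abs_coord_le x 0)).trans_lt h1⟩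

lemma rho_lt_of_norm {x : E m} (h1 : ‖x‖ < 1) : rho x < 1 := by
  have := norm_sq_split x
  nlinarith [norm_nonneg x, sq_nonneg (x 0)]

lemma norm_le_two {x : E m} (hx : x ∈ Om m) : ‖x‖ ≤ 2 := by
  refine abs_le_of_sq_le_sq' ?_ (by norm_num) |>.2
  rw [norm_sq_split]
  nlinarith [hx.1, hx.2.1, hx.2.2]

lemma hasDerivAt_pt {f : E m → ℝ} (hf : ContDiff ℝ ∞ f) (x : E m) (τ : ℝ) :
    HasDerivAt (fun σ => f (pt x σ)) (D 0 f (pt x τ)) τ := hasDerivAt_D hf _ 0 τ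

lemma mvt_ge {g g' : ℝ → ℝ} (hg : ∀ τ, HasDerivAt g (g' τ) τ) {α β μ : ℝ} (h : α ≤ β)
    (hμ : ∀ ξ ∈ Ioo α β, μ ≤ g' ξ) : μ * (β - α) ≤ g β - g α := by
  rcases h.eq_or_lt with rfl | h
  · simp
  obtain ⟨ξ, hξ, e1⟩ := exists_hasDerivAt_eq_slope g g' h
    (fun τ _ => (hg τ).continuousAt.continuousWithinAt) (fun τ _ => hg τ)
  have := hμ ξ hξ
  rwa [e1, le_div_iff₀ (sub_pos.2 h)] at this

lemma mvt_le {g g' : ℝ → ℝ} (hg : ∀ τ, HasDerivAt g (g' τ) τ) {α β μ : ℝ} (h : α ≤ β)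
    (hμ : ∀ ξ ∈ Ioo α β, g' ξ ≤ μ) : g β - g α ≤ μ * (β - α) := by
  have := mvt_ge (g := fun τ => -g τ) (g' := fun τ => -g' τ) (fun τ => (hg τ).fun_neg) h
    (μ := -μ) fun ξ hξ => neg_le_neg (hμ ξ hξ)
  linarith

/-- Inequalities on the cylinder extend to its bottom. -/
lemma nonneg_bottom {f : E m → ℝ} (hf : Continuous f) (h : ∀ x ∈ Om m, 0 ≤ f x) {x : E m}
    (h0 : x 0 = 0) (h1 : rho x < 1) : 0 ≤ f x := by
  have hc : Continuous fun τ : ℝ => f (pt x τ) := hf.comp (by unfold pt; fun_prop)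
  have ht : Tendsto (fun τ : ℝ => f (pt x τ)) (𝓝[>] 0) (𝓝 (f x)) := by
    have := hc.tendsto 0
    rw [show pt x 0 = x by rw [← h0, pt_self]] at this
    exact this.mono_left nhdsWithin_le_nhds
  refine ge_of_tendsto ht ?_
  filter_upwards [Ioo_mem_nhdsGT (zero_lt_one' ℝ)] with τ hτ using h _ (pt_mem h1 hτ.1 hτ.2)

/-- Conditions 1 to 4 and `u_t(0) = 0`. -/
structure Hyp (u v : E m → ℝ) : Prop where
  su : ContDiff ℝ ∞ u
  sv : ContDiff ℝ ∞ v
  le : ∀ x ∈ Om m, v x ≤ u x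
  vpos : ∀ x ∈ Om m, 0 < v x
  ut : ∀ x ∈ Om m, 0 < D 0 u x
  bd : ∀ x, x 0 = 0 → rho x < 1 → u x = 0
  cmp : ∀ x ∈ Om m, ∀ τ, 0 < τ → τ ≤ x 0 → u (pt x τ) = v x → Lap u (pt x τ) ≤ Lap v x
  ut0 : D 0 u 0 = 0

variable {u v : E m → ℝ}

lemma Hyp.mono (H : Hyp u v) {x : E m} (hx : rho x < 1) {α β : ℝ} (h0 : 0 ≤ α) (h : α ≤ β)
    (h1 : β ≤ 1) : u (pt x α) ≤ u (pt x β) := by
  have := mvt_ge (hasDerivAt_pt H.su x) h (μ := 0)
    fun ξ hξ => (H.ut _ (pt_mem hx (h0.trans_lt hξ.1) (hξ.2.trans_le h1))).le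
  linarith

lemma Hyp.tau (H : Hyp u v) {x : E m} (hx : x ∈ Om m) :
    ∃ τ, 0 < τ ∧ τ ≤ x 0 ∧ u (pt x τ) = v x ∧ Lap u (pt x τ) ≤ Lap v x := by
  have hc : Continuous fun τ : ℝ => u (pt x τ) := H.su.continuous.comp (by unfold pt; fun_prop)
  have h0 : u (pt x 0) = 0 := H.bd _ (by simp) (by simpa using hx.1)
  obtain ⟨τ, hτ, e1⟩ := intermediate_value_Icc hx.2.1.le hc.continuousOn
    (show v x ∈ Icc (u (pt x 0)) (u (pt x (x 0))) from
      ⟨by rw [h0]; exact (H.vpos x hx).le, by simpa using H.le x hx⟩)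
  have hpos : 0 < τ := lt_of_le_of_ne hτ.1 fun h => by
    have := H.vpos x hx
    rw [← e1, ← h] at this
    exact this.ne' h0
  exact ⟨τ, hpos, hτ.2, e1, H.cmp x hx τ hpos hτ.2 e1⟩

lemma Hyp.sW (H : Hyp u v) : ContDiff ℝ ∞ fun x => u x - v x := H.su.sub H.sv

/-- A lower bound for `u_t` on the upper half of the segment bounds `u - v` from below. -/
lemma Hyp.W_ge (H : Hyp u v) {x : E m} (hx : x ∈ Om m) {τ μ : ℝ} (h0 : 0 < τ) (h1 : τ ≤ x 0)
    (e1 : u (pt x τ) = v x) (hμ0 : 0 ≤ μ) (hμ : ∀ ξ ∈ Icc (x 0 / 2) (x 0), μ ≤ D 0 u (pt x ξ)) :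
    μ * (x 0 - τ) ≤ 2 * (u x - v x) := by
  have hs := hx.2.1
  have a1 := H.mono hx.1 h0.le (le_max_left τ (x 0 / 2)) (max_le (by linarith [hx.2.2])
    (by linarith [hx.2.2]))
  have a2 := mvt_ge (hasDerivAt_pt H.su x) (α := max τ (x 0 / 2)) (β := x 0) (μ := μ)
    (max_le h1 (by linarith)) fun ξ hξ => hμ ξ ⟨((le_max_right _ _).trans_lt hξ.1).le, hξ.2.le⟩
  have a3 : x 0 - τ ≤ 2 * (x 0 - max τ (x 0 / 2)) := by
    rcases le_total τ (x 0 / 2) with h | h
    · rw [max_eq_right h]; linarith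
    · rw [max_eq_left h]; linarith
  have a4 := mul_le_mul_of_nonneg_left a3 hμ0
  simp only [pt_self] at a2
  linarith

lemma Hyp.exists_M (H : Hyp u v) : ∃ M : ℝ, 0 ≤ M ∧ ∀ x ∈ Om m, ∀ τ, 0 < τ → τ ≤ x 0 →
    Lap u (pt x τ) ≤ Lap v x → Lap (fun z => u z - v z) x ≤ M * (x 0 - τ) := by
  obtain ⟨M, hM⟩ := (isCompact_closedBall (0 : E m) 2).exists_bound_of_continuousOn
    (contDiff_D (contDiff_Lap H.su) 0).continuous.continuousOn
  refine ⟨M, (norm_nonneg _).trans (hM 0 (by simp)), fun x hx τ h0 h1 h2 => ?_⟩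
  have := mvt_le (hasDerivAt_pt (contDiff_Lap H.su) x) h1 (μ := M) fun ξ hξ =>
    (le_abs_self _).trans (hM _ (by
      simpa using norm_le_two (pt_mem hx.1 (h0.trans hξ.1) (hξ.2.trans hx.2.2))))
  rw [Lap_sub H.su H.sv]
  simp only [pt_self] at this
  linarith

lemma Hyp.loc (H : Hyp u v) {K : Set (E m)} (hK : IsCompact K) (hKO : K ⊆ Om m) :
    ∃ C : ℝ, 0 ≤ C ∧ ∀ x ∈ K, Lap (fun z => u z - v z) x ≤ C * (u x - v x) := by
  obtain ⟨M, hM0, hM⟩ := H.exists_M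
  rcases K.eq_empty_or_nonempty with rfl | hne
  · exact ⟨0, le_rfl, by simp⟩
  have hc : Continuous fun z : E m × ℝ => D 0 u (pt z.1 (z.2 * z.1 0)) :=
    (contDiff_D H.su 0).continuous.comp (by unfold pt; fun_prop)
  obtain ⟨z, hz, hmin⟩ := (hK.prod (isCompact_Icc (a := (1 / 2 : ℝ)) (b := 1))).exists_isMinOn
    (hne.prod ⟨1, by norm_num, le_rfl⟩) hc.continuousOn
  have hz1 := hKO hz.1
  have hμ : 0 < D 0 u (pt z.1 (z.2 * z.1 0)) := H.ut _ (pt_mem hz1.1
    (mul_pos (by linarith [hz.2.1]) hz1.2.1) (by nlinarith [hz.2.2, hz1.2.1, hz1.2.2]))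
  set μ := D 0 u (pt z.1 (z.2 * z.1 0)) with hμdef
  refine ⟨2 * M / μ, by positivity, fun x hx => ?_⟩
  have hxO := hKO hx
  obtain ⟨τ, h0, h1, e1, e2⟩ := H.tau hxO
  have a1 := H.W_ge hxO h0 h1 e1 hμ.le fun ξ hξ => by
    have := hmin (a := (x, ξ / x 0)) ⟨hx, by
      rw [le_div_iff₀ hxO.2.1]; linarith [hξ.1], by rw [div_le_one hxO.2.1]; exact hξ.2⟩
    simpa [div_mul_cancel₀ _ hxO.2.1.ne'] using this
  refine (hM x hxO τ h0 h1 e2).trans ?_
  rw [div_mul_eq_mul_div, le_div_iff₀ hμ]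
  nlinarith

/-- Comparison with a barrier on a compact set. -/
lemma barrier {W b : E m → ℝ} (hW : ContDiff ℝ ∞ W) (hb : ContDiff ℝ ∞ b) {K : Set (E m)}
    (hK : IsCompact K) {ε : ℝ}
    (h : ∀ x ∈ K, ε * b x ≤ W x ∨ (K ∈ 𝓝 x ∧ (W x < ε * b x → Lap W x < ε * Lap b x))) :
    ∀ x ∈ K, ε * b x ≤ W x := by
  intro x hx
  have hs : ContDiff ℝ ∞ fun z => W z - ε * b z := hW.sub (contDiff_const.mul hb)
  obtain ⟨z, hz, hmin⟩ := hK.exists_isMinOn ⟨x, hx⟩ hs.continuous.continuousOn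
  by_contra hneg
  have h1 : W z - ε * b z ≤ W x - ε * b x := hmin hx
  have h2 : W z < ε * b z := by linarith [not_le.1 hneg]
  rcases h z hz with h3 | ⟨h3, h4⟩
  · linarith
  · have := Lap_nonneg_of_isLocalMin hs (hmin.isLocalMin h3)
    rw [Lap_sub hW (contDiff_const.mul hb), Lap_const_mul hb] at this
    linarith [h4 h2]

lemma Lap_gauss (α c : ℝ) (x1 x : E m) :
    Lap (fun z => Real.exp (-α * ‖z - x1‖ ^ 2) - c) x =
      (4 * α ^ 2 * ‖x - x1‖ ^ 2 - 2 * α * ((m : ℝ) + 2)) * Real.exp (-α * ‖x - x1‖ ^ 2) := by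
  have hs : ContDiff ℝ ∞ fun z : E m => Real.exp (-α * ‖z - x1‖ ^ 2) :=
    (contDiff_const.mul ((contDiff_id.sub contDiff_const).norm_sq ℝ)).exp
  have hq : ∀ (i : Fin (m + 2)) (z : E m), P i (fun z : E m => ‖z - x1‖ ^ 2) z (2 * (z - x1) i) :=
    fun i z => by
      have := P.normSq (i := i) (x := z - x1)
      unfold P at this ⊢
      simpa only [add_sub_right_comm] using this
  have hE : ∀ (i : Fin (m + 2)) (z : E m), P i (fun z : E m => Real.exp (-α * ‖z - x1‖ ^ 2)) z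
      (Real.exp (-α * ‖z - x1‖ ^ 2) * (-α * (2 * (z - x1) i))) := fun i z =>
    P.comp (f := fun z : E m => -α * ‖z - x1‖ ^ 2) (Real.hasDerivAt_exp _) ((hq i z).const_mul _)
  have h1 : ∀ i, D i (fun z => Real.exp (-α * ‖z - x1‖ ^ 2) - c) =
      fun z => Real.exp (-α * ‖z - x1‖ ^ 2) * (-α * (2 * (z i - x1 i))) := fun i =>
    funext fun z => (((hE i z).sub (P.const c)).congr (by simp)).D_eq
      (diff (hs.sub contDiff_const) z)
  have h2 : ∀ i, D i (D i fun z => Real.exp (-α * ‖z - x1‖ ^ 2) - c) x =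
      (4 * α ^ 2 * Real.exp (-α * ‖x - x1‖ ^ 2)) * (x - x1) i ^ 2 -
        2 * α * Real.exp (-α * ‖x - x1‖ ^ 2) := fun i => by
    rw [h1]
    refine P.D_eq ?_ (diff (hs.mul (contDiff_const.mul (contDiff_const.mul
      ((contDiff_coord i).sub contDiff_const)))) x)
    refine ((hE i x).mul ((((P.coord i).sub (P.const (x1 i))).const_mul 2).const_mul (-α))).congr ?_
    simp
    ring
  simp only [Lap, h2, Finset.sum_sub_distrib, ← Finset.mul_sum, ← norm_sq_eq, Finset.sum_const,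
    Finset.card_univ, Fintype.card_fin, nsmul_eq_mul]
  push_cast
  ring

lemma Hyp.spread (H : Hyp u v) {x1 : E m} {R : ℝ} (hR : Metric.closedBall x1 R ⊆ Om m)
    (h1 : v x1 < u x1) {x : E m} (hx : x ∈ Metric.ball x1 R) : v x < u x := by
  have hR0 : 0 < R := dist_nonneg.trans_lt hx
  obtain ⟨C, hC0, hC⟩ := H.loc (isCompact_closedBall x1 R) hR
  have hev : ∀ᶠ z in 𝓝 x1, (u x1 - v x1) / 2 < u z - v z :=
    H.sW.continuous.continuousAt.eventually (lt_mem_nhds (by linarith))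
  obtain ⟨r, hr, hball⟩ := Metric.eventually_nhds_iff.1 hev
  set α := (((m : ℝ) + 2) + C + 1) / r ^ 2 + 1 with hα
  have hα1 : 1 ≤ α := by
    have : 0 ≤ (((m : ℝ) + 2) + C + 1) / r ^ 2 := by positivity
    linarith
  have hα2 : ((m : ℝ) + 2) + C + 1 ≤ α * r ^ 2 := by
    rw [hα, add_mul, div_mul_cancel₀ _ (by positivity)]; nlinarith
  have hs : ContDiff ℝ ∞ fun z : E m => Real.exp (-α * ‖z - x1‖ ^ 2) - Real.exp (-α * R ^ 2) :=
    (contDiff_const.mul ((contDiff_id.sub contDiff_const).norm_sq ℝ)).exp.sub contDiff_const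
  have hε : 0 < (u x1 - v x1) / 2 := by linarith
  have key := barrier H.sW hs (isCompact_closedBall x1 R) (ε := (u x1 - v x1) / 2) (fun z hz => by
    have e0 := Real.exp_pos (-α * R ^ 2)
    have e1 := Real.exp_pos (-α * ‖z - x1‖ ^ 2)
    by_cases c1 : dist z x1 < r
    · left
      have : Real.exp (-α * ‖z - x1‖ ^ 2) ≤ 1 :=
        Real.exp_le_one_iff.2 (by nlinarith [sq_nonneg ‖z - x1‖])
      nlinarith [hball c1]
    by_cases c2 : dist z x1 < R
    · right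
      refine ⟨Metric.closedBall_mem_nhds_of_mem c2, fun hlt => ?_⟩
      rw [Lap_gauss]
      have a1 : r ^ 2 ≤ ‖z - x1‖ ^ 2 :=
        pow_le_pow_left₀ hr.le (by rw [← dist_eq_norm]; exact not_lt.1 c1) 2
      have a2 : C < 4 * α ^ 2 * ‖z - x1‖ ^ 2 - 2 * α * ((m : ℝ) + 2) := by
        have b1 : α * r ^ 2 ≤ α * ‖z - x1‖ ^ 2 := mul_le_mul_of_nonneg_left a1 (by linarith)
        have b2 : α * (((m : ℝ) + 2) + C + 1) ≤ α * (α * ‖z - x1‖ ^ 2) :=
          mul_le_mul_of_nonneg_left (hα2.trans b1) (by linarith)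
        have b3 : (0 : ℝ) ≤ (m : ℝ) + 2 := by positivity
        nlinarith
      have a3 := mul_lt_mul_of_pos_left (mul_lt_mul_of_pos_right a2 e1) hε
      have a4 := mul_le_mul_of_nonneg_left hlt.le hC0
      have a5 := mul_nonneg hC0 (mul_pos hε e0).le
      have a6 := hC z hz
      nlinarith
    · left
      have : ‖z - x1‖ = R := by
        rw [← dist_eq_norm]; exact le_antisymm hz (not_lt.1 c2)
      rw [this, sub_self, mul_zero]
      linarith [H.le z (hR hz)]) x (Metric.ball_subset_closedBall hx)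
  have hlt : Real.exp (-α * R ^ 2) < Real.exp (-α * ‖x - x1‖ ^ 2) := by
    refine Real.exp_lt_exp.2 ?_
    have : ‖x - x1‖ ^ 2 < R ^ 2 :=
      pow_lt_pow_left₀ (by rw [← dist_eq_norm]; exact hx) (norm_nonneg _) two_ne_zero
    nlinarith
  have := mul_pos hε (sub_pos.2 hlt)
  linarith

lemma isOpen_Om : IsOpen (Om m) :=
  (isOpen_lt continuous_rho continuous_const).inter
    ((isOpen_lt continuous_const (continuous_coord 0)).inter
      (isOpen_lt (continuous_coord 0) continuous_const))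

lemma convex_Om : Convex ℝ (Om m) := by
  intro x hx y hy α β hα hβ hαβ
  have comb : ∀ p q : ℝ, p < 1 → q < 1 → α * p + β * q < 1 := fun p q hp hq => by
    rcases hα.eq_or_lt with rfl | h
    · rw [zero_add] at hαβ; rw [hαβ]; linarith
    · nlinarith
  refine ⟨lt_of_le_of_lt ?_ (comb _ _ hx.1 hy.1), ?_, ?_⟩
  · simp only [rho, Finset.mul_sum, ← Finset.sum_add_distrib]
    refine Finset.sum_le_sum fun j _ => ?_
    have e1 : β = 1 - α := by linarith
    simp only [PiLp.add_apply, PiLp.smul_apply, smul_eq_mul]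
    have := mul_nonneg (mul_nonneg hα hβ) (sq_nonneg (x j.succ - y j.succ))
    rw [e1] at this ⊢
    nlinarith
  · have := comb (1 - x 0) (1 - y 0) (by linarith [hx.2.1]) (by linarith [hy.2.1])
    simp only [PiLp.add_apply, PiLp.smul_apply, smul_eq_mul]
    nlinarith
  · simpa using comb _ _ hx.2.2 hy.2.2

/-- Strong maximum principle. -/
lemma Hyp.smp (H : Hyp u v) : (∀ x ∈ Om m, u x = v x) ∨ ∀ x ∈ Om m, v x < u x := by
  have o1 : IsOpen {x : E m | v x < u x} := isOpen_lt H.sv.continuous H.su.continuous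
  have o2 : IsOpen {x : E m | x ∈ Om m ∧ u x = v x} := by
    rw [Metric.isOpen_iff]
    rintro x ⟨hx, hx'⟩
    obtain ⟨ε, hε, hb⟩ := Metric.isOpen_iff.1 isOpen_Om x hx
    refine ⟨ε / 4, by positivity, fun z hz => ?_⟩
    have hz' : dist z x < ε / 4 := hz
    have hsub : Metric.closedBall z (ε / 2) ⊆ Om m := fun w hw => hb (by
      have h1 : dist w z ≤ ε / 2 := hw
      have := dist_triangle w z x
      show dist w x < ε
      linarith)
    have hzO : z ∈ Om m := hsub (Metric.mem_closedBall_self (by positivity))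
    refine ⟨hzO, le_antisymm (not_lt.1 fun hlt => ?_) (H.le z hzO)⟩
    have := H.spread hsub hlt (x := x) (by
      show dist x z < ε / 2
      rw [dist_comm]; linarith)
    linarith
  rcases convex_Om.isPreconnected.subset_or_subset o2 o1
    (Set.disjoint_left.2 fun x h1 h2 => (ne_of_gt (show v x < u x from h2)) h1.2)
    (fun x hx => by
      rcases (H.le x hx).eq_or_lt with h | h
      · exact Or.inl ⟨hx, h.symm⟩
      · exact Or.inr h) with h | h
  · exact Or.inl fun x hx => (h hx).2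
  · exact Or.inr fun x hx => h hx

end Pool.Agent.Work.MP_a60953_an.Pos
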