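import Pool.Agent.Work.MP_a60953_an.Pos.Basic
import Mathlib.Analysis.Calculus.LineDeriv.IntegrationByParts
import Mathlib.MeasureTheory.Measure.Haar.InnerProductSpace
import Mathlib.MeasureTheory.Constructions.HaarToSphere
import Mathlib.Analysis.SpecialFunctions.Integrals.Basic
import Mathlib.Analysis.SpecialFunctions.SmoothTransition
import Mathlib.Analysis.InnerProductSpace.Projection.Reflection
import Mathlib.Analysis.Calculus.Deriv.Slope

/-! Integration tools: divergence, symmetries, radial shells and cutoffs. -/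

open scoped ContDiff Topology
open Set Filter MeasureTheory

noncomputable section

namespace Pool.Agent.Work.MP_a60953_an.Pos

variable {m : ℕ}

/-- Integrable with integral zero. -/
def Z (T : E m → ℝ) : Prop := Integrable T ∧ ∫ x, T x = 0

lemma Z.add {S T : E m → ℝ} (hS : Z S) (hT : Z T) : Z (fun x => S x + T x) :=
  ⟨hS.1.add hT.1, by rw [integral_add hS.1 hT.1, hS.2, hT.2, add_zero]⟩

lemma Z.sub {S T : E m → ℝ} (hS : Z S) (hT : Z T) : Z (fun x => S x - T x) :=
  ⟨hS.1.sub hT.1, by rw [integral_sub hS.1 hT.1, hS.2, hT.2, sub_zero]⟩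

lemma Z.const_mul {T : E m → ℝ} (hT : Z T) (c : ℝ) : Z (fun x => c * T x) :=
  ⟨hT.1.const_mul c, by rw [integral_const_mul, hT.2, mul_zero]⟩

lemma Z.sum {ι : Type*} {s : Finset ι} {T : ι → E m → ℝ} (h : ∀ i ∈ s, Z (T i)) :
    Z (fun x => ∑ i ∈ s, T i x) :=
  ⟨integrable_finsetSum s fun i hi => (h i hi).1, by
    rw [integral_finsetSum s fun i hi => (h i hi).1]
    exact Finset.sum_eq_zero fun i hi => (h i hi).2⟩

lemma Z.comp {T : E m → ℝ} (hT : Z T) (J : E m ≃ₗᵢ[ℝ] E m) : Z (fun x => T (J x)) :=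
  ⟨(J.measurePreserving.integrable_comp_emb J.toHomeomorph.measurableEmbedding).2 hT.1, by
    rw [J.measurePreserving.integral_comp J.toHomeomorph.measurableEmbedding, hT.2]⟩

lemma Z_D {f : E m → ℝ} (hf : ContDiff ℝ 1 f) (hs : HasCompactSupport f) (i : Fin (m + 2)) :
    Z (D i f) := by
  have hc : Continuous (D i f) := (hf.continuous_fderiv one_ne_zero).clm_apply continuous_const
  have hi : Integrable (D i f) := hc.integrable_of_hasCompactSupport (hs.fderiv_apply ℝ (e i))
  refine ⟨hi, ?_⟩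
  have := integral_mul_fderiv_eq_neg_fderiv_mul_of_integrable (μ := (volume : Measure (E m)))
    (f := fun _ : E m => (1 : ℝ)) (g := f) (v := e i) (by simp)
    (by simp only [one_mul]; exact hi)
    (by simpa using hf.continuous.integrable_of_hasCompactSupport hs)
    (fun x _ => differentiableAt_const _) (fun x _ => hf.differentiable one_ne_zero x)
  simpa [D] using this

/-- A function that is `C^1` near a compact set and vanishes outside it. -/
lemma Z_D_of_compact {f : E m → ℝ} {K : Set (E m)} (hK : IsCompact K)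
    (h1 : ∀ x ∈ K, ContDiffAt ℝ 1 f x) (h0 : ∀ x, x ∉ K → f x = 0) (i : Fin (m + 2)) :
    Z (D i f) := by
  refine Z_D (contDiff_iff_contDiffAt.2 fun x => ?_) (HasCompactSupport.intro hK h0) i
  by_cases hx : x ∈ K
  · exact h1 x hx
  · refine (contDiffAt_const (c := (0 : ℝ))).congr_of_eventuallyEq ?_
    filter_upwards [hK.isClosed.isOpen_compl.mem_nhds hx] with z hz using h0 z hz

lemma D_eq_zero_of_compact {f : E m → ℝ} {K : Set (E m)} (hK : IsCompact K)
    (h0 : ∀ x, x ∉ K → f x = 0) (i : Fin (m + 2)) {x : E m} (hx : x ∉ K) : D i f x = 0 := by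
  have : f =ᶠ[𝓝 x] fun _ => 0 := by
    filter_upwards [hK.isClosed.isOpen_compl.mem_nhds hx] with z hz using h0 z hz
  simp [D, this.fderiv_eq]

/-- The reflection `(t, y) ↦ (t, -y)`. -/
def refl0 : E m ≃ₗᵢ[ℝ] E m := (ℝ ∙ (e 0 : E m)).reflection

lemma refl0_apply (x : E m) : refl0 x = (2 * x 0) • e 0 - x := by
  rw [refl0, Submodule.reflection_singleton_apply]
  simp [e, two_smul, two_mul, add_smul, EuclideanSpace.inner_single_left]

/-- Exchange of the coordinates `0` and `i`. -/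
def swap0 (i : Fin (m + 2)) : E m ≃ₗᵢ[ℝ] E m :=
  LinearIsometryEquiv.piLpCongrLeft 2 ℝ ℝ (Equiv.swap 0 i)

lemma swap0_apply (i : Fin (m + 2)) (x : E m) : swap0 i x 0 = x i := by
  simp [swap0, LinearIsometryEquiv.piLpCongrLeft_apply, Equiv.piCongrLeft']

/-- `|x|^(-n)` on the shell `a ≤ |x| ≤ b`. -/
def shell (a b : ℝ) (x : E m) : ℝ := (Icc a b).indicator (fun r => (r ^ (m + 2))⁻¹) ‖x‖

lemma shell_nonneg (a b : ℝ) (x : E m) : 0 ≤ shell a b x := by
  unfold shell
  by_cases h : ‖x‖ ∈ Icc a b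
  · rw [indicator_of_mem h]; positivity
  · rw [indicator_of_notMem h]

lemma shell_of_mem {a b : ℝ} {x : E m} (h1 : a ≤ ‖x‖) (h2 : ‖x‖ ≤ b) :
    shell a b x = (‖x‖ ^ (m + 2))⁻¹ := indicator_of_mem (show ‖x‖ ∈ Icc a b from ⟨h1, h2⟩) _

lemma shell_comp (a b : ℝ) (J : E m ≃ₗᵢ[ℝ] E m) (x : E m) : shell a b (J x) = shell a b x := by
  simp [shell]

lemma integrable_shell {a b : ℝ} (ha : 0 < a) : Integrable (shell (m := m) a b) := by
  have hK : IsCompact {x : E m | ‖x‖ ∈ Icc a b} :=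
    (isCompact_closedBall (0 : E m) b).of_isClosed_subset (isClosed_Icc.preimage continuous_norm)
      fun x hx => by simpa using hx.2
  have e1 : shell (m := m) a b =
      {x : E m | ‖x‖ ∈ Icc a b}.indicator fun x => (‖x‖ ^ (m + 2))⁻¹ := by
    funext x
    by_cases h : ‖x‖ ∈ Icc a b
    · rw [shell, indicator_of_mem h, indicator_of_mem (show x ∈ {x : E m | ‖x‖ ∈ Icc a b} from h)]
    · rw [shell, indicator_of_notMem h,
        indicator_of_notMem (show x ∉ {x : E m | ‖x‖ ∈ Icc a b} from h)]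
  rw [e1, integrable_indicator_iff hK.measurableSet]
  refine ContinuousOn.integrableOn_compact hK ?_
  exact (continuous_norm.pow _).continuousOn.inv₀ fun x hx => pow_ne_zero _ (ha.trans_le hx.1).ne'

lemma integral_shell : ∃ c : ℝ, 0 < c ∧ ∀ a b : ℝ, 0 < a → a ≤ b →
    ∫ x, shell (m := m) a b x = c * Real.log (b / a) := by
  refine ⟨(m + 2 : ℕ) * (volume : Measure (E m)).real (Metric.ball 0 1), ?_, fun a b ha hab => ?_⟩
  · refine mul_pos (by positivity) ?_
    exact ENNReal.toReal_pos (Metric.measure_ball_pos volume _ one_pos).ne'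
      measure_ball_lt_top.ne
  · have h := integral_fun_norm_addHaar (volume : Measure (E m))
      ((Icc a b).indicator fun r : ℝ => (r ^ (m + 2))⁻¹)
    have hd : Module.finrank ℝ (E m) = m + 2 := by simp
    have h2 : ∫ y in Ioi (0 : ℝ), y ^ (m + 2 - 1) •
        (Icc a b).indicator (fun r : ℝ => (r ^ (m + 2))⁻¹) y = Real.log (b / a) := by
      have : ∀ y ∈ Ioi (0 : ℝ), y ^ (m + 2 - 1) •
          (Icc a b).indicator (fun r : ℝ => (r ^ (m + 2))⁻¹) y =
          (Icc a b).indicator (fun r : ℝ => r⁻¹) y := by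
        intro y hy
        have hy' : y ≠ 0 := ne_of_gt hy
        by_cases hm : y ∈ Icc a b
        · rw [indicator_of_mem hm, indicator_of_mem hm, smul_eq_mul,
            show m + 2 - 1 = m + 1 from rfl]
          field_simp
          ring
        · simp [indicator_of_notMem hm]
      rw [setIntegral_congr_fun measurableSet_Ioi this, setIntegral_indicator measurableSet_Icc,
        inter_eq_right.2 (show Icc a b ⊆ Ioi 0 from fun y hy => ha.trans_le hy.1),
        integral_Icc_eq_integral_Ioc,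
        ← intervalIntegral.integral_of_le hab, integral_inv_of_pos ha (ha.trans_le hab)]
    rw [hd, h2] at h
    simp only [shell]
    rw [h, nsmul_eq_mul, smul_eq_mul, mul_assoc]

/-- Radial cutoffs. -/
lemma exists_cutoff : ∃ L : ℝ, 0 ≤ L ∧ ∀ ρ R : ℝ, 0 < ρ → 4 * ρ ≤ R →
    ∃ ζ ζi ζo : ℝ → ℝ, ContDiff ℝ ∞ ζ ∧ (∀ r, HasDerivAt ζ (ζi r - ζo r) r) ∧
      (∀ r, 0 ≤ ζ r ∧ ζ r ≤ 1) ∧ (∀ r, r ≤ ρ ∨ R ≤ r → ζ r = 0) ∧
      (∀ r, 2 * ρ ≤ r → r ≤ R / 2 → ζ r = 1) ∧
      (∀ r, 0 ≤ ζi r ∧ ρ * ζi r ≤ L) ∧ (∀ r, 2 * ρ < r → ζi r = 0) ∧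
      (∀ r, 0 ≤ ζo r ∧ R * ζo r ≤ L) ∧ (∀ r, r < R / 2 → ζo r = 0) := by
  set θ := Real.smoothTransition with hθ
  have hs : ContDiff ℝ ∞ θ := Real.smoothTransition.contDiff
  have hd : ∀ x, HasDerivAt θ (deriv θ x) x := fun x =>
    (hs.differentiable (by simp) x).hasDerivAt
  have hc : Continuous (deriv θ) := hs.continuous_deriv one_le_infty
  have hpos : ∀ x, 0 ≤ deriv θ x := fun x => Real.smoothTransition.monotone.deriv_nonneg
  have hone : ∀ x, 1 < x → deriv θ x = 0 := fun x hx => by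
    have : θ =ᶠ[𝓝 x] fun _ => 1 := by
      filter_upwards [Ioi_mem_nhds hx] with y hy using
        Real.smoothTransition.one_of_one_le (le_of_lt hy)
    simp [this.deriv_eq]
  have hzero : ∀ x, x < 0 → deriv θ x = 0 := fun x hx => by
    have : θ =ᶠ[𝓝 x] fun _ => 0 := by
      filter_upwards [Iio_mem_nhds hx] with y hy using
        Real.smoothTransition.zero_of_nonpos (le_of_lt hy)
    simp [this.deriv_eq]
  obtain ⟨L, hL⟩ := (isCompact_Icc (a := (0 : ℝ)) (b := 1)).exists_bound_of_continuousOn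
    hc.continuousOn
  have hL0 : 0 ≤ L := (norm_nonneg _).trans (hL 0 ⟨le_rfl, zero_le_one⟩)
  have hb : ∀ x, deriv θ x ≤ L := fun x => by
    by_cases h0 : x < 0
    · rw [hzero x h0]; exact hL0
    by_cases h1 : 1 < x
    · rw [hone x h1]; exact hL0
    exact (le_abs_self _).trans (hL x ⟨not_lt.1 h0, not_lt.1 h1⟩)
  have t0 : ∀ x, 0 ≤ θ x := Real.smoothTransition.nonneg
  have t1 : ∀ x, θ x ≤ 1 := Real.smoothTransition.le_one
  refine ⟨2 * L, by positivity, fun ρ R hρ hR => ?_⟩
  have hR0 : 0 < R := by linarith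
  refine ⟨fun r => θ (r / ρ - 1) * θ (2 - 2 * r / R),
    fun r => deriv θ (r / ρ - 1) * (1 / ρ) * θ (2 - 2 * r / R),
    fun r => θ (r / ρ - 1) * (deriv θ (2 - 2 * r / R) * (2 / R)),
    (hs.comp (by fun_prop)).mul (hs.comp (by fun_prop)), fun r => ?_,
    fun r => ⟨mul_nonneg (t0 _) (t0 _), mul_le_one₀ (t1 _) (t0 _) (t1 _)⟩, fun r hr => ?_,
    fun r h1 h2 => ?_, fun r => ⟨?_, ?_⟩, fun r hr => ?_, fun r => ⟨?_, ?_⟩, fun r hr => ?_⟩
  · have a1 : HasDerivAt (fun r : ℝ => r / ρ - 1) (1 / ρ) r :=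
      ((hasDerivAt_id r).div_const ρ).sub_const 1
    have a2 : HasDerivAt (fun r : ℝ => 2 - 2 * r / R) (-(2 / R)) r := by
      simpa using (((hasDerivAt_id r).const_mul 2).div_const R).const_sub 2
    have := ((hd _).comp r a1).fun_mul ((hd _).comp r a2)
    refine this.congr_deriv ?_
    simp only [Function.comp]
    ring
  · rcases hr with hr | hr
    · have : r / ρ - 1 ≤ 0 := by rw [sub_nonpos, div_le_one hρ]; exact hr
      simp only [hθ, Real.smoothTransition.zero_of_nonpos this, zero_mul]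
    · have : 2 - 2 * r / R ≤ 0 := by rw [sub_nonpos, le_div_iff₀ hR0]; linarith
      simp only [hθ, Real.smoothTransition.zero_of_nonpos this, mul_zero]
  · have a1 : 1 ≤ r / ρ - 1 := by rw [le_sub_iff_add_le, le_div_iff₀ hρ]; linarith
    have a2 : 1 ≤ 2 - 2 * r / R := by
      have : 2 * r / R ≤ 1 := by rw [div_le_one hR0]; linarith
      linarith
    simp only [hθ, Real.smoothTransition.one_of_one_le a1, Real.smoothTransition.one_of_one_le a2,
      mul_one]
  · exact mul_nonneg (mul_nonneg (hpos _) (by positivity)) (t0 _)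
  · have : ρ * (deriv θ (r / ρ - 1) * (1 / ρ) * θ (2 - 2 * r / R)) =
        deriv θ (r / ρ - 1) * θ (2 - 2 * r / R) := by field_simp
    rw [this]
    nlinarith [hb (r / ρ - 1), hpos (r / ρ - 1), t0 (2 - 2 * r / R), t1 (2 - 2 * r / R)]
  · have : 1 < r / ρ - 1 := by rw [lt_sub_iff_add_lt, lt_div_iff₀ hρ]; linarith
    simp only [hone _ this, zero_mul]
  · exact mul_nonneg (t0 _) (mul_nonneg (hpos _) (by positivity))
  · have : R * (θ (r / ρ - 1) * (deriv θ (2 - 2 * r / R) * (2 / R))) =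
        2 * (θ (r / ρ - 1) * deriv θ (2 - 2 * r / R)) := by field_simp
    rw [this]
    nlinarith [hb (2 - 2 * r / R), hpos (2 - 2 * r / R), t0 (r / ρ - 1), t1 (r / ρ - 1)]
  · have : 1 < 2 - 2 * r / R := by
      have : 2 * r / R < 1 := by rw [div_lt_one hR0]; linarith
      linarith
    simp only [hone _ this, zero_mul, mul_zero]

/-- The square of the positive part. -/
def pp (a : ℝ) : ℝ := max a 0 ^ 2

lemma hasDerivAt_pp (a : ℝ) : HasDerivAt pp (2 * max a 0) a := by
  rcases lt_trichotomy a 0 with h | rfl | h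
  · have : pp =ᶠ[𝓝 a] fun _ => 0 := by
      filter_upwards [Iio_mem_nhds h] with y hy
      simp [pp, max_eq_right (le_of_lt (show y < 0 from hy))]
    rw [max_eq_right h.le, mul_zero]
    exact (hasDerivAt_const a (0 : ℝ)).congr_of_eventuallyEq this
  · rw [max_self, mul_zero, hasDerivAt_iff_isLittleO_nhds_zero]
    simp only [zero_add, smul_zero, sub_zero, pp, max_self, ne_eq, OfNat.ofNat_ne_zero,
      not_false_eq_true, zero_pow]
    refine Asymptotics.IsBigO.trans_isLittleO (g := fun y : ℝ => y ^ 2) ?_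
      (Asymptotics.isLittleO_pow_id one_lt_two)
    refine Asymptotics.IsBigO.of_bound' (Eventually.of_forall fun y => ?_)
    rw [Real.norm_eq_abs, Real.norm_eq_abs, abs_of_nonneg (sq_nonneg _),
      abs_of_nonneg (sq_nonneg _)]
    rcases le_total y 0 with h | h
    · rw [max_eq_right h]; nlinarith [sq_nonneg y]
    · rw [max_eq_left h]
  · have : pp =ᶠ[𝓝 a] fun y => y ^ 2 := by
      filter_upwards [Ioi_mem_nhds h] with y hy
      simp [pp, max_eq_left (le_of_lt (show 0 < y from hy))]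
    rw [max_eq_left h.le]
    simpa using (hasDerivAt_pow 2 a).congr_of_eventuallyEq this

lemma contDiff_pp : ContDiff ℝ 1 pp := by
  rw [contDiff_one_iff_deriv]
  refine ⟨fun a => (hasDerivAt_pp a).differentiableAt, ?_⟩
  have : deriv pp = fun a => 2 * max a 0 := funext fun a => (hasDerivAt_pp a).deriv
  rw [this]
  fun_prop

end Pool.Agent.Work.MP_a60953_an.Pos
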