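import Pool.Agent.Work.MP_a60953_an.Pos.Order2
import Pool.Agent.Work.MP_a60953_an.Pos.Energy

/-! Orders of vanishing at the origin and cubic parts. -/

open scoped ContDiff Topology
open Set Filter

noncomputable section

namespace Pool.Agent.Work.MP_a60953_an.Pos

variable {m : ℕ}

/-- `f = O(|x|^j)` on the unit ball. -/
def Ord (j : ℕ) (f : E m → ℝ) : Prop := ∃ C : ℝ, 0 ≤ C ∧ ∀ x, ‖x‖ ≤ 1 → |f x| ≤ C * ‖x‖ ^ j

lemma ord_zero {f : E m → ℝ} (hf : ContDiff ℝ ∞ f) : Ord 0 f := by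
  obtain ⟨C, hC⟩ := (isCompact_closedBall (0 : E m) 1).exists_bound_of_continuousOn
    hf.continuous.continuousOn
  exact ⟨C, (norm_nonneg _).trans (hC 0 (by simp)), fun x hx => by simpa using hC x (by simpa)⟩

lemma ord_succ {f : E m → ℝ} (hf : ContDiff ℝ ∞ f) (h0 : f 0 = 0) {j : ℕ}
    (h : ∀ i, Ord j (D i f)) : Ord (j + 1) f := by
  choose C hC0 hC using h
  refine ⟨∑ i, C i, Finset.sum_nonneg fun i _ => hC0 i, fun x hx => ?_⟩
  have hd : ∀ τ : ℝ, HasDerivAt (fun σ : ℝ => f (0 + σ • x)) (fderiv ℝ f (0 + τ • x) x) τ :=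
    fun τ => hasDerivAt_line (diff hf _)
  have hb : ∀ τ ∈ Ioo (0 : ℝ) 1, |fderiv ℝ f (0 + τ • x) x| ≤ (∑ i, C i) * ‖x‖ ^ (j + 1) := by
    intro τ hτ
    have hn : ‖0 + τ • x‖ ≤ ‖x‖ := by
      rw [zero_add, norm_smul, Real.norm_eq_abs, abs_of_pos hτ.1]
      exact mul_le_of_le_one_left (norm_nonneg x) hτ.2.le
    rw [clm_sum, Finset.sum_mul]
    refine (Finset.abs_sum_le_sum_abs _ _).trans (Finset.sum_le_sum fun i _ => ?_)
    rw [abs_mul, pow_succ, mul_comm (|x i|), ← mul_assoc]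
    refine mul_le_mul ((hC i _ (hn.trans hx)).trans ?_) (abs_coord_le x i) (abs_nonneg _)
      (mul_nonneg (hC0 i) (by positivity))
    exact mul_le_mul_of_nonneg_left (pow_le_pow_left₀ (norm_nonneg _) hn j) (hC0 i)
  have h1 := mvt_le hd zero_le_one fun τ hτ => (abs_le.1 (hb τ hτ)).2
  have h2 := mvt_ge hd zero_le_one fun τ hτ => (abs_le.1 (hb τ hτ)).1
  simp only [zero_add, one_smul, zero_smul, h0, sub_zero, mul_one] at h1 h2
  exact abs_le.2 ⟨h2, h1⟩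

lemma ord_one {f : E m → ℝ} (hf : ContDiff ℝ ∞ f) (h0 : f 0 = 0) : Ord 1 f :=
  ord_succ hf h0 fun i => ord_zero (contDiff_D hf i)

lemma taylor1 {f : E m → ℝ} (hf : ContDiff ℝ ∞ f) :
    Ord 2 fun x => f x - f 0 - fderiv ℝ f 0 x := by
  have hs : ContDiff ℝ ∞ fun x => f x - f 0 - fderiv ℝ f 0 x :=
    (hf.sub contDiff_const).sub (fderiv ℝ f 0).contDiff
  refine ord_succ hs (by simp) fun i => ord_one (contDiff_D hs i) ?_
  exact ((((P_D hf i 0).sub (P.const _)).sub (P.clm _)).congr (by simp [D])).D_eq (diff hs 0)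

/-- The Hessian at the origin. -/
def hess (f : E m → ℝ) : E m →L[ℝ] E m →L[ℝ] ℝ := fderiv ℝ (fderiv ℝ f) 0

lemma hess_symm {f : E m → ℝ} (hf : ContDiff ℝ ∞ f) (x y : E m) : hess f x y = hess f y x :=
  symm2 hf 0 x y

lemma hess_e {f : E m → ℝ} (hf : ContDiff ℝ ∞ f) (i j : Fin (m + 2)) :
    hess f (e i) (e j) = D i (D j f) 0 := (D_D_eq hf i j 0).symm

lemma kap_hess {f : E m → ℝ} (hf : ContDiff ℝ ∞ f) : kap (hess f) = Lap f 0 :=
  Finset.sum_congr rfl fun i _ => hess_e hf i i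

lemma taylor2 {f : E m → ℝ} (hf : ContDiff ℝ ∞ f) (h0 : f 0 = 0) (h1 : ∀ i, D i f 0 = 0) :
    Ord 3 fun x => f x - phi (hess f) x := by
  have hs : ContDiff ℝ ∞ fun x => f x - phi (hess f) x := hf.sub (contDiff_phi _)
  have e1 : ∀ i, D i (fun x => f x - phi (hess f) x) = fun x => D i f x - hess f (e i) x :=
    fun i => funext fun x => ((P_D hf i x).sub (P_phi (hess_symm hf) i x)).D_eq (diff hs x)
  refine ord_succ hs (by simp [h0, phi]) fun i => ?_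
  have hs1 : ContDiff ℝ ∞ fun x => D i f x - hess f (e i) x :=
    (contDiff_D hf i).sub (hess f (e i)).contDiff
  rw [e1]
  refine ord_succ hs1 (by simp [h1]) fun j => ord_one (contDiff_D hs1 j) ?_
  refine (((P_D (contDiff_D hf i) j 0).sub (P.clm _)).congr ?_).D_eq (diff hs1 0)
  rw [hess_symm hf, hess_e hf, sub_self]

lemma nonneg_limit {F : ℝ → ℝ} (hF : ContinuousAt F 0) (h : ∀ᶠ t in 𝓝[>] 0, 0 ≤ F t) : 0 ≤ F 0 :=
  ge_of_tendsto (hF.tendsto.mono_left nhdsWithin_le_nhds) h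

lemma small_smul (x : E m) : ∀ᶠ t : ℝ in 𝓝[>] 0, 0 < t ∧ ‖t • x‖ < 1 := by
  have h : ∀ᶠ t : ℝ in 𝓝 0, ‖t • x‖ < 1 :=
    ContinuousAt.eventually_lt (by fun_prop) continuousAt_const (by simp)
  filter_upwards [h.filter_mono nhdsWithin_le_nhds, self_mem_nhdsWithin] with t h1 h2 using
    ⟨h2, h1⟩

lemma bottom_D {f : E m → ℝ} (hf : ContDiff ℝ ∞ f) (h : ∀ x, x 0 = 0 → rho x < 1 → f x = 0)
    (j : Fin (m + 1)) : ∀ x, x 0 = 0 → rho x < 1 → D j.succ f x = 0 := by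
  intro x h0 h1
  have hc : ContinuousAt (fun τ : ℝ => rho (x + τ • e j.succ)) 0 :=
    (continuous_rho.comp (by fun_prop)).continuousAt
  have hev : ∀ᶠ τ : ℝ in 𝓝 0, rho (x + τ • e j.succ) < 1 :=
    hc.eventually_lt continuousAt_const (by simpa using h1)
  refine P.D_eq ?_ (diff hf x)
  refine (hasDerivAt_const (0 : ℝ) (0 : ℝ)).congr_of_eventuallyEq ?_
  filter_upwards [hev] with τ hτ
  exact h _ (by simp [h0, e_ne (Fin.succ_ne_zero j).symm]) hτ

lemma bottom_min {f : E m → ℝ} (hf : ContDiff ℝ ∞ f) (h : ∀ x, x 0 = 0 → rho x < 1 → 0 ≤ f x)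
    (h0 : f 0 = 0) (j : Fin (m + 1)) : D j.succ f 0 = 0 := by
  have hc : ContinuousAt (fun τ : ℝ => rho ((0 : E m) + τ • e j.succ)) 0 :=
    (continuous_rho.comp (by fun_prop)).continuousAt
  have hev : ∀ᶠ τ : ℝ in 𝓝 0, rho ((0 : E m) + τ • e j.succ) < 1 :=
    hc.eventually_lt continuousAt_const (by simp)
  refine IsLocalMin.hasDerivAt_eq_zero ?_ (P_D hf j.succ 0)
  filter_upwards [hev] with τ hτ
  simp only [zero_smul, add_zero, h0]
  exact h _ (by simp [e_ne (Fin.succ_ne_zero j).symm]) hτ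

/-- The cubic part. -/
def cub (a : E m →L[ℝ] E m →L[ℝ] ℝ) (y : E m) (s : ℝ) : ℝ :=
  s * a y y / 2 + s ^ 2 * a (e 0) y / 2 + s ^ 3 * a (e 0) (e 0) / 6

lemma pt_of_bottom {y : E m} (hy : y 0 = 0) (s : ℝ) : pt y s = y + s • e 0 := by simp [pt, hy]

lemma phi_pt {a : E m →L[ℝ] E m →L[ℝ] ℝ} (hs : ∀ x y, a x y = a y x) {y : E m} (hy : y 0 = 0)
    (s : ℝ) : phi a (pt y s) = a y y / 2 + s * a (e 0) y + s ^ 2 * a (e 0) (e 0) / 2 := by
  rw [pt_of_bottom hy]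
  simp only [phi, map_add, map_smul, add_apply, smul_apply, smul_eq_mul, hs y (e 0)]
  ring

lemma cub_smul (a : E m →L[ℝ] E m →L[ℝ] ℝ) (y : E m) (s t : ℝ) :
    cub a (t • y) (t * s) = t ^ 3 * cub a y s := by
  simp only [cub, map_smul, smul_apply, smul_eq_mul]
  ring

lemma pt_smul (y : E m) (s t : ℝ) : pt (t • y) (t * s) = t • pt y s := by
  simp only [pt, PiLp.smul_apply, smul_eq_mul, smul_add, smul_sub, smul_smul]

lemma norm_pt_mono (y : E m) {s t : ℝ} (h : |s| ≤ |t|) : ‖pt y s‖ ≤ ‖pt y t‖ := by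
  have := norm_pt_le (pt y t) (τ := s) (by simpa using h)
  rwa [show pt (pt y t) s = pt y s by simp [pt]] at this

/-- Zero on the bottom, with vanishing two-jet at the origin. -/
structure Jet (f : E m → ℝ) : Prop where
  sm : ContDiff ℝ ∞ f
  bd : ∀ x, x 0 = 0 → rho x < 1 → f x = 0
  d0 : D 0 f 0 = 0
  d1 : ∀ i, D i (D 0 f) 0 = 0

variable {f : E m → ℝ}

lemma Jet.symm (J : Jet f) (x y : E m) : hess (D 0 f) x y = hess (D 0 f) y x :=
  hess_symm (contDiff_D J.sm 0) x y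

lemma Jet.cubic (J : Jet f) : ∃ C : ℝ, 0 ≤ C ∧ ∀ (y : E m) (s : ℝ), y 0 = 0 → 0 ≤ s →
    ‖pt y s‖ < 1 → |f (pt y s) - cub (hess (D 0 f)) y s| ≤ C * ‖pt y s‖ ^ 4 := by
  obtain ⟨C, hC0, hC⟩ := taylor2 (contDiff_D J.sm 0) J.d0 J.d1
  refine ⟨C, hC0, fun y s hy hs hn => ?_⟩
  set a := hess (D 0 f) with ha
  have hd : ∀ τ : ℝ, HasDerivAt (fun σ => f (pt y σ) - cub a y σ)
      (D 0 f (pt y τ) - phi a (pt y τ)) τ := fun τ => by
    have h1 := ((((hasDerivAt_id τ).mul_const (a y y)).div_const 2).fun_add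
      (((hasDerivAt_pow 2 τ).mul_const (a (e 0) y)).div_const 2)).fun_add
      (((hasDerivAt_pow 3 τ).mul_const (a (e 0) (e 0))).div_const 6)
    refine ((hasDerivAt_pt J.sm y τ).fun_sub h1).congr_deriv ?_
    rw [phi_pt J.symm hy]
    simp
    ring
  have hb : ∀ τ ∈ Ioo (0 : ℝ) s, |D 0 f (pt y τ) - phi a (pt y τ)| ≤ C * ‖pt y s‖ ^ 3 := by
    intro τ hτ
    have h1 : ‖pt y τ‖ ≤ ‖pt y s‖ :=
      norm_pt_mono y (by rw [abs_of_pos hτ.1, abs_of_nonneg hs]; exact hτ.2.le)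
    exact (hC _ (h1.trans hn.le)).trans
      (mul_le_mul_of_nonneg_left (pow_le_pow_left₀ (norm_nonneg _) h1 3) hC0)
  have h1 := mvt_le hd hs fun τ hτ => (abs_le.1 (hb τ hτ)).2
  have h2 := mvt_ge hd hs fun τ hτ => (abs_le.1 (hb τ hτ)).1
  have z : f (pt y 0) = 0 := J.bd _ (by simp) (by simpa using rho_lt_of_norm hn)
  have z2 : cub a y 0 = 0 := by simp [cub]
  simp only [z, z2, sub_zero] at h1 h2
  have h3 : s ≤ ‖pt y s‖ := by simpa using (le_abs_self _).trans (abs_coord_le (pt y s) 0)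
  have h4 : C * ‖pt y s‖ ^ 3 * s ≤ C * ‖pt y s‖ ^ 4 := by
    rw [pow_succ _ 3, ← mul_assoc]
    exact mul_le_mul_of_nonneg_left h3 (by positivity)
  exact abs_le.2 ⟨by linarith, by linarith⟩

lemma Jet.cub_nonneg (J : Jet f) (h : ∀ x ∈ Om m, 0 ≤ f x) {y : E m} (hy : y 0 = 0) {s : ℝ}
    (hs : 0 < s) : 0 ≤ cub (hess (D 0 f)) y s := by
  obtain ⟨C, hC0, hC⟩ := J.cubic
  have := nonneg_limit (F := fun t => cub (hess (D 0 f)) y s + C * ‖pt y s‖ ^ 4 * t)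
    (by fun_prop) (by
      filter_upwards [small_smul (pt y s)] with t ht
      have h1 := hC (t • y) (t * s) (by simp [hy]) (mul_pos ht.1 hs).le (by rw [pt_smul]; exact ht.2)
      have h2 := h (t • pt y s) (mem_Om_of_norm (by simpa using mul_pos ht.1 hs) ht.2)
      rw [pt_smul, cub_smul, norm_smul, Real.norm_eq_abs, abs_of_pos ht.1] at h1
      have h3 := (abs_le.1 h1).2
      refine nonneg_of_mul_nonneg_right (a := t ^ 3) ?_ (pow_pos ht.1 3)
      nlinarith)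
  simpa using this

lemma cub_le_cub {a a' : E m →L[ℝ] E m →L[ℝ] ℝ} {μ : ℝ} {y : E m}
    (h : ∀ s, 0 < s → cub a' y s ≤ cub a y (μ * s)) : a' y y ≤ μ * a y y := by
  have := nonneg_limit (F := fun s => μ * a y y / 2 + μ ^ 2 * s * a (e 0) y / 2 +
    μ ^ 3 * s ^ 2 * a (e 0) (e 0) / 6 -
      (a' y y / 2 + s * a' (e 0) y / 2 + s ^ 2 * a' (e 0) (e 0) / 6)) (by fun_prop) (by
    filter_upwards [self_mem_nhdsWithin] with s hs
    have h1 := h s hs
    unfold cub at h1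
    refine nonneg_of_mul_nonneg_right (a := s) ?_ hs
    nlinarith)
  linarith

lemma e_succ_zero (j : Fin (m + 1)) : (e j.succ : E m) 0 = 0 := e_ne (Fin.succ_ne_zero j).symm

lemma kap_split (a : E m →L[ℝ] E m →L[ℝ] ℝ) :
    kap a = a (e 0) (e 0) + ∑ j : Fin (m + 1), a (e j.succ) (e j.succ) := Fin.sum_univ_succ _

lemma cub_facts {a : E m →L[ℝ] E m →L[ℝ] ℝ}
    (h : ∀ y : E m, y 0 = 0 → ∀ s, 0 < s → 0 ≤ cub a y s) :
    0 ≤ a (e 0) (e 0) ∧ ∀ y : E m, y 0 = 0 → 0 ≤ a y y := by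
  refine ⟨?_, fun y hy => ?_⟩
  · have := h 0 rfl 1 one_pos
    simp only [cub, map_zero] at this
    linarith
  · have := cub_le_cub (a := a) (a' := 0) (μ := 1) (y := y) fun s hs => by
      simpa [cub] using h y hy s hs
    simpa using this

lemma cub_kap_nonneg {a : E m →L[ℝ] E m →L[ℝ] ℝ}
    (h : ∀ y : E m, y 0 = 0 → ∀ s, 0 < s → 0 ≤ cub a y s) : 0 ≤ kap a := by
  rw [kap_split]
  exact add_nonneg (cub_facts h).1
    (Finset.sum_nonneg fun j _ => (cub_facts h).2 _ (e_succ_zero j))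

lemma eq_zero_of_kap {a : E m →L[ℝ] E m →L[ℝ] ℝ} (hs : ∀ x y, a x y = a y x)
    (h : ∀ y : E m, y 0 = 0 → ∀ s, 0 < s → 0 ≤ cub a y s) (hk : kap a = 0) : a = 0 := by
  obtain ⟨h1, h2⟩ := cub_facts h
  rw [kap_split] at hk
  have h3 : 0 ≤ ∑ j : Fin (m + 1), a (e j.succ) (e j.succ) :=
    Finset.sum_nonneg fun j _ => h2 _ (e_succ_zero j)
  have z0 : a (e 0) (e 0) = 0 := by linarith
  have zj : ∀ j : Fin (m + 1), a (e j.succ) (e j.succ) = 0 := fun j =>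
    (Finset.sum_eq_zero_iff_of_nonneg fun j _ => h2 _ (e_succ_zero j)).1 (by linarith) j
      (Finset.mem_univ j)
  have z0j : ∀ j : Fin (m + 1), a (e 0) (e j.succ) = 0 := fun j => by
    have p1 := h (e j.succ) (e_succ_zero j) 1 one_pos
    have p2 := h (-e j.succ) (by simp [e_succ_zero]) 1 one_pos
    simp only [cub, map_neg, neg_apply, neg_neg, z0, zj] at p1 p2
    linarith
  have zij : ∀ i j : Fin (m + 1), a (e i.succ) (e j.succ) = 0 := fun i j => by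
    have p1 := h2 (e i.succ + e j.succ) (by simp [e_succ_zero])
    have p2 := h2 (e i.succ - e j.succ) (by simp [e_succ_zero])
    simp only [map_add, map_sub, add_apply, sub_apply, zj, hs (e j.succ) (e i.succ)] at p1 p2
    linarith
  have all : ∀ i j, a (e i) (e j) = 0 := fun i j => by
    refine Fin.cases ?_ (fun i => ?_) i <;> refine Fin.cases ?_ (fun j => ?_) j
    · exact z0
    · exact z0j j
    · rw [hs]; exact z0j i
    · exact zij i j
  ext x y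
  rw [← sum_x_a a x y]
  refine Finset.sum_eq_zero fun i _ => ?_
  rw [clm_sum (a (e i)) y]
  simp [all]

lemma Jet.Lap_zero (J : Jet f) : Lap f 0 = 0 := by
  unfold Lap
  rw [Fin.sum_univ_succ, J.d1, zero_add]
  exact Finset.sum_eq_zero fun j _ =>
    bottom_D (contDiff_D J.sm _) (bottom_D J.sm J.bd j) j 0 rfl (by simp)

lemma Jet.kap_eq (J : Jet f) : kap (hess (D 0 f)) = D 0 (Lap f) 0 := by
  rw [kap_hess (contDiff_D J.sm 0), D_Lap J.sm]

end Pool.Agent.Work.MP_a60953_an.Pos
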