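import Pool.Agent.Work.MP_a60953_an.Pos.Jet

/-! The cubic parts of `u` and `v` when `u_tt(0) = 0`. -/

open scoped ContDiff Topology
open Set Filter

noncomputable section

namespace Pool.Agent.Work.MP_a60953_an.Pos

variable {m : ℕ} {f u v : E m → ℝ}

lemma Dt_bottom (hf : ContDiff ℝ ∞ f) (hb : ∀ x, x 0 = 0 → rho x < 1 → f x = 0)
    (h : ∀ x ∈ Om m, 0 ≤ f x) {x : E m} (h0 : x 0 = 0) (h1 : rho x < 1) : 0 ≤ D 0 f x := by
  have hd := hasDerivAt_pt hf x 0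
  have e1 : pt x 0 = x := by rw [← h0, pt_self]
  rw [e1] at hd
  exact deriv_nonneg_right hd (by simpa [e1] using hb x h0 h1) fun t ht =>
    h _ (pt_mem h1 ht.1 ht.2)

lemma Dtt_nonneg (hf : ContDiff ℝ ∞ f) (hb : f 0 = 0) (h : ∀ x ∈ Om m, 0 ≤ f x)
    (h0 : D 0 f 0 = 0) : 0 ≤ D 0 (D 0 f) 0 := by
  by_contra hneg
  have hd : D 0 (D 0 f) 0 < 0 := not_le.1 hneg
  have h1 := hasDerivAt_pt (contDiff_D hf 0) 0 0
  rw [pt_zero_zero] at h1
  have h2 := (slope_right h1 (by simpa using h0)).eventually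
    (gt_mem_nhds (show D 0 (D 0 f) 0 < D 0 (D 0 f) 0 / 2 by linarith))
  obtain ⟨δ, hδ, hall⟩ := (nhdsGT_basis (0 : ℝ)).eventually_iff.1
    (h2.and (Ioo_mem_nhdsGT (zero_lt_one' ℝ)))
  have key : ∀ ξ ∈ Ioo (0 : ℝ) δ, D 0 f (pt 0 ξ) ≤ D 0 (D 0 f) 0 / 2 * ξ := fun ξ hξ =>
    ((div_lt_iff₀ hξ.1).1 (hall hξ).1).le
  have a1 := mvt_le (hasDerivAt_pt hf 0) (α := 0) (β := δ / 4) (μ := 0) (by linarith)
    fun ξ hξ => (key ξ ⟨hξ.1, by linarith [hξ.2]⟩).trans (by nlinarith [hξ.1])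
  have a2 := mvt_le (hasDerivAt_pt hf 0) (α := δ / 4) (β := δ / 2)
    (μ := D 0 (D 0 f) 0 / 2 * (δ / 4)) (by linarith)
    fun ξ hξ => (key ξ ⟨by linarith [hξ.1], by linarith [hξ.2]⟩).trans (by nlinarith [hξ.1])
  have a3 := h _ (pt_mem (x := 0) (by simp) (half_pos hδ)
    (hall (show δ / 2 ∈ Ioo 0 δ from ⟨half_pos hδ, by linarith⟩)).2.2)
  simp only [pt_zero_zero, hb] at a1
  nlinarith [mul_pos hδ hδ]

lemma Hyp.v_bottom (H : Hyp u v) (x : E m) (h0 : x 0 = 0) (h1 : rho x < 1) : v x = 0 := by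
  have a1 := nonneg_bottom H.sv.continuous (fun z hz => (H.vpos z hz).le) h0 h1
  have a2 := H.W_bottom h0 h1
  rw [H.bd x h0 h1] at a2
  linarith

lemma Hyp.W_bd (H : Hyp u v) (x : E m) (h0 : x 0 = 0) (h1 : rho x < 1) : u x - v x = 0 := by
  rw [H.bd x h0 h1, H.v_bottom x h0 h1, sub_zero]

lemma Hyp.jet_u (H : Hyp u v) (h2 : D 0 (D 0 u) 0 = 0) : Jet u :=
  ⟨H.su, H.bd, H.ut0, fun i => Fin.cases h2
    (fun j => bottom_min (contDiff_D H.su 0) (fun _ => H.ut_bottom) H.ut0 j) i⟩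

lemma Hyp.jet_v (H : Hyp u v) (h2 : D 0 (D 0 u) 0 = 0) : Jet v := by
  have pv : ∀ x ∈ Om m, 0 ≤ v x := fun x hx => (H.vpos x hx).le
  have pW : ∀ x ∈ Om m, 0 ≤ u x - v x := fun x hx => sub_nonneg.2 (H.le x hx)
  have a1 := Dt_bottom H.sv H.v_bottom pv (x := 0) rfl (by simp)
  have a2 := Dt_bottom H.sW H.W_bd pW (x := 0) rfl (by simp)
  rw [D_sub H.su H.sv] at a2
  have d0 : D 0 v 0 = 0 := by
    have := H.ut0
    simp only at a2
    linarith
  refine ⟨H.sv, H.v_bottom, d0, fun i => Fin.cases ?_ (fun j => bottom_min (contDiff_D H.sv 0)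
    (fun _ => Dt_bottom H.sv H.v_bottom pv) d0 j) i⟩
  have b1 := Dtt_nonneg H.sv (H.v_bottom 0 rfl (by simp)) pv d0
  have b2 := Dtt_nonneg H.sW (H.W_bd 0 rfl (by simp)) pW
    (by rw [D_sub H.su H.sv]; simp [H.ut0, d0])
  rw [D_sub H.su H.sv, D_sub (contDiff_D H.su 0) (contDiff_D H.sv 0)] at b2
  simp only at b2
  linarith

lemma Jet.sub (Ju : Jet u) (Jv : Jet v) : Jet fun x => u x - v x :=
  ⟨Ju.sm.sub Jv.sm, fun x h0 h1 => by rw [Ju.bd x h0 h1, Jv.bd x h0 h1, sub_zero],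
    by rw [D_sub Ju.sm Jv.sm]; simp [Ju.d0, Jv.d0], fun i => by
      rw [D_sub Ju.sm Jv.sm, D_sub (contDiff_D Ju.sm 0) (contDiff_D Jv.sm 0)]
      simp [Ju.d1, Jv.d1]⟩

lemma kap_sub (Ju : Jet u) (Jv : Jet v) :
    kap (hess (D 0 fun x => u x - v x)) = kap (hess (D 0 u)) - kap (hess (D 0 v)) := by
  rw [kap_hess (contDiff_D (Ju.sm.sub Jv.sm) 0), kap_hess (contDiff_D Ju.sm 0),
    kap_hess (contDiff_D Jv.sm 0), D_sub Ju.sm Jv.sm,
    Lap_sub (contDiff_D Ju.sm 0) (contDiff_D Jv.sm 0)]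

lemma Hyp.psd (H : Hyp u v) (h2 : D 0 (D 0 u) 0 = 0) (x : E m) : 0 ≤ hess (D 0 u) x x := by
  obtain ⟨C, hC0, hC⟩ := taylor2 (contDiff_D H.su 0) H.ut0 (H.jet_u h2).d1
  have key : ∀ x : E m, 0 ≤ x 0 → 0 ≤ hess (D 0 u) x x := fun x hx => by
    have := nonneg_limit (F := fun t => hess (D 0 u) x x / 2 + C * ‖x‖ ^ 3 * t) (by fun_prop) (by
      filter_upwards [small_smul x] with t ht
      have h1 := (abs_le.1 (hC (t • x) ht.2.le)).2
      have h3 : 0 ≤ D 0 u (t • x) := by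
        rcases hx.eq_or_lt with h | h
        · exact H.ut_bottom (by simp [← h]) (rho_lt_of_norm ht.2)
        · exact (H.ut _ (mem_Om_of_norm (by simpa using mul_pos ht.1 h) ht.2)).le
      simp only [phi, map_smul, smul_apply, smul_eq_mul, norm_smul, Real.norm_eq_abs,
        abs_of_pos ht.1] at h1
      refine nonneg_of_mul_nonneg_right (a := t ^ 2) ?_ (pow_pos ht.1 2)
      nlinarith)
    linarith
  rcases le_total 0 (x 0) with h | h
  · exact key x h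
  · simpa using key (-x) (by simpa using h)

lemma Hyp.Lap_grad (H : Hyp u v) (h2 : D 0 (D 0 u) 0 = 0) (j : Fin (m + 1)) :
    D j.succ (Lap u) 0 = D j.succ (Lap v) 0 := by
  obtain ⟨M, hM0, hM⟩ := H.exists_M
  have hb : ∀ x : E m, x 0 = 0 → rho x < 1 → 0 ≤ Lap v x - Lap u x := fun x h0 h1 => by
    have := nonneg_bottom (f := fun z => Lap v z - Lap u z + M * z 0)
      (((contDiff_Lap H.sv).sub (contDiff_Lap H.su)).continuous.add
        (continuous_const.mul (continuous_coord 0))) (fun z hz => by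
      obtain ⟨τ, a0, a1, -, a3⟩ := H.tau hz
      have := hM z hz τ a0 a1 a3
      rw [Lap_sub H.su H.sv] at this
      nlinarith) h0 h1
    simpa [h0] using this
  have := bottom_min ((contDiff_Lap H.sv).sub (contDiff_Lap H.su)) hb
    (by simp [(H.jet_u h2).Lap_zero, (H.jet_v h2).Lap_zero]) j
  rw [D_sub (contDiff_Lap H.sv) (contDiff_Lap H.su)] at this
  simp only at this
  linarith

lemma fderiv_pt (g : E m → ℝ) (y : E m) (s : ℝ) :
    fderiv ℝ g 0 (pt y s) = ∑ j : Fin (m + 1), y j.succ * D j.succ g 0 + s * D 0 g 0 := by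
  rw [clm_sum, Fin.sum_univ_succ]
  simp only [pt_zero, pt_succ, D]
  ring

lemma Hyp.tau_le (H : Hyp u v) (h2 : D 0 (D 0 u) 0 = 0) : ∃ C : ℝ, 0 ≤ C ∧
    ∀ (y : E m) (s τ : ℝ), ‖pt y s‖ < 1 → 0 < τ → τ ≤ s →
      Lap u (pt y τ) ≤ Lap v (pt y s) →
      kap (hess (D 0 u)) * τ ≤ kap (hess (D 0 v)) * s + C * ‖pt y s‖ ^ 2 := by
  obtain ⟨C1, c1, h1⟩ := taylor1 (contDiff_Lap H.su)
  obtain ⟨C2, c2, h3⟩ := taylor1 (contDiff_Lap H.sv)
  refine ⟨C1 + C2, by positivity, fun y s τ hn t0 t1 hle => ?_⟩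
  have n1 : ‖pt y τ‖ ≤ ‖pt y s‖ :=
    norm_pt_mono y (by rw [abs_of_pos t0, abs_of_pos (t0.trans_le t1)]; exact t1)
  have a1 := (abs_le.1 (h1 (pt y τ) (n1.trans hn.le))).1
  have a2 := (abs_le.1 (h3 (pt y s) hn.le)).2
  simp only [fderiv_pt, (H.jet_u h2).Lap_zero, (H.jet_v h2).Lap_zero, H.Lap_grad h2] at a1 a2
  rw [(H.jet_u h2).kap_eq, (H.jet_v h2).kap_eq]
  have a3 := mul_le_mul_of_nonneg_left (pow_le_pow_left₀ (norm_nonneg _) n1 2) c1
  linarith

lemma kap_ge {a : E m →L[ℝ] E m →L[ℝ] ℝ} (psd : ∀ x, 0 ≤ a x x) : a (e 0) (e 0) ≤ kap a := by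
  rw [kap_split]
  exact le_add_of_nonneg_right (Finset.sum_nonneg fun j _ => psd _)

lemma Hyp.kap_cases (H : Hyp u v) (h2 : D 0 (D 0 u) 0 = 0)
    (hc : 0 < hess (D 0 u) (e 0) (e 0)) :
    kap (hess (D 0 v)) = 0 ∨ kap (hess (D 0 v)) = kap (hess (D 0 u)) := by
  have Ju := H.jet_u h2
  have Jv := H.jet_v h2
  set a := hess (D 0 u) with ha
  set a' := hess (D 0 v) with ha'
  have hκ : 0 < kap a := hc.trans_le (kap_ge (H.psd h2))
  have k0 : 0 ≤ kap a' :=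
    cub_kap_nonneg fun y hy s hs => Jv.cub_nonneg (fun x hx => (H.vpos x hx).le) hy hs
  have k1 : kap a' ≤ kap a := by
    have := cub_kap_nonneg fun y hy s hs =>
      (Ju.sub Jv).cub_nonneg (fun x hx => sub_nonneg.2 (H.le x hx)) hy hs
    rw [kap_sub Ju Jv] at this
    linarith
  set μ := kap a' / kap a with hμ
  have μ0 : 0 ≤ μ := by positivity
  have μ1 : μ ≤ 1 := (div_le_one hκ).2 k1
  have μκ : μ * kap a = kap a' := by rw [hμ]; field_simp
  obtain ⟨C, C0, hC⟩ := H.tau_le h2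
  obtain ⟨Cu, Cu0, hCu⟩ := Ju.cubic
  obtain ⟨Cv, Cv0, hCv⟩ := Jv.cubic
  have main : ∀ y : E m, y 0 = 0 → ∀ s, 0 < s → cub a' y s ≤ cub a y (μ * s) := by
    intro y hy s hs
    set K := C * ‖pt y s‖ ^ 2 / kap a with hK
    have K0 : 0 ≤ K := by positivity
    have cpt : Continuous fun t : ℝ => pt y (μ * s + K * t) := by unfold pt; fun_prop
    have := nonneg_limit (F := fun t => cub a y (μ * s + K * t) +
        Cu * ‖pt y (μ * s + K * t)‖ ^ 4 * t + Cv * ‖pt y s‖ ^ 4 * t - cub a' y s)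
      (by unfold cub; fun_prop) (by
      have ev : ∀ᶠ t : ℝ in 𝓝 0, ‖t • pt y (μ * s + K * t)‖ < 1 :=
        ContinuousAt.eventually_lt (by fun_prop) continuousAt_const (by simp)
      filter_upwards [small_smul (pt y s), ev.filter_mono nhdsWithin_le_nhds] with t ht ht2
      have ty : (t • y) 0 = 0 := by simp [hy]
      have hO : pt (t • y) (t * s) ∈ Om m := by
        rw [pt_smul]; exact mem_Om_of_norm (by simpa using mul_pos ht.1 hs) ht.2
      obtain ⟨τ, t0, t1, e1, e2⟩ := H.tau hO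
      have pp1 : ∀ σ, pt (pt (t • y) (t * s)) σ = pt (t • y) σ := fun σ => by simp [pt]
      rw [pp1] at e1 e2
      rw [pt_zero] at t1
      have b1 := hC (t • y) (t * s) τ (by rw [pt_smul]; exact ht.2) t0 t1 e2
      rw [pt_smul, norm_smul, Real.norm_eq_abs, abs_of_pos ht.1, ← ha, ← ha'] at b1
      have b2 : τ ≤ t * (μ * s + K * t) := by
        refine le_of_mul_le_mul_left (b1.trans (le_of_eq ?_)) hκ
        rw [← μκ, hK]
        field_simp
      have T0 : 0 ≤ t * (μ * s + K * t) := t0.le.trans b2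
      have nT : ‖pt (t • y) (t * (μ * s + K * t))‖ < 1 := by rw [pt_smul]; exact ht2
      have b3 := H.mono (x := t • y) (by simpa using rho_lt_of_norm nT) t0.le b2 (by
        have := (le_abs_self _).trans (abs_coord_le (pt (t • y) (t * (μ * s + K * t))) 0)
        rw [pt_zero] at this
        linarith)
      have b4 := (abs_le.1 (hCu (t • y) _ ty T0 nT)).2
      have b5 := (abs_le.1 (hCv (t • y) (t * s) ty (mul_pos ht.1 hs).le
        (by rw [pt_smul]; exact ht.2))).1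
      rw [cub_smul] at b4 b5
      rw [pt_smul y s t, norm_smul, Real.norm_eq_abs, abs_of_pos ht.1] at b5
      rw [pt_smul y s t] at e1
      rw [show ‖pt (t • y) (t * (μ * s + K * t))‖ = t * ‖pt y (μ * s + K * t)‖ by
        rw [pt_smul, norm_smul, Real.norm_eq_abs, abs_of_pos ht.1]] at b4
      refine nonneg_of_mul_nonneg_right (a := t ^ 3) ?_ (pow_pos ht.1 3)
      nlinarith)
    simpa using this
  have c1 : a' (e 0) (e 0) ≤ μ ^ 3 * a (e 0) (e 0) := by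
    have := main 0 rfl 1 one_pos
    simp only [cub, map_zero] at this
    linarith
  have c2 : ∑ j : Fin (m + 1), a' (e j.succ) (e j.succ) ≤
      μ * ∑ j : Fin (m + 1), a (e j.succ) (e j.succ) := by
    rw [Finset.mul_sum]
    exact Finset.sum_le_sum fun j _ => cub_le_cub (main _ (e_succ_zero j))
  have c3 : μ * a (e 0) (e 0) ≤ μ ^ 3 * a (e 0) (e 0) := by
    have s1 := kap_split a
    have s2 := kap_split a'
    rw [s1] at μκ
    linarith
  have c4 : μ ≤ μ ^ 3 := le_of_mul_le_mul_right c3 hc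
  rcases μ0.eq_or_lt with h | h
  · left; rw [← μκ, ← h, zero_mul]
  · right
    have : 1 ≤ μ := by
      by_contra hlt
      have hlt' : μ < 1 := not_le.1 hlt
      nlinarith [mul_pos h (sub_pos.2 hlt'), mul_pos h h]
    rw [← μκ, le_antisymm μ1 this, one_mul]

end Pool.Agent.Work.MP_a60953_an.Pos
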