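import Pool.Agent.Work.MP_a60953_an.Pos.Main
import Mathlib.Analysis.Calculus.IteratedDeriv.Lemmas

/-! The Hopf-lemma variant for the Laplacian holds in every dimension `n = m + 2 ≥ 2` as soon as
`t ↦ u(t, 0)` vanishes to order two or three at `t = 0`. A point `x` of `ℝ^n` is `(t, y)` with
`t = x 0` and `y = (x 1, …, x (n-1))`. -/

open scoped Laplacian ContDiff

namespace Pool.Agent.Work.MP_a60953_an.Pos.LowOrder

/-- The cylinder `Ω = {(t, y) : |y| < 1, 0 < t < 1}` in `ℝ^(m+2)`. -/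
def Omega (m : ℕ) : Set (EuclideanSpace ℝ (Fin (m + 2))) :=
  {x | ∑ j : Fin (m + 1), x j.succ ^ 2 < 1 ∧ 0 < x 0 ∧ x 0 < 1}

open Pool.Agent.Work.MP_a60953_an.Pos in
theorem low_order (m : ℕ) (u v : EuclideanSpace ℝ (Fin (m + 2)) → ℝ)
    (hu : ContDiff ℝ ∞ u) (hv : ContDiff ℝ ∞ v)
    (h1 : ∀ x ∈ Omega m, v x ≤ u x)
    (h2 : ∀ x ∈ Omega m, 0 < u x ∧ 0 < v x ∧ 0 < lineDeriv ℝ u x (EuclideanSpace.single 0 1))
    (h3 : ∀ x : EuclideanSpace ℝ (Fin (m + 2)),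
      x 0 = 0 → ∑ j : Fin (m + 1), x j.succ ^ 2 < 1 → u x = 0)
    (h4 : ∀ x ∈ Omega m, ∀ z ∈ Omega m, (∀ j : Fin (m + 1), x j.succ = z j.succ) → x 0 ≤ z 0 →
      u x = v z → Laplacian.laplacian u x ≤ Laplacian.laplacian v z)
    (h5 : lineDeriv ℝ u 0 (EuclideanSpace.single 0 1) = 0)
    (h6 : iteratedDeriv 2 (fun t : ℝ => u (EuclideanSpace.single 0 t)) 0 ≠ 0 ∨
      iteratedDeriv 3 (fun t : ℝ => u (EuclideanSpace.single 0 t)) 0 ≠ 0) :
    ∀ x ∈ Omega m, u x = v x := by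
  rw [iter2_axis hu, iter3_axis hu] at h6
  refine Hyp.main ⟨hu, hv, h1, fun x hx => (h2 x hx).2.1, fun x hx => ?_, h3,
    fun x hx τ t0 t1 e1 => ?_, ?_⟩ h6
  · rw [← lineDeriv_eq hu]; exact (h2 x hx).2.2
  · rw [← laplacian_eq hu, ← laplacian_eq hv]
    exact h4 _ (pt_mem hx.1 t0 (t1.trans_lt hx.2.2)) x hx (fun j => pt_succ x τ j)
      (by simpa using t1) e1
  · rw [← lineDeriv_eq hu]; exact h5

/-- Smooth functions that agree on `[0, 1)` have the same derivatives at `0`. -/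
lemma jet_eq {f g : ℝ → ℝ} (hf : ContDiff ℝ ∞ f) (hg : ContDiff ℝ ∞ g)
    (h : ∀ t ∈ Set.Ico (0 : ℝ) 1, f t = g t) (j : ℕ) :
    iteratedDeriv j f 0 = iteratedDeriv j g 0 := by
  have hcl : IsClosed {x : ℝ | iteratedDeriv j f x = iteratedDeriv j g x} :=
    isClosed_eq (hf.continuous_iteratedDeriv j (nat_le_infty j))
      (hg.continuous_iteratedDeriv j (nat_le_infty j))
  have hsub : Set.Ioo (0 : ℝ) 1 ⊆ {x : ℝ | iteratedDeriv j f x = iteratedDeriv j g x} :=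
    Set.EqOn.iteratedDeriv_of_isOpen (fun t ht => h t (Set.Ioo_subset_Ico_self ht)) isOpen_Ioo j
  refine hcl.closure_subset_iff.2 hsub ?_
  rw [closure_Ioo zero_ne_one]
  exact ⟨le_rfl, zero_le_one⟩

end Pool.Agent.Work.MP_a60953_an.Pos.LowOrder
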