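import Pool.Agent.Work.MP_a60953_an.Pos.MuZero
import Mathlib.Analysis.Calculus.IteratedDeriv.Defs

/-! Assembly. -/

open scoped ContDiff Topology
open Set Filter

noncomputable section

namespace Pool.Agent.Work.MP_a60953_an.Pos

variable {m : ℕ} {f u v : E m → ℝ}

theorem Hyp.main (H : Hyp u v) (h : D 0 (D 0 u) 0 ≠ 0 ∨ D 0 (D 0 (D 0 u)) 0 ≠ 0) :
    ∀ x ∈ Om m, u x = v x := by
  rcases H.smp with h0 | hpos
  · exact h0
  exfalso
  by_cases h2 : D 0 (D 0 u) 0 = 0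
  swap
  · exact H.order_two h2 hpos
  have h3 : D 0 (D 0 (D 0 u)) 0 ≠ 0 := h.resolve_left (not_not.2 h2)
  have hc : 0 < hess (D 0 u) (e 0) (e 0) :=
    lt_of_le_of_ne (H.psd h2 _) (by rw [hess_e (contDiff_D H.su 0)]; exact h3.symm)
  rcases H.kap_cases h2 hc with hk | hk
  · exact H.kap_ne_zero h2 hc hk
  · exact H.cone_false h2 hc hk hpos

lemma single_eq (t : ℝ) : (EuclideanSpace.single 0 t : E m) = pt 0 t := by
  ext i
  by_cases h : i = 0 <;> simp [pt, e, h]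

lemma deriv_axis (hf : ContDiff ℝ ∞ f) :
    deriv (fun t : ℝ => f (pt 0 t)) = fun t => D 0 f (pt 0 t) :=
  funext fun t => (hasDerivAt_pt hf 0 t).deriv

lemma iter2_axis (hf : ContDiff ℝ ∞ f) :
    iteratedDeriv 2 (fun t : ℝ => f (EuclideanSpace.single 0 t)) 0 = D 0 (D 0 f) 0 := by
  simp only [single_eq]
  rw [iteratedDeriv_succ', iteratedDeriv_one, deriv_axis hf, deriv_axis (contDiff_D hf 0)]
  simp

lemma iter3_axis (hf : ContDiff ℝ ∞ f) :
    iteratedDeriv 3 (fun t : ℝ => f (EuclideanSpace.single 0 t)) 0 = D 0 (D 0 (D 0 f)) 0 := by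
  rw [← iter2_axis (contDiff_D hf 0)]
  simp only [single_eq]
  rw [iteratedDeriv_succ', deriv_axis hf]

lemma lineDeriv_eq (hf : ContDiff ℝ ∞ f) (x : E m) :
    lineDeriv ℝ f x (EuclideanSpace.single 0 1) = D 0 f x :=
  (diff hf x).lineDeriv_eq_fderiv

lemma pt_eq {x z : E m} (h : ∀ j : Fin (m + 1), x j.succ = z j.succ) : pt z (x 0) = x := by
  ext i
  refine Fin.cases ?_ (fun j => ?_) i
  · simp
  · simp [h j]

end Pool.Agent.Work.MP_a60953_an.Pos
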