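import Pool.Agent.Work.MP_a60953_an.Pos.Hyp
import Mathlib.Analysis.SpecialFunctions.Pow.Continuity

/-! Two one-variable lemmas. -/

open scoped Topology
open Set Filter

namespace Pool.Agent.Work.MP_a60953_an.Pos

/-- A positive function that is `O(s^4)` has points near `0` with `g'' ≤ ε g^(1/3)`. -/
lemma touch {g g1 g2 : ℝ → ℝ} (d0 : ∀ s, HasDerivAt g (g1 s) s) (d1 : ∀ s, HasDerivAt g1 (g2 s) s)
    {C : ℝ} (hC : 0 ≤ C) (h : ∀ s ∈ Ioo (0 : ℝ) 1, 0 < g s ∧ g s ≤ C * s ^ 4) {ε s0 : ℝ}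
    (hε : 0 < ε) (hs0 : 0 < s0) : ∃ s ∈ Ioo 0 s0, ∃ γ, 0 < γ ∧ γ ^ 3 = g s ∧ g2 s ≤ ε * γ := by
  set K0 := 81 * C + 1 with hK0
  have K1 : 1 ≤ K0 := by linarith
  have ev : ∀ᶠ σ : ℝ in 𝓝 0, 3 * σ ^ 3 < s0 ∧ 3 * σ ^ 3 < 1 ∧ 108 * K0 ^ 2 * σ ^ 2 < ε := by
    refine Eventually.and ?_ (Eventually.and ?_ ?_)
    · exact ContinuousAt.eventually_lt (by fun_prop) continuousAt_const (by simpa using hs0)
    · exact ContinuousAt.eventually_lt (by fun_prop) continuousAt_const (by simp)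
    · exact ContinuousAt.eventually_lt (by fun_prop) continuousAt_const (by simpa using hε)
  obtain ⟨σ, ⟨r1, r2, r3⟩, σ0⟩ :=
    ((ev.filter_mono (nhdsWithin_le_nhds (s := Ioi 0))).and self_mem_nhdsWithin).exists
  have σ0 : 0 < σ := σ0
  have σ3 : 0 < σ ^ 3 := by positivity
  set G : ℝ → ℝ := fun s => g s ^ ((3 : ℕ) : ℝ)⁻¹ with hG
  have inI : ∀ s ∈ Icc (σ ^ 3) (3 * σ ^ 3), s ∈ Ioo (0 : ℝ) 1 := fun s hs =>
    ⟨σ3.trans_le hs.1, hs.2.trans_lt r2⟩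
  have G3 : ∀ s ∈ Icc (σ ^ 3) (3 * σ ^ 3), G s ^ 3 = g s := fun s hs =>
    Real.rpow_inv_natCast_pow (h s (inI s hs)).1.le (by norm_num)
  have G0 : ∀ s ∈ Icc (σ ^ 3) (3 * σ ^ 3), 0 < G s := fun s hs =>
    Real.rpow_pos_of_pos (h s (inI s hs)).1 _
  have Gle : ∀ s ∈ Icc (σ ^ 3) (3 * σ ^ 3), G s ≤ K0 * σ ^ 4 := fun s hs => by
    refine le_of_pow_le_pow_left₀ (n := 3) (by norm_num) (by positivity) ?_
    rw [G3 s hs]
    refine (h s (inI s hs)).2.trans ?_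
    have a1 := mul_le_mul_of_nonneg_left (pow_le_pow_left₀ (inI s hs).1.le hs.2 4) hC
    have a2 : K0 ≤ K0 ^ 3 := le_self_pow₀ K1 (by norm_num)
    have a3 := mul_le_mul_of_nonneg_right (show 81 * C ≤ K0 ^ 3 by linarith)
      (by positivity : 0 ≤ σ ^ 12)
    calc C * s ^ 4 ≤ C * (3 * σ ^ 3) ^ 4 := a1
      _ = 81 * C * σ ^ 12 := by ring
      _ ≤ K0 ^ 3 * σ ^ 12 := a3
      _ = (K0 * σ ^ 4) ^ 3 := by ring
  set K := 2 * K0 / σ ^ 2 with hK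
  have Kσ : K * σ ^ 2 = 2 * K0 := by rw [hK]; field_simp
  have K0' : 0 < K := by positivity
  have gc : Continuous g := continuous_iff_continuousAt.2 fun s => (d0 s).continuousAt
  have hc : ContinuousOn (fun s => G s - K * (s - 2 * σ ^ 3) ^ 2) (Icc (σ ^ 3) (3 * σ ^ 3)) :=
    ((gc.rpow_const fun _ => Or.inr (by positivity)).sub (by fun_prop)).continuousOn
  obtain ⟨s, hs, hmax⟩ := isCompact_Icc.exists_isMaxOn
    (nonempty_Icc.2 (show σ ^ 3 ≤ 3 * σ ^ 3 by linarith)) hc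
  set lam := G s - K * (s - 2 * σ ^ 3) ^ 2 with hlam
  have mid : 2 * σ ^ 3 ∈ Icc (σ ^ 3) (3 * σ ^ 3) := ⟨by linarith, by linarith⟩
  have lam0 : 0 < lam := by
    have a1 : G (2 * σ ^ 3) - K * (2 * σ ^ 3 - 2 * σ ^ 3) ^ 2 ≤ lam := hmax mid
    have a2 := G0 _ mid
    simp only [sub_self] at a1
    linarith
  have Kend : K * (σ ^ 3) ^ 2 = 2 * (K0 * σ ^ 4) := by
    calc K * (σ ^ 3) ^ 2 = K * σ ^ 2 * σ ^ 4 := by ring
      _ = _ := by rw [Kσ]; ring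
  have p4 : 0 < K0 * σ ^ 4 := by positivity
  have hint : s ∈ Ioo (σ ^ 3) (3 * σ ^ 3) := by
    have a1 := Gle s hs
    refine ⟨lt_of_le_of_ne hs.1 fun e1 => ?_, lt_of_le_of_ne hs.2 fun e1 => ?_⟩
    · have : (s - 2 * σ ^ 3) ^ 2 = (σ ^ 3) ^ 2 := by rw [← e1]; ring
      rw [this, Kend] at hlam
      linarith
    · have : (s - 2 * σ ^ 3) ^ 2 = (σ ^ 3) ^ 2 := by rw [e1]; ring
      rw [this, Kend] at hlam
      linarith
  have hΘ : ∀ t, HasDerivAt (fun t => lam + K * (t - 2 * σ ^ 3) ^ 2) (K * (2 * (t - 2 * σ ^ 3))) t :=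
    fun t => by
      simpa using ((((hasDerivAt_id t).sub_const (2 * σ ^ 3)).fun_pow 2).const_mul K).const_add lam
  have hΘ1 : HasDerivAt (fun t => K * (2 * (t - 2 * σ ^ 3))) (K * 2) s := by
    simpa using (((hasDerivAt_id s).sub_const (2 * σ ^ 3)).const_mul 2).const_mul K
  have eΘ : lam + K * (s - 2 * σ ^ 3) ^ 2 = G s := by rw [hlam]; ring
  have key := second_nonneg_of_isLocalMin (t := s)
    (g := fun t => (lam + K * (t - 2 * σ ^ 3) ^ 2) ^ 3 - g t)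
    (g1 := fun t => 3 * (lam + K * (t - 2 * σ ^ 3) ^ 2) ^ 2 * (K * (2 * (t - 2 * σ ^ 3))) - g1 t)
    (d := 6 * G s * (K * (2 * (s - 2 * σ ^ 3))) ^ 2 + 3 * G s ^ 2 * (K * 2) - g2 s)
    (Eventually.of_forall fun t => by simpa using ((hΘ t).fun_pow 3).fun_sub (d0 t))
    (by
      refine (((((hΘ s).fun_pow 2).const_mul 3).fun_mul hΘ1).fun_sub (d1 s)).congr_deriv ?_
      simp only [eΘ]
      simp
      ring)
    (by
      filter_upwards [Icc_mem_nhds hint.1 hint.2] with t ht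
      have a1 : G t - K * (t - 2 * σ ^ 3) ^ 2 ≤ lam := hmax ht
      have a2 := pow_le_pow_left₀ (G0 t ht).le
        (show G t ≤ lam + K * (t - 2 * σ ^ 3) ^ 2 by linarith) 3
      simp only [eΘ, G3 s hs, sub_self]
      rw [G3 t ht] at a2
      linarith)
  refine ⟨s, ⟨(inI s hs).1, hs.2.trans_lt r1⟩, G s, G0 s hs, G3 s hs, ?_⟩
  have b1 : (K * (2 * (s - 2 * σ ^ 3))) ^ 2 ≤ 16 * K0 ^ 2 * σ ^ 2 := by
    have c1 : (s - 2 * σ ^ 3) ^ 2 ≤ (σ ^ 3) ^ 2 :=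
      sq_le_sq' (by linarith [hs.1]) (by linarith [hs.2])
    calc (K * (2 * (s - 2 * σ ^ 3))) ^ 2 = 4 * K ^ 2 * (s - 2 * σ ^ 3) ^ 2 := by ring
      _ ≤ 4 * K ^ 2 * (σ ^ 3) ^ 2 := mul_le_mul_of_nonneg_left c1 (by positivity)
      _ = 4 * (K * σ ^ 2) ^ 2 * σ ^ 2 := by ring
      _ = _ := by rw [Kσ]; ring
  have b2 : G s * K ≤ 2 * K0 ^ 2 * σ ^ 2 := by
    calc G s * K ≤ K0 * σ ^ 4 * K := mul_le_mul_of_nonneg_right (Gle s hs) K0'.le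
      _ = K0 * σ ^ 2 * (K * σ ^ 2) := by ring
      _ = _ := by rw [Kσ]; ring
  have g0 := (G0 s hs).le
  have b3 := mul_le_mul_of_nonneg_left b1 g0
  have b4 := mul_le_mul_of_nonneg_left b2 g0
  have b5 := mul_le_mul_of_nonneg_left r3.le g0
  linarith

lemma second_diff {k k1 k2 : ℝ → ℝ} (d0 : ∀ s, HasDerivAt k (k1 s) s)
    (d1 : ∀ s, HasDerivAt k1 (k2 s) s) {θ μ : ℝ} (hθ : 0 ≤ θ)
    (h : ∀ ξ ∈ Ioo (-θ) θ, μ ≤ k2 ξ) : μ * θ ^ 2 ≤ k θ + k (-θ) - 2 * k 0 := by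
  have hd : ∀ η, HasDerivAt (fun η => k η + k (-η) - μ * η ^ 2) (k1 η - k1 (-η) - μ * (2 * η)) η :=
    fun η => by
      have a1 : HasDerivAt (fun η => k (-η)) (k1 (-η) * -1) η := (d0 (-η)).comp η (hasDerivAt_neg η)
      refine (((d0 η).fun_add a1).fun_sub ((hasDerivAt_pow 2 η).const_mul μ)).congr_deriv ?_
      simp
      ring
  have := mvt_ge hd hθ (μ := 0) fun η hη => by
    have := mvt_ge d1 (α := -η) (β := η) (μ := μ) (by linarith [hη.1])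
      fun ξ hξ => h ξ ⟨by linarith [hξ.1, hη.2], by linarith [hξ.2, hη.2]⟩
    linarith
  simp only [neg_zero] at this
  linarith

end Pool.Agent.Work.MP_a60953_an.Pos
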