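import Pool.Agent.Work.MP_a60953_an.Pos.Cone
import Pool.Agent.Work.MP_a60953_an.Pos.Touch

/-! The cubic part of `v` cannot vanish. -/

open scoped ContDiff Topology
open Set Filter

noncomputable section

namespace Pool.Agent.Work.MP_a60953_an.Pos

variable {m : ℕ} {f u v : E m → ℝ}

lemma ord_unif {ι : Type*} [Fintype ι] {F : ι → E m → ℝ} {j : ℕ} (h : ∀ i, Ord j (F i)) :
    ∃ C : ℝ, 0 ≤ C ∧ ∀ i x, ‖x‖ ≤ 1 → |F i x| ≤ C * ‖x‖ ^ j := by
  choose C hC0 hC using h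
  refine ⟨∑ i, C i, Finset.sum_nonneg fun i _ => hC0 i, fun i x hx => (hC i x hx).trans ?_⟩
  exact mul_le_mul_of_nonneg_right
    (Finset.single_le_sum (fun i _ => hC0 i) (Finset.mem_univ i)) (by positivity)

lemma pt_e (j : Fin (m + 1)) (η s : ℝ) :
    pt (η • (e j.succ : E m)) s = pt 0 s + η • e j.succ := by
  simp [pt, e_succ_zero, add_comm]

lemma norm_pt_e (j : Fin (m + 1)) (η s : ℝ) : ‖pt (0 : E m) s + η • e j.succ‖ ≤ |s| + |η| := by
  refine (norm_add_le _ _).trans ?_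
  rw [norm_pt_axis, norm_smul, norm_e, mul_one, Real.norm_eq_abs]

lemma lip_line (hf : ContDiff ℝ ∞ f) (j : Fin (m + 1)) {C s θ η : ℝ} (hC : 0 ≤ C)
    (h : ∀ x, ‖x‖ ≤ 1 → |D j.succ f x| ≤ C * ‖x‖ ^ 1) (hs : 0 < s) (hs1 : 2 * s ≤ 1) (hθ : θ ≤ s)
    (hη : |η| ≤ θ) : |f (pt 0 s + η • e j.succ) - f (pt 0 s)| ≤ C * (2 * s) * θ := by
  have hb : ∀ ξ, |ξ| ≤ θ → |D j.succ f (pt 0 s + ξ • e j.succ)| ≤ C * (2 * s) := fun ξ hξ => by
    have a1 := norm_pt_e (m := m) j ξ s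
    rw [abs_of_pos hs] at a1
    refine (h _ (by linarith)).trans ?_
    rw [pow_one]
    exact mul_le_mul_of_nonneg_left (by linarith) hC
  have hd := hasDerivAt_D hf (pt 0 s) j.succ
  have c0 : 0 ≤ C * (2 * s) := by positivity
  obtain ⟨l, r⟩ := abs_le.1 hη
  rcases le_total 0 η with h0 | h0
  · have a1 := mvt_le hd h0 fun ξ hξ => (abs_le.1 (hb ξ (abs_le.2
      ⟨by linarith [hξ.1], by linarith [hξ.2]⟩))).2
    have a2 := mvt_ge hd h0 fun ξ hξ => (abs_le.1 (hb ξ (abs_le.2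
      ⟨by linarith [hξ.1], by linarith [hξ.2]⟩))).1
    have a3 := mul_le_mul_of_nonneg_left r c0
    simp only [zero_smul, add_zero, sub_zero] at a1 a2
    exact abs_le.2 ⟨by linarith, by linarith⟩
  · have a1 := mvt_le hd h0 fun ξ hξ => (abs_le.1 (hb ξ (abs_le.2
      ⟨by linarith [hξ.1], by linarith [hξ.2]⟩))).2
    have a2 := mvt_ge hd h0 fun ξ hξ => (abs_le.1 (hb ξ (abs_le.2
      ⟨by linarith [hξ.1], by linarith [hξ.2]⟩))).1
    have a3 := mul_le_mul_of_nonneg_left l c0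
    simp only [zero_smul, add_zero, zero_sub] at a1 a2
    exact abs_le.2 ⟨by linarith, by linarith⟩

lemma Jet.Lap_grad_zero (J : Jet f) (hz : hess (D 0 f) = 0) (j : Fin (m + 1)) :
    D j.succ (Lap f) 0 = 0 := by
  rw [D_Lap J.sm, Lap, Fin.sum_univ_succ, ← D_comm J.sm j.succ 0,
    ← hess_e (contDiff_D J.sm 0), hz]
  simp only [zero_apply, zero_add]
  exact Finset.sum_eq_zero fun i _ =>
    bottom_D (contDiff_D (contDiff_D J.sm _) _)
      (bottom_D (contDiff_D J.sm _) (bottom_D J.sm J.bd j) i) i 0 rfl (by simp)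

lemma tau_num {κ C1 C2 C3 M lam s h τ : ℝ} (h0 : 0 < h) (c1 : 0 ≤ C1) (τ0 : 0 < τ) (τ1 : τ ≤ s)
    (hh : h ≤ C3 * s ^ 2) (k : 0 < κ - 2 * C1 * s)
    (a : κ * τ - C1 * (τ + M * h) ^ 2 ≤ h + C2 * (2 * s) * (M * h))
    (b : 1 + 2 * C2 * M * s + 2 * C1 * M ^ 2 * (C3 * s ^ 2) < lam * (κ - 2 * C1 * s)) :
    τ ≤ lam * h := by
  have a1 : (τ + M * h) ^ 2 ≤ 2 * (τ * s) + 2 * (M ^ 2 * (C3 * s ^ 2) * h) := by
    have b1 := mul_le_mul_of_nonneg_left τ1 τ0.le
    have b2 := mul_le_mul_of_nonneg_right (mul_le_mul_of_nonneg_left hh (sq_nonneg M)) h0.le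
    linarith only [b1, b2, sq_nonneg (τ - M * h), sq_nonneg (τ - M * h)]
  have a2 := mul_le_mul_of_nonneg_left a1 c1
  have a3 := mul_le_mul_of_nonneg_right b.le h0.le
  refine le_of_mul_le_mul_right ?_ k
  linarith only [a, a2, a3]

theorem Hyp.kap_ne_zero (H : Hyp u v) (h2 : D 0 (D 0 u) 0 = 0)
    (hc : 0 < hess (D 0 u) (e 0) (e 0)) (hk : kap (hess (D 0 v)) = 0) : False := by
  have Ju := H.jet_u h2
  have Jv := H.jet_v h2
  obtain ⟨hz, Cg, cg, hg⟩ := Jv.quartic (fun x hx => (H.vpos x hx).le) hk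
  have gv := Jv.Lap_grad_zero hz
  have sL := contDiff_Lap H.sv
  obtain ⟨C1, c1, hLu⟩ := taylor1 (contDiff_Lap H.su)
  obtain ⟨C2, c2, hLv⟩ := ord_unif fun j : Fin (m + 1) => ord_one (contDiff_D sL j.succ) (gv j)
  obtain ⟨C3, c3, hh⟩ : Ord 2 (Lap v) := ord_succ sL Jv.Lap_zero fun i =>
    ord_one (contDiff_D sL i) (Fin.cases (by rw [← Jv.kap_eq, hk]) gv i)
  obtain ⟨C4, c4, hyyy⟩ := ord_unif fun j : Fin (m + 1) =>
    ord_one (contDiff_D (contDiff_D (contDiff_D H.sv j.succ) j.succ) j.succ)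
      (bottom_D (contDiff_D (contDiff_D H.sv _) _)
        (bottom_D (contDiff_D H.sv _) (bottom_D H.sv Jv.bd j) j) j 0 rfl (by simp))
  obtain ⟨Cu, cu, hCu⟩ := Ju.cubic
  have hκc := kap_ge (H.psd h2)
  have hκe := Ju.kap_eq
  set a := hess (D 0 u) with ha
  set c := a (e 0) (e 0) with hcdef
  set κ := kap a with hκdef
  have hκ : 0 < κ := hc.trans_le hκc
  obtain Lu : ∀ (y : E m) (τ : ℝ), ‖pt y τ‖ ≤ 1 → κ * τ - C1 * ‖pt y τ‖ ^ 2 ≤ Lap u (pt y τ) := by
    intro y τ hn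
    have := (abs_le.1 (hLu _ hn)).1
    simp only [fderiv_pt, Ju.Lap_zero, H.Lap_grad h2, gv, mul_zero, Finset.sum_const_zero,
      ← hκe] at this
    linarith only [this]
  set N : ℝ := (m : ℝ) + 1 with hN
  have N0 : 0 < N := by positivity
  set ε := c / (4 * κ) with hε
  have ε0 : 0 < ε := by positivity
  have εκ : ε * κ = c / 4 := by rw [hε]; field_simp
  set lam := (1 + ε) / κ with hlam
  have lam0 : 0 < lam := by positivity
  have lamκ : lam * κ = 1 + ε := by rw [hlam]; field_simp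
  set M := N * c * lam ^ 3 / ε + 1 with hM
  obtain M1 : 1 ≤ M := by
    clear * - N c lam ε m hc κ hκ M
    have : 0 ≤ N * c * lam ^ 3 / ε := by positivity
    linarith only [this]
  obtain Mε : N * c * lam ^ 3 < ε * M ^ 2 := by
    clear * - ε M N c lam hM ε0 N0 hc lam0 M1 κ m
    have b1 : ε * M = N * c * lam ^ 3 + ε := by rw [hM]; field_simp
    have b2 : ε * M ≤ ε * M ^ 2 := mul_le_mul_of_nonneg_left (le_self_pow₀ M1 two_ne_zero) ε0.le
    linarith only [ε0, b1, b2]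
  obtain lamc : lam * (κ - c) ≤ 1 - 3 * ε := by
    have b1 : lam * c = 4 * ε * (1 + ε) := by rw [← lamκ, hε]; field_simp
    linarith only [b1, lamκ, sq_nonneg ε]
  set C5 := (c / 6 + Cu) * (2 / κ) ^ 3 + 1 with hC5
  obtain C51 : 1 ≤ C5 := by
    have : 0 ≤ (c / 6 + Cu) * (2 / κ) ^ 3 := by positivity
    linarith only [hC5, this]
  obtain ev : ∀ᶠ s : ℝ in 𝓝 0, 2 * s < 1 ∧ 2 * C1 * s < κ / 2 ∧ M * C3 * s < 1 ∧
      (lam + M) * (C3 * s ^ 2) < 1 ∧
      1 + 2 * C2 * M * s + 2 * C1 * M ^ 2 * (C3 * s ^ 2) < lam * (κ - 2 * C1 * s) ∧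
      lam * (κ - c) * M ^ 2 + N * c * lam ^ 3 / 3 + 2 * N * Cu * (lam + M) ^ 4 * (C3 * s ^ 2) +
        2 * N * C4 * M ^ 3 * s < M ^ 2 * (1 - ε) := by
    clear * - C1 κ M C3 lam C2 c N Cu C4 ε hκ lamκ ε0 lamc m hc Mε
    refine Eventually.and ?_ (Eventually.and ?_ (Eventually.and ?_ (Eventually.and ?_
      (Eventually.and ?_ ?_))))
    · exact ContinuousAt.eventually_lt (by fun_prop) continuousAt_const (by simp)
    · exact ContinuousAt.eventually_lt (by fun_prop) continuousAt_const (by simpa using hκ)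
    · exact ContinuousAt.eventually_lt (by fun_prop) continuousAt_const (by simp)
    · exact ContinuousAt.eventually_lt (by fun_prop) continuousAt_const (by simp)
    · exact ContinuousAt.eventually_lt (by fun_prop) (by fun_prop) (by simp [lamκ, ε0])
    · refine ContinuousAt.eventually_lt (by fun_prop) continuousAt_const ?_
      have b1 := mul_le_mul_of_nonneg_right lamc (sq_nonneg M)
      have b2 : 0 ≤ N * c * lam ^ 3 := by positivity
      simp only [mul_zero, ne_eq, OfNat.ofNat_ne_zero, not_false_eq_true, zero_pow, add_zero]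
      linarith only [Mε, b1, b2]
  obtain ⟨s0, s00, hall⟩ := Metric.eventually_nhds_iff.1 ev
  obtain ⟨s, hs, γ, γ0, γ3, hγ⟩ := touch (hasDerivAt_pt H.sv 0)
    (hasDerivAt_pt (contDiff_D H.sv 0) 0) cg (fun s hs => ⟨H.vpos _ (pt_mem (by simp) hs.1 hs.2),
      by simpa [norm_pt_axis, abs_of_pos hs.1] using (hg (pt 0 s) (by simpa using hs.1.le)
        (by rw [norm_pt_axis, abs_of_pos hs.1]; exact hs.2))⟩)
    (ε := ε / C5) (by clear * - ε C5 c κ hc hκ Cu cu s00; positivity) s00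
  obtain ⟨r1, r2, r3, r4, r5, r6⟩ := hall (y := s) (by simpa [abs_of_pos hs.1] using hs.2)
  have s0' := hs.1
  clear ev hall
  clear_value C5 M lam ε
  set h := Lap v (pt 0 s) with hhdef
  obtain hh2 : h ≤ C3 * s ^ 2 := by
    have := (abs_le.1 (hh (pt 0 s) (by rw [norm_pt_axis, abs_of_pos s0']; linarith only [r1, s0']))).2
    rwa [norm_pt_axis, sq_abs] at this
  -- on the axis
  obtain ⟨τ, t0, t1, e1, e2⟩ := H.tau (pt_mem (x := 0) (by simp) s0' (by linarith only [r1, s0']))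
  simp only [pt_pt, pt_zero] at t1 e1 e2
  have nτ : ‖pt (0 : E m) τ‖ = τ := by rw [norm_pt_axis, abs_of_pos t0]
  have x1 := Lu 0 τ (by rw [nτ]; linarith only [r1, s0', t1])
  rw [nτ] at x1
  obtain x2 : κ * τ ≤ 2 * h := by
    have b1 := mul_le_mul_of_nonneg_left t1 c1
    have b2 := mul_le_mul_of_nonneg_right (show C1 * τ ≤ κ / 4 by linarith only [r2, b1]) t0.le
    have b3 := mul_pos hκ t0
    linarith only [b2, b3, x1, e2]
  have h0 : 0 < h := by linarith only [x2, hκ, t0, mul_pos hκ t0]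
  obtain x3 : γ ≤ C5 * h := by
    clear * - γ C5 h C51 h0 u m τ a Cu hCu t0 nτ s r1 s0' t1 cu κ hκ x2 c hc hC5 hcdef v γ3 e1
    refine le_of_pow_le_pow_left₀ (n := 3) (by norm_num) (by positivity) ?_
    have b1 := (abs_le.1 (hCu 0 τ rfl t0.le (by rw [nτ]; linarith only [r1, s0', t1]))).2
    rw [nτ, e1, ← γ3] at b1
    simp only [cub, map_zero, mul_zero, zero_div, zero_add, ← hcdef] at b1
    have b2 : τ ^ 4 ≤ τ ^ 3 := pow_le_pow_of_le_one t0.le (by linarith only [r1, s0', t1]) (by norm_num)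
    have b3 := mul_le_mul_of_nonneg_left b2 cu
    have b4 : τ ≤ 2 / κ * h := by rw [div_mul_eq_mul_div, le_div_iff₀ hκ]; linarith only [x2]
    have b5 := mul_le_mul_of_nonneg_left (pow_le_pow_left₀ t0.le b4 3)
      (by positivity : 0 ≤ c / 6 + Cu)
    obtain b6 : (c / 6 + Cu) * (2 / κ) ^ 3 ≤ C5 ^ 3 := by
      linarith only [hC5, r1, s0', C51, le_self_pow₀ C51 (show 3 ≠ 0 by norm_num)]
    have b7 := mul_le_mul_of_nonneg_right b6 (pow_pos h0 3).le
    calc γ ^ 3 ≤ (c / 6 + Cu) * τ ^ 3 := by linarith only [b1, b3]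
      _ ≤ (c / 6 + Cu) * (2 / κ * h) ^ 3 := b5
      _ = (c / 6 + Cu) * (2 / κ) ^ 3 * h ^ 3 := by ring
      _ ≤ C5 ^ 3 * h ^ 3 := b7
      _ = (C5 * h) ^ 3 := by ring
  obtain x4 : D 0 (D 0 v) (pt 0 s) ≤ ε * h := by
    refine hγ.trans ((mul_le_mul_of_nonneg_left x3 (by positivity)).trans (le_of_eq ?_))
    field_simp
  have θ0 : 0 < M * h := by clear * - M h M1 h0; positivity
  obtain θs : M * h ≤ s := by
    have b1 := mul_le_mul_of_nonneg_left hh2 (by linarith only [M1, r1, s0'] : 0 ≤ M)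
    have b2 := mul_le_mul_of_nonneg_right r3.le s0'.le
    linarith only [b1, b2]
  obtain T1 : lam * h + M * h < 1 := by
    have := mul_le_mul_of_nonneg_left hh2 (by positivity : 0 ≤ lam + M)
    linarith only [r4, this]
  -- at the points `(s, ± M h e_j)`
  obtain side : ∀ (j : Fin (m + 1)) (η : ℝ), |η| = M * h → v (pt 0 s + η • e j.succ) ≤
      cub a (η • e j.succ) (lam * h) + Cu * (lam * h + M * h) ^ 4 := by
    clear * - m M h s s0' r1 θs u v a lam Cu H κ C1 Lu c1 C2 sL c2 hLv C3 h0 hh2 r2 hκ r5 lam0 θ0 T1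
      hCu cu
    intro j η hη
    have n1 := norm_pt_e (m := m) j η s
    rw [abs_of_pos s0', hη] at n1
    have hO : pt (η • (e j.succ : E m)) s ∈ Om m :=
      mem_Om_of_norm (by simpa using s0') (by rw [pt_e]; linarith only [r1, θs, n1])
    obtain ⟨σ, u0, u1, f1, f2⟩ := H.tau hO
    simp only [pt_pt, pt_zero] at u1 f1 f2
    obtain n2 : ‖pt (η • (e j.succ : E m)) σ‖ ≤ σ + M * h := by
      have := norm_pt_e (m := m) j η σ
      rwa [abs_of_pos u0, hη, ← pt_e] at this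
    have b1 := Lu (η • e j.succ) σ (by linarith only [r1, θs, u1, n2])
    have b2 := mul_le_mul_of_nonneg_left (pow_le_pow_left₀ (norm_nonneg _) n2 2) c1
    have b3 := (abs_le.1 (lip_line sL j c2 (hLv j) s0' r1.le θs hη.le)).2
    rw [← pt_e] at b3
    have b4 : σ ≤ lam * h := tau_num h0 c1 u0 u1 hh2 (by linarith only [r2, hκ])
      (by linarith only [b1, b2, b3, f2]) r5
    obtain n3 : ‖pt (η • (e j.succ : E m)) (lam * h)‖ ≤ lam * h + M * h := by
      have := norm_pt_e (m := m) j η (lam * h)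
      rwa [abs_of_pos (mul_pos lam0 h0), hη, ← pt_e] at this
    have b5 := H.mono (x := η • e j.succ) (by simpa using hO.1) u0.le b4 (by linarith only [θ0, T1])
    have b6 := (abs_le.1 (hCu (η • e j.succ) (lam * h) (by simp [e_succ_zero])
      (mul_pos lam0 h0).le (by linarith only [T1, n3]))).2
    have b7 := mul_le_mul_of_nonneg_left (pow_le_pow_left₀ (norm_nonneg _) n3 4) cu
    rw [← pt_e, ← f1]
    linarith only [b5, b6, b7]
  obtain each : ∀ j : Fin (m + 1),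
      (M * h) ^ 2 * D j.succ (D j.succ v) (pt 0 s) - C4 * (2 * s) * (M * h) * (M * h) ^ 2 ≤
        lam * h * (M * h) ^ 2 * a (e j.succ) (e j.succ) +
          ((lam * h) ^ 3 * c / 3 + 2 * Cu * (lam * h + M * h) ^ 4) := by
    clear * - m v s C4 M h u H θ0 c4 hyyy s0' r1 θs a lam Cu side c hcdef
    intro j
    have b1 := second_diff (hasDerivAt_D H.sv (pt 0 s) j.succ)
      (hasDerivAt_D (contDiff_D H.sv j.succ) (pt 0 s) j.succ) θ0.le
      (μ := D j.succ (D j.succ v) (pt 0 s) - C4 * (2 * s) * (M * h)) fun ξ hξ => by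
        have := (abs_le.1 (lip_line (contDiff_D (contDiff_D H.sv j.succ) j.succ) j c4 (hyyy j)
          s0' r1.le θs (η := ξ) (abs_le.2 ⟨hξ.1.le, hξ.2.le⟩))).1
        linarith only [this]
    have b2 := side j (M * h) (abs_of_pos θ0)
    have b3 := side j (-(M * h)) (by rw [abs_neg, abs_of_pos θ0])
    have b4 := H.vpos _ (pt_mem (x := 0) (by simp) s0' (by linarith only [r1, s0']))
    simp only [cub, map_smul, smul_apply, smul_eq_mul, ← hcdef] at b2 b3
    simp only [zero_smul, add_zero] at b1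
    linarith only [b1, b2, b3, b4]
  have tot := Finset.sum_le_sum fun j (_ : j ∈ (Finset.univ : Finset (Fin (m + 1)))) => each j
  simp only [Finset.sum_add_distrib, Finset.sum_sub_distrib, ← Finset.mul_sum, Finset.sum_const,
    Finset.card_univ, Fintype.card_fin, nsmul_eq_mul] at tot
  push_cast at tot
  rw [← hN] at tot
  obtain s1 : ∑ j : Fin (m + 1), a (e j.succ) (e j.succ) = κ - c := by
    rw [hκdef, kap_split]; ring
  obtain s2 : ∑ j : Fin (m + 1), D j.succ (D j.succ v) (pt 0 s) = h - D 0 (D 0 v) (pt 0 s) := by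
    have : h = D 0 (D 0 v) (pt 0 s) + ∑ j : Fin (m + 1), D j.succ (D j.succ v) (pt 0 s) :=
      Fin.sum_univ_succ _
    linarith only [this]
  rw [s1, s2] at tot
  have y1 := mul_le_mul_of_nonneg_left x4 (sq_nonneg (M * h))
  have y2 := mul_lt_mul_of_pos_right r6 (pow_pos h0 3)
  have y3 := mul_le_mul_of_nonneg_left hh2
    (by clear * - N Cu lam M h m cu lam0 M1 h0; positivity : 0 ≤ 2 * N * Cu * (lam + M) ^ 4 * h ^ 3)
  clear * - M h m v s C4 lam κ c Cu ε C3 N tot y1 y2 y3; linarith only [tot, y1, y2, y3]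

end Pool.Agent.Work.MP_a60953_an.Pos
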