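import Pool.Agent.Work.MP_a60953_an.Pos.Hyp
import Mathlib.Analysis.Calculus.Deriv.Slope

/-! The case `u_tt(0) ≠ 0`. -/

open scoped ContDiff Topology
open Set Filter

noncomputable section

namespace Pool.Agent.Work.MP_a60953_an.Pos

variable {m : ℕ} {u v : E m → ℝ}

@[simp] lemma pt_zero_zero : pt (0 : E m) 0 = 0 := by simp [pt]

@[simp] lemma rho_zero : rho (0 : E m) = 0 := by simp [rho]

lemma norm_pt_axis (t : ℝ) : ‖pt (0 : E m) t‖ = |t| := by simp [pt, norm_smul]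

lemma slope_right {g : ℝ → ℝ} {d : ℝ} (hg : HasDerivAt g d 0) (g0 : g 0 = 0) :
    Tendsto (fun t => g t / t) (𝓝[>] 0) (𝓝 d) := by
  have h := (hasDerivAt_iff_tendsto_slope.1 hg).mono_left
    (nhdsWithin_mono _ (show Ioi (0 : ℝ) ⊆ {0}ᶜ from fun t ht => ne_of_gt ht))
  refine h.congr fun t => ?_
  simp [slope_def_field, g0]

lemma deriv_nonneg_right {g : ℝ → ℝ} {d : ℝ} (hg : HasDerivAt g d 0) (g0 : g 0 = 0)
    (h : ∀ t ∈ Ioo (0 : ℝ) 1, 0 ≤ g t) : 0 ≤ d := by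
  refine ge_of_tendsto (slope_right hg g0) ?_
  filter_upwards [Ioo_mem_nhdsGT (zero_lt_one' ℝ)] with t ht using div_nonneg (h t ht) ht.1.le

lemma Hyp.ut_bottom (H : Hyp u v) {x : E m} (h0 : x 0 = 0) (h1 : rho x < 1) : 0 ≤ D 0 u x :=
  nonneg_bottom (contDiff_D H.su 0).continuous (fun z hz => (H.ut z hz).le) h0 h1

lemma Hyp.W_bottom (H : Hyp u v) {x : E m} (h0 : x 0 = 0) (h1 : rho x < 1) : 0 ≤ u x - v x :=
  nonneg_bottom H.sW.continuous (fun z hz => sub_nonneg.2 (H.le z hz)) h0 h1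

lemma Hyp.utt_nonneg (H : Hyp u v) : 0 ≤ D 0 (D 0 u) 0 := by
  have h := hasDerivAt_pt (contDiff_D H.su 0) 0 0
  rw [pt_zero_zero] at h
  exact deriv_nonneg_right h (by simpa using H.ut0)
    fun t ht => (H.ut _ (pt_mem (by simp) ht.1 ht.2)).le

lemma Lap_quad (A B : ℝ) (x : E m) :
    Lap (fun z : E m => z 0 + A * (z 0 * z 0) - B * ‖z‖ ^ 2) x =
      2 * A - 2 * ((m : ℝ) + 2) * B := by
  have hs : ContDiff ℝ ∞ fun z : E m => z 0 + A * (z 0 * z 0) - B * ‖z‖ ^ 2 :=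
    ((contDiff_coord 0).add (contDiff_const.mul ((contDiff_coord 0).mul (contDiff_coord 0)))).sub
      (contDiff_const.mul (contDiff_norm_sq ℝ))
  have h1 : ∀ i, D i (fun z : E m => z 0 + A * (z 0 * z 0) - B * ‖z‖ ^ 2) =
      fun z => (e i : E m) 0 + 2 * A * (e i : E m) 0 * z 0 - 2 * B * z i := fun i =>
    funext fun z => ((((P.coord 0).add (((P.coord 0).mul (P.coord 0)).const_mul A)).sub
      (P.normSq.const_mul B)).congr (by ring)).D_eq (diff hs z)
  have h2 : ∀ i, D i (D i fun z : E m => z 0 + A * (z 0 * z 0) - B * ‖z‖ ^ 2) x =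
      2 * A * ((e i : E m) 0 * (e i : E m) 0) - 2 * B := fun i => by
    rw [h1]
    refine P.D_eq ?_ (diff ((contDiff_const.add (contDiff_const.mul (contDiff_coord 0))).sub
      (contDiff_const.mul (contDiff_coord i))) x)
    refine (((P.const _).add ((P.coord 0).const_mul _)).sub ((P.coord i).const_mul _)).congr ?_
    simp
    ring
  have h3 : ∑ i, (e i : E m) 0 * (e i : E m) 0 = 1 := by simp [e_apply]
  simp only [Lap, h2, Finset.sum_sub_distrib, ← Finset.mul_sum, h3, Finset.sum_const,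
    Finset.card_univ, Fintype.card_fin, nsmul_eq_mul]
  push_cast
  ring

theorem Hyp.order_two (H : Hyp u v) (h2 : D 0 (D 0 u) 0 ≠ 0) (hpos : ∀ x ∈ Om m, v x < u x) :
    False := by
  have hA : 0 < D 0 (D 0 u) 0 := lt_of_le_of_ne H.utt_nonneg h2.symm
  set α := D 0 (D 0 u) 0 / 2 with hα
  have hα0 : 0 < α := by positivity
  have hev : ∀ᶠ z in 𝓝 (0 : E m), α < D 0 (D 0 u) z :=
    (contDiff_D (contDiff_D H.su 0) 0).continuous.continuousAt.eventually
      (lt_mem_nhds (by linarith only [hα, hα0]))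
  obtain ⟨r0, hr0, hball⟩ := Metric.eventually_nhds_iff.1 hev
  obtain ⟨σ, hσ0, hσ1, hσ2⟩ : ∃ σ : ℝ, 0 < σ ∧ σ < r0 ∧ σ < 1 :=
    ⟨min r0 1 / 2, by positivity, by linarith only [hr0, min_le_left r0 1, lt_min hr0 one_pos],
      by linarith [min_le_right r0 1]⟩
  obtain ⟨M, hM0, hM⟩ := H.exists_M
  set C := 4 * M / α with hC
  have hC0 : 0 ≤ C := by positivity
  have hsup : ∀ x : E m, 0 < x 0 → ‖x‖ ≤ σ →
      x 0 * Lap (fun z => u z - v z) x ≤ C * (u x - v x) := by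
    intro x hx0 hx
    have hxO : x ∈ Om m := mem_Om_of_norm hx0 (by linarith)
    obtain ⟨τ, h0, h1, e1, e2⟩ := H.tau hxO
    have a1 := H.W_ge hxO h0 h1 e1 (μ := α * (x 0 / 2)) (by positivity) fun ξ hξ => by
      have b1 := mvt_ge (hasDerivAt_pt (contDiff_D H.su 0) x) (α := 0) (β := ξ) (μ := α)
        (by linarith only [hx0, hξ, hξ.1]) fun η hη => (hball (by
          have := norm_pt_le x (τ := η) (by
            rw [abs_of_pos hη.1, abs_of_pos hx0]; linarith only [hη, hξ, hη.2, hξ.2])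
          rw [dist_zero_right]; linarith only [hσ1, hx, this])).le
      have b2 := H.ut_bottom (x := pt x 0) (by simp) (by simpa using hxO.1)
      have b3 := mul_le_mul_of_nonneg_left hξ.1 hα0.le
      linarith only [b1, b2, b3]
    have a2 := mul_le_mul_of_nonneg_left (hM x hxO τ h0 h1 e2) hx0.le
    refine a2.trans ?_
    rw [hC, div_mul_eq_mul_div, le_div_iff₀ hα0]
    (refine le_of_not_gt fun h_nl => ?_; linarith only [h_nl, hσ0, hσ2, hM0, a1, mul_pos_of_neg_of_neg (Mathlib.Tactic.Linarith.sub_neg_of_lt hσ0) (Mathlib.Tactic.Linarith.sub_neg_of_lt h_nl), mul_pos_of_neg_of_neg (Mathlib.Tactic.Linarith.sub_neg_of_lt hσ2) (Mathlib.Tactic.Linarith.sub_neg_of_lt h_nl), mul_nonneg_of_nonpos_of_nonpos (Mathlib.Tactic.Linarith.sub_nonpos_of_le hM0) (Mathlib.Tactic.Linarith.sub_nonpos_of_le a1)])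
  set n : ℝ := (m : ℝ) + 2 with hn
  have hn2 : 2 ≤ n := by have := Nat.cast_nonneg (α := ℝ) m; linarith
  set B := 4 / σ ^ 2 with hB
  have hB0 : 0 < B := by positivity
  have hBσ : B * σ ^ 2 = 4 := by rw [hB]; field_simp
  set A := 2 * n * B + C + 1 with hAdef
  have hA0 : 0 < A := by positivity
  obtain ⟨t0, ht0, ht1, ht2⟩ : ∃ t0 : ℝ, 0 < t0 ∧ (C + 1) * t0 ≤ 1 ∧ 2 * n * t0 ≤ σ := by
    refine ⟨min (1 / (C + 1)) (σ / (2 * n)), by positivity, ?_, ?_⟩
    · have := min_le_left (1 / (C + 1)) (σ / (2 * n))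
      rw [le_div_iff₀ (by positivity)] at this; linarith only [this]
    · have := min_le_right (1 / (C + 1)) (σ / (2 * n))
      rw [le_div_iff₀ (by positivity)] at this; linarith only [this]
  have ht3 : 4 * t0 ≤ σ := by linarith only [ht2, ht0, mul_nonneg_of_nonpos_of_nonpos (Mathlib.Tactic.Linarith.sub_nonpos_of_le (Mathlib.Tactic.Linarith.natCast_nonneg ℝ m)) (le_of_lt (Mathlib.Tactic.Linarith.sub_neg_of_lt ht0))]
  have hs : ContDiff ℝ ∞ fun z : E m => z 0 + A * (z 0 * z 0) - B * ‖z‖ ^ 2 :=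
    ((contDiff_coord 0).add (contDiff_const.mul ((contDiff_coord 0).mul (contDiff_coord 0)))).sub
      (contDiff_const.mul (contDiff_norm_sq ℝ))
  have hKc : ∀ a b : ℝ, IsCompact {x : E m | ‖x‖ ≤ σ ∧ a ≤ x 0 ∧ x 0 ≤ b} := fun a b =>
    (isCompact_closedBall (0 : E m) σ).of_isClosed_subset
      ((isClosed_le continuous_norm continuous_const).inter
        ((isClosed_le continuous_const (continuous_coord 0)).inter
          (isClosed_le (continuous_coord 0) continuous_const))) fun x hx => by simpa using hx.1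
  obtain ⟨z, hz, hmin⟩ := (hKc t0 t0).exists_isMinOn
    ⟨pt 0 t0, by rw [mem_ofPred_eq, norm_pt_axis, abs_of_pos ht0]; simp; linarith only [ht0, ht3]⟩
    H.sW.continuous.continuousOn
  have hw : 0 < u z - v z :=
    sub_pos.2 (hpos z (mem_Om_of_norm (ht0.trans_le hz.2.1) (by linarith only [hσ2, hz, hz.1])))
  set ε := (u z - v z) / (t0 + A * (t0 * t0)) with hε
  have hε0 : 0 < ε := by positivity
  have hεw : ε * (t0 + A * (t0 * t0)) = u z - v z := by rw [hε]; field_simp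
  have key := barrier H.sW hs (hKc 0 t0) (ε := ε) fun x hx => by
    obtain ⟨x1, x2, x3⟩ := hx
    have nB : 0 ≤ B * ‖x‖ ^ 2 := by positivity
    rcases x2.eq_or_lt with c0 | c0
    · left
      have := H.W_bottom c0.symm (rho_lt_of_norm (by linarith only [hσ2, x1]))
      rw [← c0]
      (refine le_of_not_gt fun h_nl => ?_; linarith only [h_nl, this, hσ2, ht0, ht3, hε0, nB, mul_pos_of_neg_of_neg (Mathlib.Tactic.Linarith.sub_neg_of_lt hσ2) (Mathlib.Tactic.Linarith.sub_neg_of_lt h_nl), mul_pos_of_neg_of_neg (Mathlib.Tactic.Linarith.sub_neg_of_lt ht0) (Mathlib.Tactic.Linarith.sub_neg_of_lt h_nl), mul_nonneg_of_nonpos_of_nonpos (Mathlib.Tactic.Linarith.sub_nonpos_of_le ht3) (le_of_lt (Mathlib.Tactic.Linarith.sub_neg_of_lt h_nl)), mul_nonneg_of_nonpos_of_nonpos (le_of_lt (Mathlib.Tactic.Linarith.sub_neg_of_lt hε0)) (Mathlib.Tactic.Linarith.sub_nonpos_of_le nB)])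
    have hW := sub_pos.2 (hpos x (mem_Om_of_norm c0 (by linarith only [hσ2, x1])))
    rcases x3.eq_or_lt with c1 | c1
    · left
      have : u z - v z ≤ u x - v x := hmin (show x ∈ {x : E m | ‖x‖ ≤ σ ∧ t0 ≤ x 0 ∧ x 0 ≤ t0}
        from ⟨x1, c1.ge, c1.le⟩)
      rw [c1]
      (refine le_of_not_gt fun h_nl => ?_; linarith only [h_nl, hεw, this, hσ2, ht0, ht3, hε0, nB, mul_pos_of_neg_of_neg (Mathlib.Tactic.Linarith.sub_neg_of_lt hσ2) (Mathlib.Tactic.Linarith.sub_neg_of_lt h_nl), mul_pos_of_neg_of_neg (Mathlib.Tactic.Linarith.sub_neg_of_lt ht0) (Mathlib.Tactic.Linarith.sub_neg_of_lt h_nl), mul_nonneg_of_nonpos_of_nonpos (Mathlib.Tactic.Linarith.sub_nonpos_of_le ht3) (le_of_lt (Mathlib.Tactic.Linarith.sub_neg_of_lt h_nl)), mul_nonneg_of_nonpos_of_nonpos (le_of_lt (Mathlib.Tactic.Linarith.sub_neg_of_lt hε0)) (Mathlib.Tactic.Linarith.sub_nonpos_of_le nB)])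
    rcases x1.eq_or_lt with c2 | c2
    · left
      have b1 : x 0 * x 0 ≤ t0 * t0 := mul_le_mul c1.le c1.le c0.le ht0.le
      have b2 : A * (t0 * t0) ≤ 2 := by
        have d1 : 2 * n * t0 * (4 * t0) ≤ σ * σ :=
          mul_le_mul ht2 ht3 (by positivity) hσ0.le
        have d2 := mul_le_mul_of_nonneg_left d1 hB0.le
        have d3 := mul_le_mul_of_nonneg_right ht1 ht0.le
        rw [hAdef]
        linarith only [hσ2, hBσ, ht3, c0, c1, d2, d3]
      have b3 := mul_le_mul_of_nonneg_left b1 hA0.le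
      have b4 : x 0 + A * (x 0 * x 0) - B * ‖x‖ ^ 2 ≤ 0 := by rw [c2, hBσ]; linarith only [hσ2, ht3, c0, c1, b2, b3]
      (refine le_of_not_gt fun h_nl => ?_; linarith only [h_nl, hσ2, hW, ht0, ht3, hε0, b4, mul_pos_of_neg_of_neg (Mathlib.Tactic.Linarith.sub_neg_of_lt hσ2) (Mathlib.Tactic.Linarith.sub_neg_of_lt hW), mul_pos_of_neg_of_neg (Mathlib.Tactic.Linarith.sub_neg_of_lt hσ2) (Mathlib.Tactic.Linarith.sub_neg_of_lt h_nl), mul_pos_of_neg_of_neg (Mathlib.Tactic.Linarith.sub_neg_of_lt ht0) (Mathlib.Tactic.Linarith.sub_neg_of_lt hW), mul_pos_of_neg_of_neg (Mathlib.Tactic.Linarith.sub_neg_of_lt ht0) (Mathlib.Tactic.Linarith.sub_neg_of_lt h_nl), mul_nonneg_of_nonpos_of_nonpos (Mathlib.Tactic.Linarith.sub_nonpos_of_le ht3) (le_of_lt (Mathlib.Tactic.Linarith.sub_neg_of_lt hW)), mul_nonneg_of_nonpos_of_nonpos (Mathlib.Tactic.Linarith.sub_nonpos_of_le ht3) (le_of_lt (Mathlib.Tactic.Linarith.sub_neg_of_lt h_nl)), mul_nonneg_of_nonpos_of_nonpos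 (le_of_lt (Mathlib.Tactic.Linarith.sub_neg_of_lt hε0)) (Mathlib.Tactic.Linarith.sub_nonpos_of_le b4)])
    right
    refine ⟨?_, fun hlt => ?_⟩
    · have o : IsOpen {x : E m | ‖x‖ < σ ∧ 0 < x 0 ∧ x 0 < t0} :=
        (isOpen_lt continuous_norm continuous_const).inter
          ((isOpen_lt continuous_const (continuous_coord 0)).inter
            (isOpen_lt (continuous_coord 0) continuous_const))
      exact mem_of_superset (o.mem_nhds ⟨c2, c0, c1⟩) fun y hy => ⟨hy.1.le, hy.2.1.le, hy.2.2.le⟩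
    · rw [Lap_quad, ← hn]
      have b1 := hsup x c0 x1
      have b2 : u x - v x ≤ ε * (x 0 * (1 + A * x 0)) := by (refine le_of_not_gt fun h_nl => ?_; linarith only [h_nl, hσ2, hlt, ht0, ht3, hε0, nB, mul_pos_of_neg_of_neg (Mathlib.Tactic.Linarith.sub_neg_of_lt hσ2) (Mathlib.Tactic.Linarith.sub_neg_of_lt hlt), mul_pos_of_neg_of_neg (Mathlib.Tactic.Linarith.sub_neg_of_lt hσ2) (Mathlib.Tactic.Linarith.sub_neg_of_lt h_nl), mul_pos_of_neg_of_neg (Mathlib.Tactic.Linarith.sub_neg_of_lt ht0) (Mathlib.Tactic.Linarith.sub_neg_of_lt hlt), mul_pos_of_neg_of_neg (Mathlib.Tactic.Linarith.sub_neg_of_lt ht0) (Mathlib.Tactic.Linarith.sub_neg_of_lt h_nl), mul_nonneg_of_nonpos_of_nonpos (Mathlib.Tactic.Linarith.sub_nonpos_of_le ht3) (le_of_lt (Mathlib.Tactic.Linarith.sub_neg_of_lt hlt)), mul_nonneg_of_nonpos_of_nonpos (Mathlib.Tactic.Linarith.sub_nonpos_of_le ht3) (le_of_lt (Mathlib.Tactic.Linarith.sub_neg_of_lt h_nl)), mul_nonneg_of_nonpos_of_nonpos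 (le_of_lt (Mathlib.Tactic.Linarith.sub_neg_of_lt hε0)) (Mathlib.Tactic.Linarith.sub_nonpos_of_le nB)])
      have b3 := mul_le_mul_of_nonneg_left b2 hC0
      have b4 : C * (1 + A * x 0) < 2 * A - 2 * n * B := by
        have d1 : C * x 0 ≤ 1 := by (refine le_of_not_gt fun h_nl => ?_; linarith only [h_nl, ht1, hσ0, c0, c1, hσ2, hC0, x3, mul_pos_of_neg_of_neg (Mathlib.Tactic.Linarith.sub_neg_of_lt hσ0) (Mathlib.Tactic.Linarith.sub_neg_of_lt c0), mul_pos_of_neg_of_neg (Mathlib.Tactic.Linarith.sub_neg_of_lt hσ0) (Mathlib.Tactic.Linarith.sub_neg_of_lt c1), mul_pos_of_neg_of_neg (Mathlib.Tactic.Linarith.sub_neg_of_lt hσ0) (Mathlib.Tactic.Linarith.sub_neg_of_lt h_nl), mul_pos_of_neg_of_neg (Mathlib.Tactic.Linarith.sub_neg_of_lt hσ2) (Mathlib.Tactic.Linarith.sub_neg_of_lt c0), mul_pos_of_neg_of_neg (Mathlib.Tactic.Linarith.sub_neg_of_lt hσ2) (Mathlib.Tactic.Linarith.sub_neg_of_lt c1), mul_pos_of_neg_of_neg (Mathlib.Tactic.Linarith.sub_neg_of_lt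 hσ2) (Mathlib.Tactic.Linarith.sub_neg_of_lt h_nl), mul_nonneg_of_nonpos_of_nonpos (Mathlib.Tactic.Linarith.sub_nonpos_of_le hC0) (Mathlib.Tactic.Linarith.sub_nonpos_of_le x3)])
        have d2 := mul_le_mul_of_nonneg_left d1 hA0.le
        linarith only [hσ2, ht3, c0, c1, d2]
      have b5 := mul_lt_mul_of_pos_left b4 (mul_pos hε0 c0)
      refine lt_of_mul_lt_mul_left (a := x 0) ?_ c0.le
      linarith only [b1, b3, b5]
  have hd := hasDerivAt_pt H.su 0 0
  rw [pt_zero_zero, H.ut0] at hd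
  have hsl := (slope_right hd (by simpa using H.bd 0 (by simp) (by simp))).eventually
    (gt_mem_nhds hε0)
  obtain ⟨t, h1, h2⟩ := (hsl.and (Ioo_mem_nhdsGT ht0)).exists
  have k1 := key (pt 0 t) ⟨by rw [norm_pt_axis, abs_of_pos h2.1]; linarith only [ht3, h2, h2.2],
    by simpa using h2.1.le, by simpa using h2.2.le⟩
  rw [norm_pt_axis, sq_abs, pt_zero] at k1
  rw [div_lt_iff₀ h2.1] at h1
  have k2 := H.vpos _ (pt_mem (x := 0) (by simp) h2.1 (by linarith only [hσ2, ht3, h2, h2.2]))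
  have k3 : 0 ≤ ε * ((A - B) * t ^ 2) := by
    have : 0 ≤ A - B := by rw [hAdef]; linarith only [hσ2, hC0, hA0, ht3, h2, hB0, mul_nonneg_of_nonpos_of_nonpos (Mathlib.Tactic.Linarith.sub_nonpos_of_le (Mathlib.Tactic.Linarith.natCast_nonneg ℝ m)) (le_of_lt (Mathlib.Tactic.Linarith.sub_neg_of_lt hB0))]
    positivity
  linarith only [h1, k1, k2, k3]

end Pool.Agent.Work.MP_a60953_an.Pos
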